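import Pool.Agent.Helper880_ZP.Pol

/-!
# Polarised Hodge structures of even weight
-/

set_option autoImplicit false
set_option linter.unusedSectionVars false
set_option linter.unusedVariables false

open Matrix Module

namespace Pool.Agent.Helper880_ZP

open Pool.Agent.Helper880_LF (spS mem_spS count om om_add_left om_add_right om_smul_left om_smul_right om_zero_left
  om_zero_right om_sub_left orth mem_orth orth_ge smul_mem_iff' om_nondeg)
open Pool.Agent.Helper880_R3 (wd lieB mem_lieB so_span)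

variable {n : ℕ} {J φ R : Matrix (Fin n) (Fin n) ℂ} {lev : Fin n → ℤ} {w : ℤ}

theorem star_I_zpow (k : ℤ) : star (Complex.I ^ k) = (-Complex.I) ^ k := by
  have h1 : star (Complex.I ^ k) = (starRingEnd ℂ) (Complex.I ^ k) := rfl
  rw [h1, map_zpow₀, Complex.conj_I]

theorem I_zpow_even {k : ℤ} (hk : Even k) : Complex.I ^ (-k) = Complex.I ^ k := by
  have h1 : Complex.I ^ k * Complex.I ^ k = 1 := by
    rw [← zpow_add₀ Complex.I_ne_zero, ← two_mul, _root_.zpow_mul]
    have h2 : Complex.I ^ (2 : ℤ) = -1 := by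
      have h3 : Complex.I ^ (2 : ℤ) = Complex.I ^ (2 : ℕ) := by norm_cast
      rw [h3, Complex.I_sq]
    rw [h2, hk.neg_one_zpow]
  rw [_root_.zpow_neg]
  exact (eq_inv_of_mul_eq_one_left h1).symm

/-- parity in the symmetric case -/
theorem Pol.even (hp : Pol w J φ) (he : Eig lev R φ) (hn : 0 < n) (hJ : Jᵀ = J) : Even w := by
  by_contra hw
  obtain ⟨v, a, hv0, hv⟩ := he.exists_vec hn
  have h1 := hp.pos v hv0 a hv
  have h2 := om_star_re hp (ε := 1) (by rw [hJ]; push_cast; rw [one_smul]) v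
  rw [Complex.ofReal_one, one_mul] at h2
  have hodd : Odd (2 * a - w) := by
    rw [Int.not_even_iff_odd] at hw
    exact (even_two_mul a).sub_odd hw
  have h3 : star (Complex.I ^ (2 * a - w) * om J v (star v)) = -(Complex.I ^ (2 * a - w) * om J v (star v)) := by
    rw [star_mul', star_I_zpow, hodd.neg_zpow, h2, neg_mul]
  have h4 := congrArg Complex.re h3
  have h5 : (star (Complex.I ^ (2 * a - w) * om J v (star v))).re = (Complex.I ^ (2 * a - w) * om J v (star v)).re :=
    Complex.conj_re _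
  rw [h5, Complex.neg_re] at h4
  linarith

/-- the Weil operator composed with conjugation -/
noncomputable def sg (w : ℤ) (lev : Fin n → ℤ) (R : Matrix (Fin n) (Fin n) ℂ) (v : Fin n → ℂ) : Fin n → ℂ :=
  spec lev R (fun q => Complex.I ^ (2 * q - w)) *ᵥ star v

theorem sg_add (u v : Fin n → ℂ) : sg w lev R (u + v) = sg w lev R u + sg w lev R v := by
  unfold sg
  rw [star_add, mulVec_add]

theorem sg_smul (c : ℂ) (v : Fin n → ℂ) : sg w lev R (c • v) = star c • sg w lev R v := by
  unfold sg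
  rw [star_smul, mulVec_smul]

theorem sg_zero : sg w lev R (0 : Fin n → ℂ) = 0 := by
  unfold sg
  rw [star_zero, mulVec_zero]

theorem sg_eig (hp : Pol w J φ) (he : Eig lev R φ) {v : Fin n → ℂ} {a : ℤ} (hv : φ *ᵥ v = (a : ℂ) • v) :
    sg w lev R v = Complex.I ^ (w - 2 * a) • star v := by
  unfold sg
  rw [spec_eig he _ (hp.conj_eig hv)]
  congr 2
  ring

/-- induction over eigenvectors -/
theorem eig_ind (he : Eig lev R φ) {p : (Fin n → ℂ) → Prop} (h1 : ∀ v, ∀ q : ℤ, φ *ᵥ v = (q : ℂ) • v → p v)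
    (h0 : p 0) (h2 : ∀ u v, p u → p v → p (u + v)) (h3 : ∀ (c : ℂ) v, p v → p (c • v)) (v : Fin n → ℂ) : p v := by
  have h4 := vec_span he (S := ⊤) (fun v _ => Submodule.mem_top) (Submodule.mem_top (x := v))
  induction h4 using Submodule.span_induction with
  | mem v hv =>
    obtain ⟨-, q, hq⟩ := hv
    exact h1 v q hq
  | zero => exact h0
  | add u v _ _ hu hv => exact h2 u v hu hv
  | smul c v _ hv => exact h3 c v hv

theorem sg_sg (hp : Pol w J φ) (he : Eig lev R φ) (hw : Even w) (v : Fin n → ℂ) : sg w lev R (sg w lev R v) = v := by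
  refine eig_ind he (p := fun v => sg w lev R (sg w lev R v) = v) ?_ ?_ ?_ ?_ v
  · intro v q hq
    have hev : Even (w - 2 * q) := hw.sub (even_two_mul q)
    rw [sg_eig hp he hq, sg_smul, sg_eig hp he (hp.conj_eig hq), star_star, smul_smul, star_I_zpow, hev.neg_zpow,
      ← zpow_add₀ Complex.I_ne_zero]
    have h1 : w - 2 * q + (w - 2 * (w - q)) = 0 := by ring
    rw [h1, zpow_zero, one_smul]
  · rw [sg_zero, sg_zero]
  · intro u v hu hv
    rw [sg_add, sg_add, hu, hv]
  · intro c v hv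
    rw [sg_smul, sg_smul, hv, star_star]

theorem om_sg (hp : Pol w J φ) (he : Eig lev R φ) (u v : Fin n → ℂ) :
    om J (sg w lev R u) (sg w lev R v) = star (om J u v) := by
  refine eig_ind he (p := fun u => om J (sg w lev R u) (sg w lev R v) = star (om J u v)) ?_ ?_ ?_ ?_ u
  · intro u a hu
    refine eig_ind he (p := fun v => om J (sg w lev R u) (sg w lev R v) = star (om J u v)) ?_ ?_ ?_ ?_ v
    · intro v b hv
      rw [sg_eig hp he hu, sg_eig hp he hv, om_smul_left, om_smul_right, om_bar hp.real]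
      by_cases hab : a + b = w
      · rw [← mul_assoc, ← zpow_add₀ Complex.I_ne_zero]
        have h1 : w - 2 * a + (w - 2 * b) = 0 := by omega
        rw [h1, zpow_zero, one_mul]
      · rw [hp.om_eig hu hv hab, star_zero, mul_zero, mul_zero]
    · rw [sg_zero, om_zero_right, om_zero_right, star_zero]
    · intro x y hx hy
      rw [sg_add, om_add_right, om_add_right, hx, hy, star_add]
    · intro c x hx
      rw [sg_smul, om_smul_right, om_smul_right, hx, star_mul']
  · rw [sg_zero, om_zero_left, om_zero_left, star_zero]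
  · intro x y hx hy
    rw [sg_add, om_add_left, om_add_left, hx, hy, star_add]
  · intro c x hx
    rw [sg_smul, om_smul_left, om_smul_left, hx, star_mul']

theorem om_sum_left {ι : Type} (s : Finset ι) (f : ι → Fin n → ℂ) (v : Fin n → ℂ) :
    om J (∑ i ∈ s, f i) v = ∑ i ∈ s, om J (f i) v := by
  classical
  induction s using Finset.induction_on with
  | empty => rw [Finset.sum_empty, Finset.sum_empty, om_zero_left]
  | insert a s ha ih => rw [Finset.sum_insert ha, Finset.sum_insert ha, om_add_left, ih]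

theorem om_sum_right {ι : Type} (s : Finset ι) (f : ι → Fin n → ℂ) (v : Fin n → ℂ) :
    om J v (∑ i ∈ s, f i) = ∑ i ∈ s, om J v (f i) := by
  classical
  induction s using Finset.induction_on with
  | empty => rw [Finset.sum_empty, Finset.sum_empty, om_zero_right]
  | insert a s ha ih => rw [Finset.sum_insert ha, Finset.sum_insert ha, om_add_right, ih]

theorem sg_sum {ι : Type} (s : Finset ι) (f : ι → Fin n → ℂ) :
    sg w lev R (∑ i ∈ s, f i) = ∑ i ∈ s, sg w lev R (f i) := by
  classical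
  induction s using Finset.induction_on with
  | empty => rw [Finset.sum_empty, Finset.sum_empty, sg_zero]
  | insert a s ha ih => rw [Finset.sum_insert ha, Finset.sum_insert ha, sg_add, ih]

theorem om_sg_pos (hp : Pol w J φ) (he : Eig lev R φ) (hw : Even w) {v : Fin n → ℂ} (hv : v ≠ 0) :
    om J v (sg w lev R v) ≠ 0 := by
  set s := Finset.univ.image lev with hs
  have h1 : om J v (sg w lev R v) = ∑ q ∈ s, Complex.I ^ (2 * q - w) * om J (ep lev R q v) (star (ep lev R q v)) := by
    conv_lhs => rw [← sum_ep he v]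
    rw [sg_sum, om_sum_left]
    refine Finset.sum_congr rfl fun q hq => ?_
    rw [om_sum_right, Finset.sum_eq_single q]
    · rw [sg_eig hp he (ep_eig he q v), om_smul_right]
      have h2 : w - 2 * q = -(2 * q - w) := by ring
      rw [h2, I_zpow_even ((even_two_mul q).sub hw)]
    · intro q' _ hq'
      rw [sg_eig hp he (ep_eig he q' v), om_smul_right,
        hp.om_eig (ep_eig he q v) (hp.conj_eig (ep_eig he q' v)) (by omega), mul_zero]
    · intro h
      exact absurd hq h
  have h2 : ∀ q ∈ s, 0 ≤ (Complex.I ^ (2 * q - w) * om J (ep lev R q v) (star (ep lev R q v))).re := by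
    intro q _
    by_cases h0 : ep lev R q v = 0
    · rw [h0, om_zero_left, mul_zero, Complex.zero_re]
    · exact (hp.pos _ h0 q (ep_eig he q v)).le
  have h3 : ∃ q ∈ s, ep lev R q v ≠ 0 := by
    by_contra hcon
    push Not at hcon
    apply hv
    rw [← sum_ep he v]
    exact Finset.sum_eq_zero hcon
  obtain ⟨q, hq, hq0⟩ := h3
  have h4 : 0 < (om J v (sg w lev R v)).re := by
    rw [h1, Complex.re_sum]
    exact Finset.sum_pos' h2 ⟨q, hq, hp.pos _ hq0 q (ep_eig he q v)⟩
  intro h5
  rw [h5, Complex.zero_re] at h4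
  exact lt_irrefl _ h4

theorem wd_bar (hJr : mbar J = J) (u v : Fin n → ℂ) : wd J (star u) (star v) = mbar (wd J u v) := by
  have h1 : ∀ a b : Fin n → ℂ, vecMulVec (star a) (star b ᵥ* J) = mbar (vecMulVec a (b ᵥ* J)) := by
    intro a b
    have h2 : star b ᵥ* J = star (b ᵥ* J) := by
      funext i
      simp only [vecMul, dotProduct, Pi.star_apply]
      rw [star_sum]
      refine Finset.sum_congr rfl fun j _ => ?_
      rw [star_mul']
      congr 1
      exact (congrFun (congrFun hJr j) i).symm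
    rw [h2]
    ext i j
    simp [mbar, vecMulVec_apply]
  unfold wd
  rw [h1, h1, ← mbar_sub]

theorem Pol.comm_wd (hp : Pol w J φ) (hJ : Jᵀ = J) {u v : Fin n → ℂ} {a b : ℤ} (hu : φ *ᵥ u = (a : ℂ) • u)
    (hv : φ *ᵥ v = (b : ℂ) • v) : φ * wd J u v - wd J u v * φ = ((a + b - w : ℤ) : ℂ) • wd J u v := by
  rw [← Ph_comm (w := w), Pool.Agent.Helper880_ZP.comm_wd hJ hp.Ph_mem, Ph_mulVec, Ph_mulVec, hu, hv, ← sub_smul,
    ← sub_smul, wd_smul_left, wd_smul_right, ← add_smul]
  congr 1
  push_cast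
  ring

theorem wd_zero_left (v : Fin n → ℂ) : wd J 0 v = 0 := by
  have := wd_smul_left (J := J) 0 (0 : Fin n → ℂ) v
  rwa [zero_smul, zero_smul] at this

theorem wd_zero_right (v : Fin n → ℂ) : wd J v 0 = 0 := by
  have := wd_smul_right (J := J) 0 v (0 : Fin n → ℂ)
  rwa [zero_smul, zero_smul] at this

theorem wd_spec (hp : Pol w J φ) (he : Eig lev R φ) (hJ : Jᵀ = J) (u v : Fin n → ℂ) :
    wd J (spec lev R (fun q => Complex.I ^ (2 * q - w)) *ᵥ u) (spec lev R (fun q => Complex.I ^ (2 * q - w)) *ᵥ v) =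
      pt lev R (fun c => Complex.I ^ (2 * c)) (wd J u v) := by
  refine eig_ind he (p := fun u => wd J (spec lev R (fun q => Complex.I ^ (2 * q - w)) *ᵥ u)
    (spec lev R (fun q => Complex.I ^ (2 * q - w)) *ᵥ v) = pt lev R (fun c => Complex.I ^ (2 * c)) (wd J u v)) ?_ ?_ ?_ ?_ u
  · intro u a hu
    refine eig_ind he (p := fun v => wd J (spec lev R (fun q => Complex.I ^ (2 * q - w)) *ᵥ u)
      (spec lev R (fun q => Complex.I ^ (2 * q - w)) *ᵥ v) = pt lev R (fun c => Complex.I ^ (2 * c)) (wd J u v))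
      ?_ ?_ ?_ ?_ v
    · intro v b hv
      rw [spec_eig he _ hu, spec_eig he _ hv, wd_smul_left, wd_smul_right, smul_smul, ← zpow_add₀ Complex.I_ne_zero,
        pt_eig he _ (hp.comm_wd hJ hu hv)]
      congr 2
      ring
    · rw [mulVec_zero, wd_zero_right, wd_zero_right, map_zero]
    · intro x y hx hy
      rw [mulVec_add, wd_add_right, wd_add_right, hx, hy, map_add]
    · intro c x hx
      rw [mulVec_smul, wd_smul_right, wd_smul_right, hx, map_smul]
  · rw [mulVec_zero, wd_zero_left, wd_zero_left, map_zero]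
  · intro x y hx hy
    rw [mulVec_add, wd_add_left, wd_add_left, hx, hy, map_add]
  · intro c x hx
    rw [mulVec_smul, wd_smul_left, wd_smul_left, hx, map_smul]

theorem Pol.ort (hp : Pol w J φ) (he : Eig lev R φ) (hJ : Jᵀ = J) {𝔫 : Submodule ℂ (Matrix (Fin n) (Fin n) ℂ)}
    (h𝔫 : 𝔫 ≤ spS J) (hbr : ∀ x ∈ 𝔫, ∀ y ∈ 𝔫, x * y - y * x ∈ 𝔫) (hbar : ∀ y ∈ 𝔫, mbar y ∈ 𝔫)
    (hφ : ∀ y ∈ 𝔫, φ * y - y * φ ∈ 𝔫) {r : ℕ} (hcod : finrank ℂ (spS J) ≤ finrank ℂ 𝔫 + r) (hr : r + 3 ≤ n)
    (u v : Fin n → ℂ) : wd J u v ∈ 𝔫 := by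
  have hw := hp.even he (by omega) hJ
  refine ort_full (σ := sg w lev R) sg_add sg_smul (sg_sg hp he hw) hJ h𝔫 hbr hcod hr ?_
    (fun v hv => om_sg_pos hp he hw hv) (om_sg hp he) u v
  intro u v huv
  unfold sg
  rw [wd_spec hp he hJ, wd_bar hp.real]
  exact pt_mem he hφ _ (hbar _ huv)

theorem Pol.ideal_so (hp : Pol w J φ) (he : Eig lev R φ) (hn : 5 ≤ n) (hJ : Jᵀ = J) (hdet : IsUnit J.det)
    (hne : φ ≠ ((w : ℂ) / 2) • (1 : Matrix (Fin n) (Fin n) ℂ))
    {𝔞 : Submodule ℂ (Matrix (Fin n) (Fin n) ℂ)} (hst : ∀ x ∈ spS J, ∀ y ∈ 𝔞, x * y - y * x ∈ 𝔞)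
    (hφ : ∀ x ∈ spS J, φ * x - x * φ ∈ 𝔞) (x y : Fin n → ℂ) : wd J x y ∈ 𝔞 := by
  obtain ⟨v, a, hv0, hv, ha⟩ : ∃ (v : Fin n → ℂ) (a : ℤ), v ≠ 0 ∧ φ *ᵥ v = (a : ℂ) • v ∧ 2 * a ≠ w := by
    by_contra hcon
    push Not at hcon
    apply hne
    have h1 : ∀ v, φ *ᵥ v = ((w : ℂ) / 2) • v := by
      refine eig_ind he ?_ ?_ ?_ ?_
      · intro v q hq
        by_cases h0 : v = 0
        · rw [h0, mulVec_zero, smul_zero]
        · rw [hq, ← hcon v q h0 hq]
          congr 1
          push_cast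
          ring
      · rw [mulVec_zero, smul_zero]
      · intro u v hu hv
        rw [mulVec_add, hu, hv, smul_add]
      · intro c v hv
        rw [mulVec_smul, hv, smul_comm]
    ext i j
    have h2 : φ i j = ((w : ℂ) / 2) * (Pi.single j 1 : Fin n → ℂ) i := by
      have h3 := congrFun (h1 (Pi.single j 1)) i
      rw [mulVec_single_col] at h3
      exact h3
    rw [h2, Matrix.smul_apply, Matrix.one_apply, Pi.single_apply, smul_eq_mul]
  obtain ⟨u, b, hu, hb, huv⟩ : ∃ (u : Fin n → ℂ) (b : ℤ), φ *ᵥ u = (b : ℂ) • u ∧ b ≠ w - a ∧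
      u ∉ Submodule.span ℂ {v} := by
    by_contra hcon
    push Not at hcon
    have h1 : ∀ u : Fin n → ℂ, u ∈ Submodule.span ℂ {v, star v} := by
      refine eig_ind he ?_ (Submodule.zero_mem _) (fun u v hu hv => Submodule.add_mem _ hu hv)
        (fun c v hv => Submodule.smul_mem _ _ hv)
      intro u b hu
      by_cases hb : b = w - a
      · have h2 := hcon (star u) (w - b) (hp.conj_eig hu) (by omega)
        obtain ⟨c, hc⟩ := Submodule.mem_span_singleton.1 h2
        have h3 : u = star c • star v := by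
          rw [← star_smul, hc, star_star]
        rw [h3]
        exact Submodule.smul_mem _ _ (Submodule.subset_span (by simp))
      · exact Submodule.span_mono (by simp) (hcon u b hu hb)
    have h2 : finrank ℂ (Submodule.span ℂ {v, star v}) ≤ 2 :=
      (finrank_span_le_card _).trans (by
        rw [Set.toFinset_insert, Set.toFinset_singleton]
        exact Finset.card_le_two)
    have h3 : Submodule.span ℂ {v, star v} = ⊤ := by
      rw [eq_top_iff]
      intro u _
      exact h1 u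
    rw [h3, finrank_top, finrank_fin_fun] at h2
    omega
  have h1 := hφ _ (wd_mem' hJ u v)
  rw [hp.comm_wd hJ hu hv] at h1
  have h2 := (Submodule.smul_mem_iff 𝔞 (Int.cast_ne_zero.2 (by omega))).1 h1
  exact so_simple hJ hdet hn hst huv hv0 h2 x y

end Pool.Agent.Helper880_ZP
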