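import Pool.Agent.Helper880_ZP.Dim

/-!
# The transfer theorem
-/

set_option autoImplicit false
set_option linter.unusedSectionVars false
set_option linter.unusedVariables false
set_option maxHeartbeats 400000

open Matrix Module Filter PowerSeries

namespace Pool.Agent.Helper880_ZP

open Pool.Agent.Helper880_R3
open Pool.Agent.Y113 (ev Cv GSys ps)
open Pool.Agent.Y120.GH (QU0)
open Pool.Agent.Y118.HV (Hv hh)
open Pool.Agent.Helper880_LF.NB hiding alg_core nrm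
open Pool.Agent.Y118.UL (mk mk_eq mk_eq_zero mk_ne_zero mk_surj ev_ge eval_mk rep qc qc_mk algebraMap_eq U)
open Pool.Agent.Y119.HY (cm cm_pow cm_apply)
open Pool.Agent.Y119.HY renaming E → Ex, E_add → Ex_add, E_zero → Ex_zero, E_mul_neg → Ex_mul_neg, E_exp → Ex_exp

variable {n N r₀ : ℕ}

/-- **the transfer theorem** -/
theorem transfer (hn : 0 < n) {Z : Matrix (Fin n) (Fin n) ℚ⟦X⟧} {T : Polynomial ℤ} {A : Fin (n * n) → Fin (n * n) → Polynomial ℤ}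
    (hT : T ≠ 0) (hode : ∀ i, ps T * d⁄dX ℚ (hh Z i) = ∑ j, ps (A i j) * hh Z j)
    {q' : ℕ} {C' : ℝ} (hG' : GSys q' C' T (hh Z)) (hqu : QU0 T A)
    {𝔤 : Submodule ℂ (Matrix (Fin n) (Fin n) ℂ)}
    (hI : ∀ X ∈ 𝔤, Inf Z X) {M : Matrix (Fin n) (Fin n) ℚ} (hM : M ^ n = 0) (hM𝔤 : ∀ Y ∈ 𝔤, cm M * Y - Y * cm M ∈ 𝔤) :
    ∃ G0 : ℕ, ∀ G : ℕ, G0 ≤ G → ∀ (N r₀ s r : ℕ) (C₀ : Matrix (Fin r₀) (Fin r₀) ℂ) (C : Matrix (Fin n) (Fin n) ℂ), Few s C₀ C →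
      s + (if M = 0 then 0 else 1) ≤ r →
      ∀ Rl : Matrix (Ix r₀ n N) (Ix r₀ n N) ℂ → Submodule ℂ (Matrix (Ix r₀ n N) (Ix r₀ n N) ℂ) → Prop, Compat Rl →
      ∃ E : ℕ, ∀ H t : ℕ, (H + 2) ^ E ≤ t → (∀ u ≤ H, G * u < t) ∧
      ∀ u : Fin N → ℕ, Function.Injective u → (∀ j, 1 ≤ u j ∧ u j ≤ H) →
      ∀ P : Matrix (Ix r₀ n N) (Ix r₀ n N) ℂ,
      P = fromBlocks C₀ 0 0 (blockDiagonal fun j => C * (Ex (cm M) (-((Real.log ((t - G * u j : ℕ) : ℝ) : ℝ) : ℂ)) *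
        Hv Z (t - G * u j))) → P.det ≠ 0 → ∀ R : Submodule ℂ (Matrix (Ix r₀ n N) (Ix r₀ n N) ℂ), Rl P R →
      finrank ℂ (Gc r₀ N C 𝔤) ≤ finrank ℂ (Gc r₀ N C 𝔤 ⊓ R : Submodule ℂ (Matrix (Ix r₀ n N) (Ix r₀ n N) ℂ)) + r := by
  classical
  have hMc : (cm M) ^ n = 0 := by
    rw [← cm_pow, hM]
    exact map_zero _
  obtain ⟨G0, hrel⟩ := rel_all hT hode hG' hqu
  refine ⟨G0, fun G hG N r₀ s r C₀ C hfew hs Rl hRl => ?_⟩
  obtain ⟨E0, hE0⟩ := hrel G hG N 0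
  by_contra hcon
  simp only [not_exists, not_forall] at hcon
  have h1 : ∀ k : ℕ, ∃ (t : ℕ) (u : Fin N → ℕ) (P : Matrix (Ix r₀ n N) (Ix r₀ n N) ℂ)
      (R : Submodule ℂ (Matrix (Ix r₀ n N) (Ix r₀ n N) ℂ)),
      (∃ H : ℕ, (H + 2) ^ (E0 + k) ≤ t ∧ Function.Injective u ∧ (∀ j, 1 ≤ u j ∧ u j ≤ H)) ∧
      P = fromBlocks C₀ 0 0 (blockDiagonal fun j => C * (Ex (cm M) (-((Real.log ((t - G * u j : ℕ) : ℝ) : ℝ) : ℂ)) *
        Hv Z (t - G * u j))) ∧ P.det ≠ 0 ∧ Rl P R ∧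
      ¬ finrank ℂ (Gc r₀ N C 𝔤) ≤ finrank ℂ (Gc r₀ N C 𝔤 ⊓ R : Submodule ℂ (Matrix (Ix r₀ n N) (Ix r₀ n N) ℂ)) + r := by
    intro k
    by_contra hk
    obtain ⟨H, t, ht, hbad⟩ := hcon (E0 + k)
    refine hbad ⟨(hE0 H t ((Nat.pow_le_pow_right (by omega) (by omega)).trans ht)).1, ?_⟩
    intro u hu hu1 P hP hPd R hR
    by_contra hcontra
    exact hk ⟨t, u, P, R, ⟨H, ht, hu, hu1⟩, hP, hPd, hR, hcontra⟩
  choose t u P R hH hP hPd hR hbad using h1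
  choose H hH1 hH2 hH3 using hH
  set z : ℕ → Fin N → Matrix (Fin n) (Fin n) ℂ := fun k j => Hv Z (t k - G * u k j) with hz
  set μ : ℕ → Fin N → ℂ := fun k j => ((Real.log (1 - ((G * u k j : ℕ) : ℝ) / t k) : ℝ) : ℂ) with hμ
  have hlt : ∀ k, ∀ v ≤ H k, G * v < t k := fun k =>
    (hE0 (H k) (t k) ((Nat.pow_le_pow_right (by omega) (by omega)).trans (hH1 k))).1
  -- the derivations
  have hder : ∀ i, ∀ A ∈ GU 𝔤, ∃ δ : Derivation (U ℚ) (U ℂ) (U ℂ),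
      dm δ (gm fun k => Ex (cm M) (-(μ k i)) * z k i) = A * (gm fun k => Ex (cm M) (-(μ k i)) * z k i) ∧
      ∀ j, j ≠ i → dm δ (gm fun k => Ex (cm M) (-(μ k j)) * z k j) = 0 := by
    intro i A hA
    refine hder_seq hM hM𝔤 (fun d => ?_) i hA
    obtain ⟨E, hE⟩ := hrel G hG N d
    filter_upwards [ev_ge E] with k hk Y hY P hPd hP s
    exact ((hE (H k) (t k) ((Nat.pow_le_pow_right (by omega) (by omega)).trans (hH1 k))).2 (u k) (hH2 k) (hH3 k)).2 Y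
      (fun j => hI _ (hY j)) P hPd hP s
  set L : ℕ → ℂ := fun k => ((Real.log (t k) : ℝ) : ℂ) with hLd
  have hlog : ∀ k j, ((Real.log ((t k - G * u k j : ℕ) : ℝ) : ℝ) : ℂ) = L k + μ k j := by
    intro k j
    have h1 := hlt k (u k j) (hH3 k j).2
    have h2 : (0 : ℝ) < t k := by exact_mod_cast (by omega : 0 < t k)
    have h3 : (((t k - G * u k j : ℕ) : ℕ) : ℝ) = t k * (1 - ((G * u k j : ℕ) : ℝ) / t k) := by
      rw [Nat.cast_sub h1.le]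
      field_simp
    have h4 : (1 : ℝ) - ((G * u k j : ℕ) : ℝ) / t k ≠ 0 := by
      have h5 : (((G * u k j : ℕ) : ℕ) : ℝ) < t k := by exact_mod_cast h1
      have h6 : (((G * u k j : ℕ) : ℕ) : ℝ) / t k < 1 := (div_lt_one h2).2 h5
      linarith
    rw [h3, Real.log_mul h2.ne' h4, Complex.ofReal_add]
  -- the period matrices
  have hper : ∀ k, P k = (Cb C₀ C * Zm (fun _ : Fin N => Ex (cm M) (-(L k)))) *
        Zm (fun j => Ex (cm M) (-(μ k j)) * z k j) := by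
    intro k
    rw [hP k, Matrix.mul_assoc, Zm_mul, Cb_Zm]
    congr 2
    funext j
    rw [hlog, neg_add, Ex_add hMc, Matrix.mul_assoc]
  have hdet : ∀ k, (Cb (N := N) C₀ C).det ≠ 0 ∧ (Zm (r₀ := r₀) (fun _ : Fin N => Ex (cm M) (-(L k)))).det ≠ 0 ∧
      (Zm (r₀ := r₀) (fun j => Ex (cm M) (-(μ k j)) * z k j)).det ≠ 0 := by
    intro k
    have h2 := hPd k
    rw [hper k, Matrix.det_mul, Matrix.det_mul] at h2
    exact ⟨left_ne_zero_of_mul (left_ne_zero_of_mul h2), right_ne_zero_of_mul (left_ne_zero_of_mul h2), right_ne_zero_of_mul h2⟩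
  have hz0 : ∀ k j, (Ex (cm M) (-(μ k j)) * z k j).det ≠ 0 := by
    intro k j
    have h1 := (hdet k).2.2
    rw [Zm_det, Finset.prod_ne_zero_iff] at h1
    exact h1 j (Finset.mem_univ j)
  have hC0 : ∀ k, IsUnit (Cb C₀ C * Zm (fun _ : Fin N => Ex (cm M) (-(L k)))).det := by
    intro k
    rw [Matrix.det_mul]
    exact isUnit_iff_ne_zero.2 (mul_ne_zero (hdet k).1 (hdet k).2.1)
  obtain ⟨𝒩, h𝒩1, h𝒩2, h𝒩3⟩ := cst_dim hfew hM hs (hdet 0).1 (fun k => -(L k))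
  have hPe : P = fun k => (Cb C₀ C * Zm (fun _ : Fin N => Ex (cm M) (-(L k)))) *
        Zm (fun j => Ex (cm M) (-(μ k j)) * z k j) := funext hper
  have hmain := dim_core hn hz0 hder hC0 𝒩 h𝒩1 h𝒩2 h𝒩3 (R := R) (fun k => hRl.1 _ _ (hR k)) (fun δ => by
    rw [← hPe]
    exact hRl.2 P R hPd hR δ)
  obtain ⟨k, hk⟩ := hmain.exists
  refine hbad k ?_
  have h2 := cj_dim (hC0 k) hk
  rw [Gc_conj hM hM𝔤] at h2
  exact h2

/-- **the transfer theorem for windows** -/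
theorem transfer_win (hn : 0 < n) {Z : Matrix (Fin n) (Fin n) ℚ⟦X⟧} {T : Polynomial ℤ} {A : Fin (n * n) → Fin (n * n) → Polynomial ℤ}
    (hT : T ≠ 0) (hode : ∀ i, ps T * d⁄dX ℚ (hh Z i) = ∑ j, ps (A i j) * hh Z j)
    {q' : ℕ} {C' : ℝ} (hG' : GSys q' C' T (hh Z)) (hqu : QU0 T A)
    {𝔤 : Submodule ℂ (Matrix (Fin n) (Fin n) ℂ)}
    (hI : ∀ X ∈ 𝔤, Inf Z X) {M : Matrix (Fin n) (Fin n) ℚ} (hM : M ^ n = 0) (hM𝔤 : ∀ Y ∈ 𝔤, cm M * Y - Y * cm M ∈ 𝔤) :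
    ∃ G : ℕ, 1 ≤ G ∧ ∀ (N r₀ s r : ℕ) (C₀ : Matrix (Fin r₀) (Fin r₀) ℂ) (C : Matrix (Fin n) (Fin n) ℂ), 0 < N → Few s C₀ C →
      s + (if M = 0 then 0 else 1) ≤ r →
      ∀ Rl : Matrix (Ix r₀ n N) (Ix r₀ n N) ℂ → Submodule ℂ (Matrix (Ix r₀ n N) (Ix r₀ n N) ℂ) → Prop, Compat Rl →
      ∃ E : ℕ, ∀ t : Fin N → ℕ, Function.Injective t → (∀ i j, t i ≡ t j [MOD G]) →
      (∀ i j, (t i - t j + 2) ^ E ≤ t j) →
      ∀ P : Matrix (Ix r₀ n N) (Ix r₀ n N) ℂ,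
      P = Tot C₀ (fun j => C * (NormedSpace.exp ((-((Real.log (t j : ℝ) : ℝ) : ℂ)) • cm M) * Hv Z (t j))) → P.det ≠ 0 →
      ∀ R : Submodule ℂ (Matrix (Ix r₀ n N) (Ix r₀ n N) ℂ), Rl P R →
      finrank ℂ (Gc r₀ N C 𝔤) ≤ finrank ℂ (Gc r₀ N C 𝔤 ⊓ R : Submodule ℂ (Matrix (Ix r₀ n N) (Ix r₀ n N) ℂ)) + r := by
  have hMc : (cm M) ^ n = 0 := by
    rw [← cm_pow, hM]
    exact map_zero _
  obtain ⟨G0, h⟩ := transfer hn hT hode hG' hqu hI hM hM𝔤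
  refine ⟨G0 + 1, by omega, fun N r₀ s r C₀ C hN hfew hs Rl hRl => ?_⟩
  obtain ⟨E, hE⟩ := h (G0 + 1) (by omega) N r₀ s r C₀ C hfew hs Rl hRl
  refine ⟨2 * E, fun t hinj hmod hw P hP hPd R hR => ?_⟩
  obtain ⟨H, w, u, h1, h2, h3, h4⟩ := windows (by omega) hN hinj hmod hw
  refine (hE H w h1).2 u h2 h3 P ?_ hPd R hR
  simp only [h4]
  simp only [Ex_exp hMc]
  exact hP

end Pool.Agent.Helper880_ZP
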