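import Pool.Agent.Helper880_ZP.Asm
import Pool.Agent.Helper880_ZP.Tra

/-!
# The theorem on special subvarieties through the points of a curve
-/

set_option autoImplicit false
set_option linter.unusedSectionVars false
set_option linter.unusedVariables false

open Matrix Module PowerSeries

namespace Pool.Agent.Helper880_ZP

open Pool.Agent.Helper880_LF (spS mem_spS)
open Pool.Agent.Helper880_R3 (Ix Tot Tot_mul Tot_one Tot_unit ib ib_apply ib_mul ib_inj wd lieB mem_lieB so_span Inf Few)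
open Pool.Agent.Y113 (ev Cv GSys ps)
open Pool.Agent.Y120.GH (QU0)
open Pool.Agent.Y118.HV (Hv hh)
open Pool.Agent.Y119.HY (cm cm_pow cm_apply)

variable {n N r₀ : ℕ}

/-- all proper subalgebras of `𝔪` have codimension larger than `r` -/
def NoS (r : ℕ) (𝔪 : Submodule ℂ (Matrix (Fin n) (Fin n) ℂ)) : Prop :=
  ∀ 𝔨 : Submodule ℂ (Matrix (Fin n) (Fin n) ℂ), 𝔨 ≤ 𝔪 → (∀ x ∈ 𝔨, ∀ y ∈ 𝔨, x * y - y * x ∈ 𝔨) →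
    finrank ℂ 𝔪 ≤ finrank ℂ 𝔨 + r → 𝔪 ≤ 𝔨

section concl
variable {φ₀ : Matrix (Fin r₀) (Fin r₀) ℂ} {φ : Fin N → Matrix (Fin n) (Fin n) ℂ}
  {𝔥 𝔊 : Submodule ℂ (Matrix (Ix r₀ n N) (Ix r₀ n N) ℂ)} {𝔪 : Submodule ℂ (Matrix (Fin n) (Fin n) ℂ)} {r : ℕ} {j : Fin N}

/-- **general case** -/
theorem concl_gen (h𝔥 : Lie' 𝔥) (hφ : Tot φ₀ φ ∈ 𝔥) (h𝔪 : ∀ x ∈ 𝔪, ∀ y ∈ 𝔪, x * y - y * x ∈ 𝔪) (hNS : NoS r 𝔪)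
    (hm : ∀ X ∈ 𝔪, ib j X ∈ 𝔊) (hst : ∀ X ∈ 𝔪, φ j * X - X * φ j ∈ 𝔪)
    (hgen : ∀ I : Submodule ℂ (Matrix (Fin n) (Fin n) ℂ), I ≤ 𝔪 → (∀ x ∈ 𝔪, ∀ y ∈ I, x * y - y * x ∈ I) →
      (∀ x ∈ 𝔪, φ j * x - x * φ j ∈ I) → 𝔪 ≤ I)
    (hcod : finrank ℂ 𝔊 ≤ finrank ℂ (𝔊 ⊓ nrm 𝔥 : Submodule ℂ (Matrix (Ix r₀ n N) (Ix r₀ n N) ℂ)) + r) :
    ∀ X ∈ 𝔪, ib j X ∈ 𝔥 := by
  have h1 : 𝔪 ≤ 𝔪 ⊓ (nrm 𝔥).comap (ib j) := by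
    refine hNS _ inf_le_left ?_ (cod_sub (ib j) (V' := 𝔪) hm hcod)
    intro x hx y hy
    refine ⟨h𝔪 _ hx.1 _ hy.1, ?_⟩
    show ib j (x * y - y * x) ∈ nrm 𝔥
    rw [ib_br]
    exact nrm_lie _ hx.2 _ hy.2
  have h2 : 𝔪 ≤ 𝔪 ⊓ 𝔥.comap (ib j) := by
    refine hgen _ inf_le_left ?_ ?_
    · intro x hx y hy
      refine ⟨h𝔪 _ hx _ hy.1, ?_⟩
      show ib j (x * y - y * x) ∈ 𝔥
      rw [ib_br]
      exact (h1 hx).2 _ hy.2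
    · intro x hx
      refine ⟨hst x hx, ?_⟩
      show ib j (φ j * x - x * φ j) ∈ 𝔥
      rw [← ad_ib (φ₀ := φ₀)]
      have h3 := 𝔥.neg_mem ((h1 hx).2 _ hφ)
      rwa [neg_sub] at h3
  exact fun X hX => (h2 hX).2

end concl

/-- `C 𝔤 C⁻¹` -/
def cgS (C : Matrix (Fin n) (Fin n) ℂ) (𝔤 : Submodule ℂ (Matrix (Fin n) (Fin n) ℂ)) :
    Submodule ℂ (Matrix (Fin n) (Fin n) ℂ) where
  carrier := {Y | ∃ X ∈ 𝔤, Y = C * X * C⁻¹}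
  zero_mem' := ⟨0, 𝔤.zero_mem, by rw [Matrix.mul_zero, Matrix.zero_mul]⟩
  add_mem' := by
    rintro _ _ ⟨X, hX, rfl⟩ ⟨Y, hY, rfl⟩
    exact ⟨X + Y, 𝔤.add_mem hX hY, by rw [Matrix.mul_add, Matrix.add_mul]⟩
  smul_mem' := by
    rintro c _ ⟨X, hX, rfl⟩
    exact ⟨c • X, 𝔤.smul_mem c hX, by rw [Matrix.mul_smul, Matrix.smul_mul]⟩

/-- the block matrices `0 ⊕ X_1 ⊕ … ⊕ X_N` with `X_j ∈ 𝔪` -/
def blS (r₀ N : ℕ) (𝔪 : Submodule ℂ (Matrix (Fin n) (Fin n) ℂ)) : Submodule ℂ (Matrix (Ix r₀ n N) (Ix r₀ n N) ℂ) where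
  carrier := {Y | ∃ X : Fin N → Matrix (Fin n) (Fin n) ℂ, (∀ j, X j ∈ 𝔪) ∧ Y = Tot 0 X}
  zero_mem' := ⟨0, fun _ => 𝔪.zero_mem, by
    unfold Tot
    rw [blockDiagonal_zero, fromBlocks_zero]⟩
  add_mem' := by
    rintro _ _ ⟨X, hX, rfl⟩ ⟨Y, hY, rfl⟩
    refine ⟨X + Y, fun j => 𝔪.add_mem (hX j) (hY j), ?_⟩
    unfold Tot
    rw [fromBlocks_add, ← blockDiagonal_add]
    simp only [add_zero]
  smul_mem' := by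
    rintro c _ ⟨X, hX, rfl⟩
    refine ⟨c • X, fun j => 𝔪.smul_mem c (hX j), ?_⟩
    unfold Tot
    rw [fromBlocks_smul, ← blockDiagonal_smul]
    simp only [smul_zero]

theorem blS_Gc (C : Matrix (Fin n) (Fin n) ℂ) (𝔤 : Submodule ℂ (Matrix (Fin n) (Fin n) ℂ)) :
    blS r₀ N (cgS C 𝔤) = Gc r₀ N C 𝔤 := by
  ext Y
  constructor
  · rintro ⟨X, hX, rfl⟩
    choose Z hZ1 hZ2 using hX
    refine ⟨Z, hZ1, ?_⟩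
    unfold Tot
    congr 2
    funext j
    exact hZ2 j
  · rintro ⟨X, hX, rfl⟩
    exact ⟨fun j => C * X j * C⁻¹, fun j => ⟨X j, hX j, rfl⟩, rfl⟩

theorem ib_blS {𝔪 : Submodule ℂ (Matrix (Fin n) (Fin n) ℂ)} {j : Fin N} {X : Matrix (Fin n) (Fin n) ℂ} (hX : X ∈ 𝔪) :
    ib j X ∈ blS r₀ N 𝔪 := by
  refine ⟨Pi.single j X, fun i => ?_, rfl⟩
  by_cases h : i = j
  · subst h
    rw [Pi.single_eq_same]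
    exact hX
  · rw [Pi.single_eq_of_ne h]
    exact 𝔪.zero_mem

/-- the stabiliser of the filtration -/
def Stb {B : Type} [Fintype B] [DecidableEq B] (lev : B → ℤ) (P : Matrix B B ℂ) : Submodule ℂ (Matrix B B ℂ) where
  carrier := {X | ∀ p, ∀ v ∈ hF lev P p, X *ᵥ v ∈ hF lev P p}
  zero_mem' := by
    intro p v _
    rw [zero_mulVec]
    exact Submodule.zero_mem _
  add_mem' := by
    intro X Y hX hY p v hv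
    rw [add_mulVec]
    exact Submodule.add_mem _ (hX p v hv) (hY p v hv)
  smul_mem' := by
    intro c X hX p v hv
    rw [smul_mulVec]
    exact Submodule.smul_mem _ _ (hX p v hv)

/-- the two codimensions -/
theorem two (hn : 0 < n) {Z : Matrix (Fin n) (Fin n) ℚ⟦X⟧} {T : Polynomial ℤ} {A : Fin (n * n) → Fin (n * n) → Polynomial ℤ}
    (hT : T ≠ 0) (hode : ∀ i, ps T * d⁄dX ℚ (hh Z i) = ∑ j, ps (A i j) * hh Z j)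
    {q' : ℕ} {C' : ℝ} (hG' : GSys q' C' T (hh Z)) (hqu : QU0 T A)
    {𝔤 : Submodule ℂ (Matrix (Fin n) (Fin n) ℂ)}
    (hI : ∀ X ∈ 𝔤, Inf Z X) {M : Matrix (Fin n) (Fin n) ℚ} (hM : M ^ n = 0) (hM𝔤 : ∀ Y ∈ 𝔤, cm M * Y - Y * cm M ∈ 𝔤) :
    ∃ G : ℕ, 1 ≤ G ∧ ∀ (N D r₀ s r : ℕ) (C₀ : Matrix (Fin r₀) (Fin r₀) ℂ) (C : Matrix (Fin n) (Fin n) ℂ)
      (lev₀ : Fin r₀ → ℤ) (lev : Fin n → ℤ), 0 < N → Few s C₀ C →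
      s + (if M = 0 then 0 else 1) ≤ r → ∃ E : ℕ, ∀ t : Fin N → ℕ, Function.Injective t → (∀ i j, t i ≡ t j [MOD G]) →
      (∀ i j, (t i - t j + 2) ^ E ≤ t j) →
      ∀ P : Fin N → Matrix (Fin n) (Fin n) ℂ,
      P = (fun j => C * (NormedSpace.exp ((-((Real.log (t j : ℝ) : ℝ) : ℂ)) • cm M) * Hv Z (t j))) → IsUnit (Tot C₀ P) →
      ∀ (𝔥 : Submodule ℂ (Matrix (Ix r₀ n N) (Ix r₀ n N) ℂ)), DefOver K₀ 𝔥 →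
      ((∃ K : Subfield ℂ, FiniteDimensional ℚ K ∧ finrank ℚ K ≤ D ∧ DefOver K (dR (Tot C₀ P) 𝔥)) →
        finrank ℂ (blS r₀ N (cgS C 𝔤)) ≤
          finrank ℂ (blS r₀ N (cgS C 𝔤) ⊓ nrm 𝔥 : Submodule ℂ (Matrix (Ix r₀ n N) (Ix r₀ n N) ℂ)) + r) ∧
      (Lie' 𝔥 → (∃ φ ∈ 𝔥, ∃ V ∈ upS ℂ (Lv N lev₀ lev), φ * (Tot C₀ P * (1 + V)) = Tot C₀ P * (1 + V) * Dg ℂ (Lv N lev₀ lev)) →
        finrank ℂ (blS r₀ N (cgS C 𝔤)) ≤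
          finrank ℂ (blS r₀ N (cgS C 𝔤) ⊓ (𝔥 ⊔ cjS (Tot C₀ P) (ppS ℂ (Lv N lev₀ lev))) :
            Submodule ℂ (Matrix (Ix r₀ n N) (Ix r₀ n N) ℂ)) + r) := by
  obtain ⟨G, hG1, h⟩ := transfer_win hn hT hode hG' hqu hI hM hM𝔤
  refine ⟨G, hG1, fun N D r₀ s r C₀ C lev₀ lev hN hfew hs => ?_⟩
  obtain ⟨E₁, h1⟩ := h N r₀ s r C₀ C hN hfew hs (RelN D) (compat_N D)
  obtain ⟨E₂, h2⟩ := h N r₀ s r C₀ C hN hfew hs (RelA (Lv N lev₀ lev)) (compat_A _)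
  refine ⟨E₁ + E₂, fun t ht1 ht2 ht3 P hP hPu 𝔥 h𝔥 => ?_⟩
  have hPd : (Tot C₀ P).det ≠ 0 := ((Matrix.isUnit_iff_isUnit_det _).1 hPu).ne_zero
  have hw : ∀ E, E ≤ E₁ + E₂ → ∀ i j, (t i - t j + 2) ^ E ≤ t j := fun E hE i j =>
    (Nat.pow_le_pow_right (by omega) hE).trans (ht3 i j)
  rw [blS_Gc]
  subst hP
  refine ⟨fun hK => ?_, fun hL hφ => ?_⟩
  · exact h1 t ht1 ht2 (hw _ (Nat.le_add_right _ _)) _ rfl hPd _ ⟨𝔥, h𝔥, hK, rfl⟩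
  · exact h2 t ht1 ht2 (hw _ (Nat.le_add_left _ _)) _ rfl hPd _
      ⟨(Matrix.isUnit_iff_isUnit_det _).1 hPu, 𝔥, h𝔥, hL, hφ, rfl⟩

/-- half of the codimension -/
theorem half {φ₀ : Matrix (Fin r₀) (Fin r₀) ℂ} {φ : Fin N → Matrix (Fin n) (Fin n) ℂ}
    {𝔥 : Submodule ℂ (Matrix (Ix r₀ n N) (Ix r₀ n N) ℂ)} {𝔪 : Submodule ℂ (Matrix (Fin n) (Fin n) ℂ)} {r : ℕ}
    {Lev : Ix r₀ n N → ℤ} {Q : Matrix (Ix r₀ n N) (Ix r₀ n N) ℂ} (hE : Eig Lev Q (Tot φ₀ φ)) (h𝔥 : Lie' 𝔥)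
    (hφ : Tot φ₀ φ ∈ 𝔥) (hbar : ∀ X ∈ 𝔥, mbar X ∈ 𝔥) (hm : ∀ X ∈ 𝔪, mbar X ∈ 𝔪)
    (hst : ∀ j, ∀ X ∈ 𝔪, φ j * X - X * φ j ∈ 𝔪) (hw : ∀ j, ∃ w : ℤ, mbar (φ j) = (w : ℂ) • 1 - φ j)
    (hcod : finrank ℂ (blS r₀ N 𝔪) ≤ finrank ℂ (blS r₀ N 𝔪 ⊓ nrm 𝔥 : Submodule ℂ (Matrix (Ix r₀ n N) (Ix r₀ n N) ℂ)) + r) :
    2 * finrank ℂ (blS r₀ N 𝔪) ≤
      2 * finrank ℂ (blS r₀ N 𝔪 ⊓ (𝔥 ⊔ cjS Q (ppS ℂ Lev)) : Submodule ℂ (Matrix (Ix r₀ n N) (Ix r₀ n N) ℂ)) + r := by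
  have key : ∀ (ψ₀ : Matrix (Fin r₀) (Fin r₀) ℂ) (ψ X : Fin N → Matrix (Fin n) (Fin n) ℂ),
      Tot ψ₀ ψ * Tot 0 X - Tot 0 X * Tot ψ₀ ψ = Tot 0 fun j => ψ j * X j - X j * ψ j := by
    intro ψ₀ ψ X
    rw [Tot_mul, Tot_mul]
    unfold Tot
    rw [sub_eq_add_neg, fromBlocks_neg, fromBlocks_add, Matrix.mul_zero, Matrix.zero_mul]
    simp only [neg_zero, add_zero]
    congr 1
    rw [← sub_eq_add_neg, ← blockDiagonal_sub]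
    rfl
  refine two_cod hE h𝔥 hφ hbar ?_ ?_ ?_ hcod
  · rintro _ ⟨X, hX, rfl⟩
    exact ⟨fun j => φ j * X j - X j * φ j, fun j => hst j _ (hX j), key _ _ _⟩
  · rintro _ ⟨X, hX, rfl⟩
    refine ⟨fun j => mbar (X j), fun j => hm _ (hX j), ?_⟩
    rw [mbar_Tot, mbar_zero]
  · rintro _ ⟨X, hX, rfl⟩
    rw [mbar_Tot, key, key]
    have h1 : -Tot (0 : Matrix (Fin r₀) (Fin r₀) ℂ) (fun j => φ j * X j - X j * φ j) =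
        Tot 0 fun j => -(φ j * X j - X j * φ j) := by
      unfold Tot
      rw [fromBlocks_neg, ← blockDiagonal_neg]
      simp only [neg_zero]
      rfl
    rw [h1]
    congr 1
    funext j
    obtain ⟨w, hw⟩ := hw j
    rw [hw, Matrix.sub_mul, Matrix.mul_sub, Matrix.smul_mul, Matrix.mul_smul, Matrix.one_mul, Matrix.mul_one]
    abel

end Pool.Agent.Helper880_ZP
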