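import Pool.Agent.Helper880_ZP.Sym
import Pool.Agent.Helper880_R3.Out

/-!
# Special subvarieties through the points of a curve: linear algebra
-/

set_option autoImplicit false
set_option linter.unusedSectionVars false
set_option linter.unusedVariables false

open Matrix Module

namespace Pool.Agent.Helper880_ZP

open Pool.Agent.Helper880_LF (spS mem_spS)
open Pool.Agent.Helper880_R3 (Ix Tot Tot_mul Tot_one Tot_unit ib ib_apply ib_mul ib_inj wd lieB mem_lieB so_span)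

variable {n N r₀ : ℕ}

/-- the levels of the adapted basis -/
def Lv (N : ℕ) (lev₀ : Fin r₀ → ℤ) (lev : Fin n → ℤ) : Ix r₀ n N → ℤ := Sum.elim lev₀ fun p => lev p.1

variable {lev₀ : Fin r₀ → ℤ} {lev : Fin n → ℤ}

theorem Tot_up {V₀ : Matrix (Fin r₀) (Fin r₀) ℂ} {V : Fin N → Matrix (Fin n) (Fin n) ℂ} (h0 : V₀ ∈ upS ℂ lev₀)
    (h : ∀ j, V j ∈ upS ℂ lev) : Tot V₀ V ∈ upS ℂ (Lv N lev₀ lev) := by
  rintro (a | ⟨a, i⟩) (b | ⟨b, j⟩) hab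
  · exact h0 a b hab
  · rfl
  · rfl
  · show blockDiagonal V (a, i) (b, j) = 0
    rw [blockDiagonal_apply]
    split_ifs with hij
    · exact h i a b hab
    · rfl

theorem Tot_Dg : Tot (Dg ℂ lev₀) (fun _ : Fin N => Dg ℂ lev) = Dg ℂ (Lv N lev₀ lev) := by
  ext (a | ⟨a, i⟩) (b | ⟨b, j⟩)
  · show Dg ℂ lev₀ a b = _
    unfold Dg
    by_cases h : a = b
    · subst h
      rw [Matrix.diagonal_apply_eq, Matrix.diagonal_apply_eq]
      rfl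
    · rw [Matrix.diagonal_apply_ne _ h, Matrix.diagonal_apply_ne _ (by simpa using h)]
  · show (0 : ℂ) = _
    unfold Dg
    rw [Matrix.diagonal_apply_ne _ (by simp)]
  · show (0 : ℂ) = _
    unfold Dg
    rw [Matrix.diagonal_apply_ne _ (by simp)]
  · show blockDiagonal (fun _ : Fin N => Dg ℂ lev) (a, i) (b, j) = _
    rw [blockDiagonal_apply]
    unfold Dg
    by_cases hij : i = j
    · subst hij
      rw [if_pos rfl]
      by_cases h : a = b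
      · subst h
        rw [Matrix.diagonal_apply_eq, Matrix.diagonal_apply_eq]
        rfl
      · rw [Matrix.diagonal_apply_ne _ h, Matrix.diagonal_apply_ne _ (by simpa using h)]
    · rw [if_neg hij, Matrix.diagonal_apply_ne _ (by simp [hij])]

theorem one_add_Tot (V₀ : Matrix (Fin r₀) (Fin r₀) ℂ) (V : Fin N → Matrix (Fin n) (Fin n) ℂ) :
    1 + Tot V₀ V = Tot (1 + V₀) fun j => 1 + V j := by
  rw [← Tot_one]
  unfold Tot
  rw [fromBlocks_add, ← blockDiagonal_add]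
  simp only [add_zero]
  rfl

variable {C₀ φ₀ : Matrix (Fin r₀) (Fin r₀) ℂ} {P φ : Fin N → Matrix (Fin n) (Fin n) ℂ}

/-- block matrices -/
theorem blk (hP : IsUnit (Tot C₀ P)) (h0 : SplF lev₀ C₀ φ₀) (h : ∀ j, SplF lev (P j) (φ j)) :
    (∃ V ∈ upS ℂ (Lv N lev₀ lev), Tot φ₀ φ * (Tot C₀ P * (1 + V)) = Tot C₀ P * (1 + V) * Dg ℂ (Lv N lev₀ lev)) ∧
      ∀ j, ∃ R, Eig lev R (φ j) := by
  obtain ⟨V₀, hV₀, e0⟩ := spl_mat h0
  choose V hV e using fun j => spl_mat (h j)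
  refine ⟨⟨Tot V₀ V, Tot_up hV₀ hV, ?_⟩, fun j => ?_⟩
  · rw [one_add_Tot, ← Tot_Dg, Tot_mul, Tot_mul, Tot_mul, e0]
    congr 1
    funext j
    exact e j
  · exact ⟨_, (Eig.mk' ((Matrix.isUnit_iff_isUnit_det _).1 ((Tot_unit hP).2 j)) (hV j) (e j)).1⟩

theorem ad_ib (j : Fin N) (X : Matrix (Fin n) (Fin n) ℂ) :
    Tot φ₀ φ * ib j X - ib j X * Tot φ₀ φ = ib j (φ j * X - X * φ j) := by
  rw [map_sub, ib_apply, ib_apply, ib_apply]
  unfold Tot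
  rw [fromBlocks_multiply, fromBlocks_multiply, ← blockDiagonal_mul, ← blockDiagonal_mul]
  simp only [Matrix.zero_mul, Matrix.mul_zero, add_zero, zero_add]
  congr 3
  · funext i
    by_cases h : i = j
    · subst h
      rw [Pi.single_eq_same, Pi.single_eq_same]
    · rw [Pi.single_eq_of_ne h, Pi.single_eq_of_ne h, Matrix.mul_zero]
  · funext i
    by_cases h : i = j
    · subst h
      rw [Pi.single_eq_same, Pi.single_eq_same]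
    · rw [Pi.single_eq_of_ne h, Pi.single_eq_of_ne h, Matrix.zero_mul]

theorem mbar_Tot (x : Matrix (Fin r₀) (Fin r₀) ℂ) (X : Fin N → Matrix (Fin n) (Fin n) ℂ) :
    mbar (Tot x X) = Tot (mbar x) fun j => mbar (X j) := by
  ext (a | ⟨a, i⟩) (b | ⟨b, j⟩)
  · rfl
  · exact star_zero _
  · exact star_zero _
  · show star (blockDiagonal X (a, i) (b, j)) = blockDiagonal (fun j => mbar (X j)) (a, i) (b, j)
    rw [blockDiagonal_apply, blockDiagonal_apply]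
    split_ifs
    · rfl
    · exact star_zero _

theorem mbar_zero {B : Type} : mbar (0 : Matrix B B ℂ) = 0 := by
  ext i j
  exact star_zero _

theorem mbar_ib (j : Fin N) (X : Matrix (Fin n) (Fin n) ℂ) : mbar (ib (r₀ := r₀) j X) = ib j (mbar X) := by
  have h1 := mbar_Tot (r₀ := r₀) 0 (Pi.single j X)
  rw [mbar_zero] at h1
  have h2 : (fun i => mbar ((Pi.single j X : Fin N → Matrix (Fin n) (Fin n) ℂ) i)) = Pi.single j (mbar X) := by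
    funext i
    by_cases h : i = j
    · subst h
      rw [Pi.single_eq_same, Pi.single_eq_same]
    · rw [Pi.single_eq_of_ne h, Pi.single_eq_of_ne h, mbar_zero]
  rw [h2] at h1
  exact h1

theorem rat_bar {B : Type} [Fintype B] [DecidableEq B] {𝔥 : Submodule ℂ (Matrix B B ℂ)} (h : DefOver K₀ 𝔥) :
    ∀ X ∈ 𝔥, mbar X ∈ 𝔥 := by
  intro X hX
  rw [h] at hX
  induction hX using Submodule.span_induction with
  | mem X hX =>
    have h1 : mbar X = X := by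
      ext i j
      obtain ⟨q, hq⟩ := mem_K₀.1 (hX.2 i j)
      show star (X i j) = X i j
      rw [hq]
      exact map_ratCast (starRingEnd ℂ) q
    rw [h1]
    exact hX.1
  | zero => rw [mbar_zero]; exact 𝔥.zero_mem
  | add X Y _ _ hX hY => rw [mbar_add]; exact 𝔥.add_mem hX hY
  | smul c X _ hX => rw [mbar_smul]; exact 𝔥.smul_mem _ hX

theorem sp_lie' {J X Y : Matrix (Fin n) (Fin n) ℂ} (hX : X ∈ spS J) (hY : Y ∈ spS J) : X * Y - Y * X ∈ spS J := by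
  rw [mem_spS] at hX hY ⊢
  have h1 : J * X = -(Xᵀ * J) := by
    rw [eq_neg_iff_add_eq_zero, add_comm]
    exact hX
  have h2 : J * Y = -(Yᵀ * J) := by
    rw [eq_neg_iff_add_eq_zero, add_comm]
    exact hY
  rw [transpose_sub, transpose_mul, transpose_mul, Matrix.sub_mul, Matrix.mul_sub, ← Matrix.mul_assoc J, ← Matrix.mul_assoc J,
    h1, h2, Matrix.neg_mul, Matrix.neg_mul, Matrix.mul_assoc Xᵀ J, Matrix.mul_assoc Yᵀ J, h1, h2, Matrix.mul_neg,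
    Matrix.mul_neg, neg_neg, neg_neg, ← Matrix.mul_assoc, ← Matrix.mul_assoc]
  abel

section concl
variable {𝔥 𝔊 : Submodule ℂ (Matrix (Ix r₀ n N) (Ix r₀ n N) ℂ)} {r : ℕ} {w : ℤ} {J : Matrix (Fin n) (Fin n) ℂ} {j : Fin N}
  {R : Matrix (Fin n) (Fin n) ℂ} {Q : Matrix (Ix r₀ n N) (Ix r₀ n N) ℂ} {Lev : Ix r₀ n N → ℤ}

theorem ib_br (x y : Matrix (Fin n) (Fin n) ℂ) : ib (r₀ := r₀) j (x * y - y * x) = ib j x * ib j y - ib j y * ib j x := by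
  rw [map_sub, ib_mul, ib_mul]

theorem Pol.ad_mem (hp : Pol w J (φ j)) {y : Matrix (Fin n) (Fin n) ℂ} (hy : y ∈ spS J) : φ j * y - y * φ j ∈ spS J := by
  rw [← Ph_comm (w := w)]
  exact sp_lie' hp.Ph_mem hy

/-- **symplectic case, first theorem** -/
theorem concl_sp1 (hE : Eig Lev Q (Tot φ₀ φ)) (h𝔥 : Lie' 𝔥) (hφ : Tot φ₀ φ ∈ 𝔥) (hbar : ∀ X ∈ 𝔥, mbar X ∈ 𝔥)
    (hp : Pol w J (φ j)) (he : Eig lev R (φ j)) (hJ : Jᵀ = -J) (hdet : IsUnit J.det) (hm : ∀ X ∈ spS J, ib j X ∈ 𝔊)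
    (hcod : finrank ℂ 𝔊 ≤ finrank ℂ (𝔊 ⊓ (𝔥 ⊔ cjS Q (ppS ℂ Lev)) : Submodule ℂ (Matrix (Ix r₀ n N) (Ix r₀ n N) ℂ)) + r)
    (hr : 2 * r + 4 ≤ n) : ∀ X ∈ spS J, ib j X ∈ 𝔥 := by
  set 𝔫 : Submodule ℂ (Matrix (Fin n) (Fin n) ℂ) := spS J ⊓ 𝔥.comap (ib j) with h𝔫
  have h1 : sq J (Lm w (φ j)) ≤ spS J := by
    refine (hp.sq_neg hJ).trans ?_
    rw [Submodule.span_le]
    exact fun X hX => hX.1
  have h2 : spS J ≤ 𝔫 := by
    refine hp.full2 he hJ hdet inf_le_left ?_ ?_ ?_ ?_ hr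
    · intro x hx y hy
      refine ⟨sp_lie' hx.1 hy.1, ?_⟩
      show ib j (x * y - y * x) ∈ 𝔥
      rw [ib_br]
      exact h𝔥 _ hx.2 _ hy.2
    · intro y hy
      refine ⟨spS_bar hp.real hy.1, ?_⟩
      show ib j (mbar y) ∈ 𝔥
      rw [← mbar_ib]
      exact hbar _ hy.2
    · intro y hy
      refine ⟨hp.ad_mem hy.1, ?_⟩
      show ib j (φ j * y - y * φ j) ∈ 𝔥
      rw [← ad_ib (φ₀ := φ₀)]
      exact h𝔥 _ hφ _ hy.2
    · refine (cod_sub (ib j) (V' := sq J (Lm w (φ j))) (fun X hX => hm X (h1 hX)) hcod).trans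
        (Nat.add_le_add_right (Submodule.finrank_mono ?_) r)
      rintro X ⟨hX1, hX2⟩
      refine ⟨hX1, h1 hX1, ?_⟩
      refine neg_part hE (fun Y hY => h𝔥 _ hφ _ hY) ?_ hX2
      have h3 := hp.sq_neg hJ hX1
      clear hX1 hX2
      induction h3 using Submodule.span_induction with
      | mem X hX =>
        obtain ⟨-, c, hc, hX⟩ := hX
        refine Submodule.subset_span ⟨c, hc, ?_⟩
        rw [ad_ib, hX, map_smul]
      | zero => rw [map_zero]; exact Submodule.zero_mem _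
      | add X Y _ _ hX hY => rw [map_add]; exact Submodule.add_mem _ hX hY
      | smul c X _ hX => rw [map_smul]; exact Submodule.smul_mem _ _ hX
  exact fun X hX => (h2 hX).2

theorem nrm_data (h𝔥 : Lie' 𝔥) (hφ : Tot φ₀ φ ∈ 𝔥) (hbar : ∀ X ∈ 𝔥, mbar X ∈ 𝔥) (hp : Pol w J (φ j)) :
    (∀ x ∈ spS J ⊓ (nrm 𝔥).comap (ib j), ∀ y ∈ spS J ⊓ (nrm 𝔥).comap (ib j),
      x * y - y * x ∈ spS J ⊓ (nrm 𝔥).comap (ib j)) ∧
    (∀ y ∈ spS J ⊓ (nrm 𝔥).comap (ib j), mbar y ∈ spS J ⊓ (nrm 𝔥).comap (ib j)) ∧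
    ∀ y ∈ spS J ⊓ (nrm 𝔥).comap (ib j), φ j * y - y * φ j ∈ spS J ⊓ (nrm 𝔥).comap (ib j) := by
  refine ⟨?_, ?_, ?_⟩
  · intro x hx y hy
    refine ⟨sp_lie' hx.1 hy.1, ?_⟩
    show ib j (x * y - y * x) ∈ nrm 𝔥
    rw [ib_br]
    exact nrm_lie _ hx.2 _ hy.2
  · intro y hy
    refine ⟨spS_bar hp.real hy.1, ?_⟩
    show ib j (mbar y) ∈ nrm 𝔥
    rw [← mbar_ib]
    exact nrm_bar' hbar hy.2
  · intro y hy
    refine ⟨hp.ad_mem hy.1, ?_⟩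
    show ib j (φ j * y - y * φ j) ∈ nrm 𝔥
    rw [← ad_ib (φ₀ := φ₀)]
    exact nrm_lie _ (fun Y hY => h𝔥 _ hφ _ hY) _ hy.2

theorem ideal_data (hφ : Tot φ₀ φ ∈ 𝔥) (h : spS J ≤ spS J ⊓ (nrm 𝔥).comap (ib j)) :
    (∀ x ∈ spS J, ∀ y ∈ 𝔥.comap (ib j), x * y - y * x ∈ 𝔥.comap (ib j)) ∧
    ∀ x ∈ spS J, φ j * x - x * φ j ∈ 𝔥.comap (ib j) := by
  refine ⟨?_, ?_⟩
  · intro x hx y hy
    show ib j (x * y - y * x) ∈ 𝔥
    rw [ib_br]
    exact (h hx).2 _ hy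
  · intro x hx
    show ib j (φ j * x - x * φ j) ∈ 𝔥
    rw [← ad_ib (φ₀ := φ₀)]
    have h1 := 𝔥.neg_mem ((h hx).2 _ hφ)
    rwa [neg_sub] at h1

/-- **symplectic case, second theorem** -/
theorem concl_sp2 (h𝔥 : Lie' 𝔥) (hφ : Tot φ₀ φ ∈ 𝔥) (hbar : ∀ X ∈ 𝔥, mbar X ∈ 𝔥)
    (hp : Pol w J (φ j)) (he : Eig lev R (φ j)) (hJ : Jᵀ = -J) (hdet : IsUnit J.det) (hm : ∀ X ∈ spS J, ib j X ∈ 𝔊)
    (hcod : finrank ℂ 𝔊 ≤ finrank ℂ (𝔊 ⊓ nrm 𝔥 : Submodule ℂ (Matrix (Ix r₀ n N) (Ix r₀ n N) ℂ)) + r)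
    (hr : r + 1 ≤ n) : ∀ X ∈ spS J, ib j X ∈ 𝔥 := by
  obtain ⟨h1, h2, h3⟩ := nrm_data h𝔥 hφ hbar hp
  have h4 : spS J ≤ spS J ⊓ (nrm 𝔥).comap (ib j) :=
    hp.full1 he hJ hdet inf_le_left h1 h2 h3 (cod_sub (ib j) (V' := spS J) hm hcod) (by omega)
  obtain ⟨h5, h6⟩ := ideal_data hφ h4
  exact fun X hX => hp.ideal he (by omega) hJ hdet h5 h6 hX

theorem spS_lieB {J : Matrix (Fin n) (Fin n) ℂ} (hdet : IsUnit J.det) {X : Matrix (Fin n) (Fin n) ℂ} (hX : X ∈ spS J) :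
    X ∈ lieB J⁻¹ := by
  rw [mem_spS] at hX
  have h1 : X * J⁻¹ + J⁻¹ * Xᵀ = 0 := by
    have h2 : J⁻¹ * (Xᵀ * J + J * X) * J⁻¹ = X * J⁻¹ + J⁻¹ * Xᵀ := by
      rw [Matrix.mul_add, Matrix.add_mul, ← Matrix.mul_assoc J⁻¹ J X, nonsing_inv_mul _ hdet, Matrix.one_mul,
        ← Matrix.mul_assoc J⁻¹ Xᵀ J, Matrix.mul_assoc (J⁻¹ * Xᵀ) J, mul_nonsing_inv _ hdet, Matrix.mul_one, add_comm]
    rw [← h2, hX, Matrix.mul_zero, Matrix.zero_mul]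
  refine ⟨?_, h1⟩
  have h2 : X.trace = -X.trace := by
    have h3 : X = -(J⁻¹ * Xᵀ * J) := by
      rw [← neg_mul, ← eq_neg_iff_add_eq_zero.2 h1, Matrix.mul_assoc, nonsing_inv_mul _ hdet, Matrix.mul_one]
    conv_lhs => rw [h3]
    rw [trace_neg, Matrix.mul_assoc, trace_mul_comm, Matrix.mul_assoc, mul_nonsing_inv _ hdet, Matrix.mul_one, trace_transpose]
  have h3 : (2 : ℂ) * X.trace = 0 := by linear_combination h2
  exact (mul_eq_zero.1 h3).resolve_left two_ne_zero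

/-- **orthogonal case** -/
theorem concl_so (h𝔥 : Lie' 𝔥) (hφ : Tot φ₀ φ ∈ 𝔥) (hbar : ∀ X ∈ 𝔥, mbar X ∈ 𝔥)
    (hp : Pol w J (φ j)) (he : Eig lev R (φ j)) (hJ : Jᵀ = J) (hdet : IsUnit J.det) (hm : ∀ X ∈ spS J, ib j X ∈ 𝔊)
    (hne : φ j ≠ ((w : ℂ) / 2) • (1 : Matrix (Fin n) (Fin n) ℂ))
    (hcod : finrank ℂ 𝔊 ≤ finrank ℂ (𝔊 ⊓ nrm 𝔥 : Submodule ℂ (Matrix (Ix r₀ n N) (Ix r₀ n N) ℂ)) + r)
    (hn : 5 ≤ n) (hr : r + 3 ≤ n) : ∀ X ∈ spS J, ib j X ∈ 𝔥 := by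
  obtain ⟨h1, h2, h3⟩ := nrm_data h𝔥 hφ hbar hp
  have hinv : (J⁻¹)⁻¹ = J := nonsing_inv_nonsing_inv J hdet
  have hdet' : IsUnit (J⁻¹).det := by
    rw [← Matrix.isUnit_iff_isUnit_det, Matrix.isUnit_nonsing_inv_iff]
    exact (Matrix.isUnit_iff_isUnit_det _).2 hdet
  have hJ' : (J⁻¹)ᵀ = J⁻¹ := by rw [transpose_nonsing_inv, hJ]
  have h4 : ∀ u v, wd J u v ∈ spS J ⊓ (nrm 𝔥).comap (ib j) :=
    hp.ort he hJ inf_le_left h1 h2 h3 (cod_sub (ib j) (V' := spS J) hm hcod) hr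
  have h5 : spS J ≤ spS J ⊓ (nrm 𝔥).comap (ib j) := fun X hX =>
    so_span hdet' hJ' (fun u v => by rw [hinv]; exact h4 u v) (spS_lieB hdet hX)
  obtain ⟨h6, h7⟩ := ideal_data hφ h5
  have h8 := hp.ideal_so he hn hJ hdet hne h6 h7
  exact fun X hX => so_span hdet' hJ' (fun u v => by rw [hinv]; exact h8 u v) (spS_lieB hdet hX)

end concl

end Pool.Agent.Helper880_ZP
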