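import Pool.Agent.Helper880_LF.GB

/-!
# Filtrations which are split by an element of a Lie algebra of constants
-/

set_option autoImplicit false
set_option linter.unusedSectionVars false
set_option linter.unusedVariables false

open Matrix Module

namespace Pool.Agent.Helper880_ZP

open Pool.Agent.Helper880_LF.NB (dm dm_mul dm_smul)

variable {Ω : Type} [Field Ω] [CharZero Ω] {B : Type} [Fintype B] [DecidableEq B]

/-- the matrices which raise the level -/
def upS (Ω : Type) [Field Ω] (lev : B → ℤ) : Submodule Ω (Matrix B B Ω) where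
  carrier := {X | ∀ a b, lev a ≤ lev b → X a b = 0}
  zero_mem' := fun a b _ => rfl
  add_mem' := by
    intro X Y hX hY a b h
    rw [Matrix.add_apply, hX a b h, hY a b h, add_zero]
  smul_mem' := by
    intro c X hX a b h
    rw [Matrix.smul_apply, hX a b h, smul_zero]

/-- the matrices which do not lower the level -/
def ppS (Ω : Type) [Field Ω] (lev : B → ℤ) : Submodule Ω (Matrix B B Ω) where
  carrier := {X | ∀ a b, lev a < lev b → X a b = 0}
  zero_mem' := fun a b _ => rfl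
  add_mem' := by
    intro X Y hX hY a b h
    rw [Matrix.add_apply, hX a b h, hY a b h, add_zero]
  smul_mem' := by
    intro c X hX a b h
    rw [Matrix.smul_apply, hX a b h, smul_zero]

/-- the diagonal matrix of the levels -/
def Dg (Ω : Type) [Field Ω] (lev : B → ℤ) : Matrix B B Ω := Matrix.diagonal fun b => ((lev b : ℤ) : Ω)

variable {lev : B → ℤ}

theorem up_le_pp : upS Ω lev ≤ ppS Ω lev := fun X hX a b h => hX a b h.le

theorem one_pp : (1 : Matrix B B Ω) ∈ ppS Ω lev := by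
  intro a b h
  rw [Matrix.one_apply_ne]
  rintro rfl
  exact lt_irrefl _ h

theorem pp_mul {X Y : Matrix B B Ω} (hX : X ∈ ppS Ω lev) (hY : Y ∈ ppS Ω lev) : X * Y ∈ ppS Ω lev := by
  intro a b h
  rw [Matrix.mul_apply]
  refine Finset.sum_eq_zero fun c _ => ?_
  by_cases h1 : lev a < lev c
  · rw [hX a c h1, zero_mul]
  · rw [hY c b (lt_of_le_of_lt (not_lt.1 h1) h), mul_zero]

theorem up_mul {X Y : Matrix B B Ω} (hX : X ∈ upS Ω lev) (hY : Y ∈ ppS Ω lev) : X * Y ∈ upS Ω lev := by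
  intro a b h
  rw [Matrix.mul_apply]
  refine Finset.sum_eq_zero fun c _ => ?_
  by_cases h1 : lev a ≤ lev c
  · rw [hX a c h1, zero_mul]
  · rw [hY c b (lt_of_lt_of_le (not_le.1 h1) h), mul_zero]

theorem up_nilp {X : Matrix B B Ω} (hX : X ∈ upS Ω lev) : ∃ L : ℕ, X ^ L = 0 := by
  classical
  have h1 : ∀ (k : ℕ) (a b : B), (X ^ k) a b ≠ 0 → lev b + k ≤ lev a := by
    intro k
    induction k with
    | zero =>
      intro a b h
      rw [pow_zero, Matrix.one_apply] at h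
      split_ifs at h with h2
      · subst h2
        simp
      · exact absurd rfl h
    | succ k ih =>
      intro a b h
      rw [pow_succ, Matrix.mul_apply] at h
      obtain ⟨c, -, hc⟩ := Finset.exists_ne_zero_of_sum_ne_zero h
      have h2 := ih a c (left_ne_zero_of_mul hc)
      have h3 : lev b < lev c := by
        by_contra h4
        exact right_ne_zero_of_mul hc (hX c b (not_lt.1 h4))
      push_cast
      omega
  obtain ⟨L, hL⟩ : ∃ L : ℕ, ∀ a b : B, lev a < lev b + L := by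
    refine ⟨(∑ a, |lev a|).toNat * 2 + 1, fun a b => ?_⟩
    have h2 : |lev a| ≤ ∑ a, |lev a| := Finset.single_le_sum (f := fun a => |lev a|) (fun _ _ => abs_nonneg _) (Finset.mem_univ a)
    have h3 : |lev b| ≤ ∑ a, |lev a| := Finset.single_le_sum (f := fun a => |lev a|) (fun _ _ => abs_nonneg _) (Finset.mem_univ b)
    have h4 := le_abs_self (lev a)
    have h5 := neg_abs_le (lev b)
    have h6 := Int.self_le_toNat (∑ a, |lev a|)
    push_cast
    linarith
  refine ⟨L, ?_⟩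
  ext a b
  by_contra h
  have h2 := h1 L a b h
  have h3 := hL a b
  linarith

theorem one_add_inv {X : Matrix B B Ω} (hX : X ∈ upS Ω lev) :
    ∃ V : Matrix B B Ω, V ∈ ppS Ω lev ∧ (1 + X) * V = 1 ∧ V * (1 + X) = 1 := by
  obtain ⟨L, hL⟩ := up_nilp hX
  have h1 : ∀ k : ℕ, (-X) ^ k ∈ ppS Ω lev := by
    intro k
    induction k with
    | zero => rw [pow_zero]; exact one_pp
    | succ k ih =>
      rw [pow_succ]
      exact pp_mul ih (Submodule.neg_mem _ (up_le_pp hX))
  have h2 : (-X) ^ L = 0 := by rw [neg_pow, hL, mul_zero]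
  refine ⟨∑ i ∈ Finset.range L, (-X) ^ i, Submodule.sum_mem _ fun i _ => h1 i, ?_, ?_⟩
  · have h3 := mul_neg_geom_sum (-X) L
    rw [h2, sub_zero, sub_neg_eq_add] at h3
    exact h3
  · have h3 := geom_sum_mul_neg (-X) L
    rw [h2, sub_zero, sub_neg_eq_add] at h3
    exact h3

theorem comm_Dg (X : Matrix B B Ω) (a b : B) : (Dg Ω lev * X - X * Dg Ω lev) a b = ((lev a - lev b : ℤ) : Ω) * X a b := by
  unfold Dg
  rw [Matrix.sub_apply, Matrix.diagonal_mul, Matrix.mul_diagonal]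
  push_cast
  ring

/-- the operator which multiplies the part of degree `c` by `g c` -/
def part (lev : B → ℤ) (g : ℤ → Ω) (X : Matrix B B Ω) : Matrix B B Ω := Matrix.of fun a b => g (lev a - lev b) * X a b

/-- **graded subspaces** -/
theorem part_mem {W : Submodule Ω (Matrix B B Ω)} (hW : ∀ Y ∈ W, Dg Ω lev * Y - Y * Dg Ω lev ∈ W) (g : ℤ → Ω)
    {X : Matrix B B Ω} (hX : X ∈ W) : part lev g X ∈ W := by
  classical
  have h1 : ∀ p : Polynomial Ω, part lev (fun c => p.eval (c : Ω)) X ∈ W := by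
    intro p
    induction p using Polynomial.induction_on with
    | C a =>
      have h2 : part lev (fun c : ℤ => (Polynomial.C a).eval (c : Ω)) X = a • X := by
        ext x y
        simp [part]
      rw [h2]
      exact W.smul_mem a hX
    | add p q hp hq =>
      have h2 : part lev (fun c : ℤ => (p + q).eval (c : Ω)) X =
          part lev (fun c => p.eval (c : Ω)) X + part lev (fun c => q.eval (c : Ω)) X := by
        ext x y
        simp [part, add_mul]
      rw [h2]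
      exact W.add_mem hp hq
    | monomial n a h =>
      have h2 : part lev (fun c : ℤ => (Polynomial.C a * Polynomial.X ^ (n + 1)).eval (c : Ω)) X =
          Dg Ω lev * part lev (fun c => (Polynomial.C a * Polynomial.X ^ n).eval (c : Ω)) X -
            part lev (fun c => (Polynomial.C a * Polynomial.X ^ n).eval (c : Ω)) X * Dg Ω lev := by
        ext x y
        rw [comm_Dg]
        simp only [part, Matrix.of_apply, Polynomial.eval_mul, Polynomial.eval_C, Polynomial.eval_pow, Polynomial.eval_X]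
        ring
      rw [h2]
      exact hW _ h
  set s : Finset ℤ := Finset.univ.image fun p : B × B => lev p.1 - lev p.2 with hs
  have hinj : Set.InjOn (fun c : ℤ => (c : Ω)) s := fun a _ b _ h => Int.cast_injective (α := Ω) h
  have h2 := h1 (Lagrange.interpolate s (fun c : ℤ => (c : Ω)) g)
  have h3 : part lev (fun c => (Lagrange.interpolate s (fun c : ℤ => (c : Ω)) g).eval (c : Ω)) X = part lev g X := by
    ext x y
    simp only [part, Matrix.of_apply]
    rw [Lagrange.eval_interpolate_at_node g hinj (Finset.mem_image.2 ⟨(x, y), Finset.mem_univ _, rfl⟩)]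
  rwa [h3] at h2

/-- conjugation -/
def cjS (P : Matrix B B Ω) (W : Submodule Ω (Matrix B B Ω)) : Submodule Ω (Matrix B B Ω) where
  carrier := {X | P⁻¹ * X * P ∈ W}
  zero_mem' := by
    show P⁻¹ * 0 * P ∈ W
    rw [Matrix.mul_zero, Matrix.zero_mul]
    exact W.zero_mem
  add_mem' := by
    intro X Y hX hY
    show P⁻¹ * (X + Y) * P ∈ W
    rw [Matrix.mul_add, Matrix.add_mul]
    exact W.add_mem hX hY
  smul_mem' := by
    intro c X hX
    show P⁻¹ * (c • X) * P ∈ W
    rw [Matrix.mul_smul, Matrix.smul_mul]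
    exact W.smul_mem c hX

theorem mem_cjS {P X : Matrix B B Ω} {W : Submodule Ω (Matrix B B Ω)} : X ∈ cjS P W ↔ P⁻¹ * X * P ∈ W := Iff.rfl

theorem conj_conj {P : Matrix B B Ω} (hP : IsUnit P.det) (X : Matrix B B Ω) : P⁻¹ * (P * X * P⁻¹) * P = X := by
  calc P⁻¹ * (P * X * P⁻¹) * P = (P⁻¹ * P) * X * (P⁻¹ * P) := by simp only [Matrix.mul_assoc]
    _ = X := by rw [nonsing_inv_mul _ hP, Matrix.one_mul, Matrix.mul_one]

theorem conj_conj' {P : Matrix B B Ω} (hP : IsUnit P.det) (X : Matrix B B Ω) : P * (P⁻¹ * X * P) * P⁻¹ = X := by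
  calc P * (P⁻¹ * X * P) * P⁻¹ = (P * P⁻¹) * X * (P * P⁻¹) := by simp only [Matrix.mul_assoc]
    _ = X := by rw [mul_nonsing_inv _ hP, Matrix.one_mul, Matrix.mul_one]

/-- **derivatives of matrices adapted to a filtration which is split by an element of a Lie algebra of constants** -/
theorem core_der {k : Type} [Field k] [Algebra k Ω] (δ : Derivation k Ω Ω) {𝔥 : Submodule Ω (Matrix B B Ω)}
    (hδ : ∀ Y ∈ 𝔥, dm δ Y ∈ 𝔥) (hL : ∀ X ∈ 𝔥, ∀ Y ∈ 𝔥, X * Y - Y * X ∈ 𝔥) {P φ V : Matrix B B Ω} (hP : IsUnit P.det)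
    (hφ : φ ∈ 𝔥) (hV : V ∈ upS Ω lev) (hs : φ * (P * (1 + V)) = P * (1 + V) * Dg Ω lev) :
    dm δ P * P⁻¹ ∈ 𝔥 ⊔ cjS P (ppS Ω lev) := by
  obtain ⟨V', hV', hVV, hVV'⟩ := one_add_inv hV
  set Q := P * (1 + V) with hQ
  set R := V' * P⁻¹ with hR
  have hQR : Q * R = 1 := by
    rw [hQ, hR]
    calc P * (1 + V) * (V' * P⁻¹) = P * ((1 + V) * V') * P⁻¹ := by simp only [Matrix.mul_assoc]
      _ = 1 := by rw [hVV, Matrix.mul_one, mul_nonsing_inv _ hP]
  have hRQ : R * Q = 1 := by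
    rw [hQ, hR]
    calc V' * P⁻¹ * (P * (1 + V)) = V' * (P⁻¹ * P) * (1 + V) := by simp only [Matrix.mul_assoc]
      _ = 1 := by rw [nonsing_inv_mul _ hP, Matrix.mul_one, hVV']
  have hDg : dm δ (Dg Ω lev) = 0 := by
    ext a b
    show δ (Dg Ω lev a b) = 0
    unfold Dg
    rw [Matrix.diagonal_apply]
    split_ifs
    · exact Derivation.map_intCast δ _
    · exact map_zero δ
  -- the space in the adapted coordinates
  let W : Submodule Ω (Matrix B B Ω) :=
    { carrier := {X | Q * X * R ∈ 𝔥}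
      zero_mem' := by
        show Q * 0 * R ∈ 𝔥
        rw [Matrix.mul_zero, Matrix.zero_mul]
        exact 𝔥.zero_mem
      add_mem' := by
        intro X Y hX hY
        show Q * (X + Y) * R ∈ 𝔥
        rw [Matrix.mul_add, Matrix.add_mul]
        exact 𝔥.add_mem hX hY
      smul_mem' := by
        intro c X hX
        show Q * (c • X) * R ∈ 𝔥
        rw [Matrix.mul_smul, Matrix.smul_mul]
        exact 𝔥.smul_mem c hX }
  have hφQ : Q * Dg Ω lev * R = φ := by
    rw [← hs]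
    calc φ * Q * R = φ * (Q * R) := by rw [Matrix.mul_assoc]
      _ = φ := by rw [hQR, Matrix.mul_one]
  have hW : ∀ Y ∈ W, Dg Ω lev * Y - Y * Dg Ω lev ∈ W := by
    intro Y hY
    show Q * (Dg Ω lev * Y - Y * Dg Ω lev) * R ∈ 𝔥
    have h1 : Q * (Dg Ω lev * Y - Y * Dg Ω lev) * R = φ * (Q * Y * R) - (Q * Y * R) * φ := by
      rw [← hφQ]
      calc Q * (Dg Ω lev * Y - Y * Dg Ω lev) * R = Q * Dg Ω lev * 1 * Y * R - Q * Y * 1 * Dg Ω lev * R := by
            simp only [Matrix.mul_sub, Matrix.sub_mul, Matrix.mul_assoc, Matrix.one_mul]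
        _ = _ := by
          rw [← hRQ]
          simp only [Matrix.mul_assoc]
    rw [h1]
    exact hL _ hφ _ hY
  -- the derivative
  set Y' := R * dm δ Q with hY'
  have hder : Dg Ω lev * Y' - Y' * Dg Ω lev ∈ W := by
    have h1 := congrArg (dm δ) hs
    rw [dm_mul, dm_mul δ (P * (1 + V)) (Dg Ω lev), hDg, Matrix.mul_zero, add_zero, ← hQ] at h1
    -- `δφ Q + φ δQ = δQ D`
    show Q * (Dg Ω lev * Y' - Y' * Dg Ω lev) * R ∈ 𝔥
    have h2 : Q * (Dg Ω lev * Y' - Y' * Dg Ω lev) * R = -dm δ φ := by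
      have h3 : Q * (Y' * Dg Ω lev) = dm δ Q * Dg Ω lev := by
        rw [hY']
        calc Q * (R * dm δ Q * Dg Ω lev) = (Q * R) * (dm δ Q * Dg Ω lev) := by simp only [Matrix.mul_assoc]
          _ = _ := by rw [hQR, Matrix.one_mul]
      have h4 : Q * (Dg Ω lev * Y') = φ * dm δ Q := by
        rw [hY', ← hφQ]
        simp only [Matrix.mul_assoc]
      rw [Matrix.mul_sub, h3, h4, ← h1, sub_add_cancel_right, Matrix.neg_mul, Matrix.mul_assoc, hQR, Matrix.mul_one]
    rw [h2]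
    exact 𝔥.neg_mem (hδ _ hφ)
  have h5 := part_mem hW (fun c => if c = 0 then 0 else ((c : Ω))⁻¹) hder
  set Z := part lev (fun c => if c = 0 then 0 else ((c : Ω))⁻¹) (Dg Ω lev * Y' - Y' * Dg Ω lev) with hZ
  have h6 : Y' - Z ∈ ppS Ω lev := by
    intro a b hab
    have hc : (fun c : ℤ => if c = 0 then (0 : Ω) else ((c : Ω))⁻¹) (lev a - lev b) = ((lev a - lev b : ℤ) : Ω)⁻¹ :=
      if_neg (by omega)
    have hc0 : ((lev a - lev b : ℤ) : Ω) ≠ 0 := Int.cast_ne_zero.2 (by omega)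
    have hZe : Z a b = (fun c : ℤ => if c = 0 then (0 : Ω) else ((c : Ω))⁻¹) (lev a - lev b) *
      (Dg Ω lev * Y' - Y' * Dg Ω lev) a b := rfl
    rw [Matrix.sub_apply, hZe, comm_Dg, hc, ← mul_assoc, inv_mul_cancel₀ hc0, one_mul, sub_self]
  -- assembly
  have h7 : dm δ Q = dm δ P * (1 + V) + P * dm δ V := by
    rw [hQ, dm_mul]
    congr 2
    ext a b
    show δ ((1 + V) a b) = δ (V a b)
    rw [Matrix.add_apply, map_add, Matrix.one_apply]
    split_ifs
    · rw [Derivation.map_one_eq_zero, zero_add]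
    · rw [map_zero, zero_add]
  have hdV : dm δ V ∈ upS Ω lev := by
    intro a b hab
    show δ (V a b) = 0
    rw [hV a b hab, map_zero]
  have h8 : dm δ P * P⁻¹ = Q * Z * R + (Q * (Y' - Z) * R - P * (dm δ V * V') * P⁻¹) := by
    have h9 : Q * Z * R + Q * (Y' - Z) * R = dm δ Q * R := by
      calc Q * Z * R + Q * (Y' - Z) * R = Q * (Z + (Y' - Z)) * R := by rw [Matrix.mul_add, Matrix.add_mul]
        _ = (Q * R) * dm δ Q * R := by rw [add_sub_cancel, hY', ← Matrix.mul_assoc Q]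
        _ = dm δ Q * R := by rw [hQR, Matrix.one_mul]
    rw [← add_sub_assoc, h9, h7, Matrix.add_mul, hR]
    have e1 : dm δ P * (1 + V) * (V' * P⁻¹) = dm δ P * P⁻¹ := by
      calc dm δ P * (1 + V) * (V' * P⁻¹) = dm δ P * ((1 + V) * V') * P⁻¹ := by simp only [Matrix.mul_assoc]
        _ = _ := by rw [hVV, Matrix.mul_one]
    have e2 : P * dm δ V * (V' * P⁻¹) = P * (dm δ V * V') * P⁻¹ := by simp only [Matrix.mul_assoc]
    rw [e1, e2, add_sub_cancel_right]
  rw [h8]
  refine Submodule.add_mem _ (Submodule.mem_sup_left h5) (Submodule.mem_sup_right ?_)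
  have h1V : (1 + V) ∈ ppS Ω lev := Submodule.add_mem _ one_pp (up_le_pp hV)
  refine Submodule.sub_mem _ ?_ ?_
  · rw [mem_cjS]
    have e3 : P⁻¹ * (Q * (Y' - Z) * R) * P = (1 + V) * (Y' - Z) * V' := by
      rw [hQ, hR]
      calc P⁻¹ * (P * (1 + V) * (Y' - Z) * (V' * P⁻¹)) * P = P⁻¹ * (P * ((1 + V) * (Y' - Z) * V') * P⁻¹) * P := by
            simp only [Matrix.mul_assoc]
        _ = _ := conj_conj hP _
    rw [e3]
    exact pp_mul (pp_mul h1V h6) hV'
  · rw [mem_cjS, conj_conj hP]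
    exact pp_mul (up_le_pp hdV) hV'

/-- the normaliser -/
def nrm (W : Submodule Ω (Matrix B B Ω)) : Submodule Ω (Matrix B B Ω) where
  carrier := {X | ∀ Y ∈ W, X * Y - Y * X ∈ W}
  zero_mem' := by
    intro Y _
    rw [Matrix.zero_mul, Matrix.mul_zero, sub_zero]
    exact W.zero_mem
  add_mem' := by
    intro X X' hX hX' Y hY
    have : (X + X') * Y - Y * (X + X') = (X * Y - Y * X) + (X' * Y - Y * X') := by
      rw [Matrix.add_mul, Matrix.mul_add]
      abel
    rw [this]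
    exact W.add_mem (hX Y hY) (hX' Y hY)
  smul_mem' := by
    intro c X hX Y hY
    rw [Matrix.smul_mul, Matrix.mul_smul, ← smul_sub]
    exact W.smul_mem c (hX Y hY)

theorem mem_nrm {W : Submodule Ω (Matrix B B Ω)} {X : Matrix B B Ω} : X ∈ nrm W ↔ ∀ Y ∈ W, X * Y - Y * X ∈ W := Iff.rfl

/-- **spaces of matrices which consist of constants in both coordinates** -/
theorem core_nrm {k : Type} [Field k] [Algebra k Ω] (δ : Derivation k Ω Ω) {𝔥 𝔮 : Submodule Ω (Matrix B B Ω)}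
    (hδ : ∀ Y ∈ 𝔥, dm δ Y ∈ 𝔥) (hδ' : ∀ Y ∈ 𝔮, dm δ Y ∈ 𝔮) {P : Matrix B B Ω} (hP : IsUnit P.det)
    (h1 : ∀ Y ∈ 𝔥, P⁻¹ * Y * P ∈ 𝔮) (h2 : ∀ Y ∈ 𝔮, P * Y * P⁻¹ ∈ 𝔥) : dm δ P * P⁻¹ ∈ nrm 𝔥 := by
  intro Y hY
  have h3 := h2 _ (hδ' _ (h1 Y hY))
  have h4 : Y * P = P * (P⁻¹ * Y * P) := by
    calc Y * P = (P * P⁻¹) * Y * P := by rw [mul_nonsing_inv _ hP, Matrix.one_mul]
      _ = _ := by simp only [Matrix.mul_assoc]
  have h5 := congrArg (dm δ) h4
  rw [dm_mul, dm_mul δ P] at h5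
  have h6 : P * dm δ (P⁻¹ * Y * P) * P⁻¹ = dm δ Y - (dm δ P * P⁻¹ * Y - Y * (dm δ P * P⁻¹)) := by
    have h7 : P * dm δ (P⁻¹ * Y * P) = dm δ Y * P + Y * dm δ P - dm δ P * (P⁻¹ * Y * P) := by
      rw [h5]
      abel
    rw [h7, Matrix.sub_mul, Matrix.add_mul]
    have e1 : dm δ Y * P * P⁻¹ = dm δ Y := by rw [Matrix.mul_assoc, mul_nonsing_inv _ hP, Matrix.mul_one]
    have e2 : dm δ P * (P⁻¹ * Y * P) * P⁻¹ = dm δ P * P⁻¹ * Y := by
      calc dm δ P * (P⁻¹ * Y * P) * P⁻¹ = dm δ P * P⁻¹ * Y * (P * P⁻¹) := by simp only [Matrix.mul_assoc]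
        _ = _ := by rw [mul_nonsing_inv _ hP, Matrix.mul_one]
    rw [e1, e2, Matrix.mul_assoc Y]
    abel
  rw [h6] at h3
  have h8 := 𝔥.sub_mem (hδ Y hY) h3
  rwa [sub_sub_cancel] at h8

end Pool.Agent.Helper880_ZP
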