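import Pool.Agent.Helper880_ZP.Us
import Pool.Agent.Helper880_ZP.Grd
import Pool.Agent.Helper880_R3.Res

/-!
# Codimensions from derivations of the ultrapower
-/

set_option autoImplicit false
set_option linter.unusedSectionVars false
set_option linter.unusedVariables false
set_option maxHeartbeats 400000

open Matrix Module Filter PowerSeries

namespace Pool.Agent.Helper880_ZP

open Pool.Agent.Helper880_R3
open Pool.Agent.Y113 (ev Cv GSys ps)
open Pool.Agent.Y120.GH (QU0)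
open Pool.Agent.Y118.HV (Hv hh)
open Pool.Agent.Helper880_LF.NB hiding alg_core nrm
open Pool.Agent.Y118.UL (mk mk_eq mk_eq_zero mk_ne_zero mk_surj ev_ge eval_mk rep qc qc_mk algebraMap_eq U)
open Pool.Agent.Y119.HY (cm cm_pow cm_apply)
open Pool.Agent.Y119.HY renaming E → Ex, E_add → Ex_add, E_zero → Ex_zero, E_mul_neg → Ex_mul_neg, E_exp → Ex_exp

variable {n N r₀ : ℕ}

/-- the block matrices `0 ⊕ X_1 ⊕ … ⊕ X_N` with `X_j ∈ C 𝔤 C⁻¹` -/
def Gc (r₀ N : ℕ) (C : Matrix (Fin n) (Fin n) ℂ) (𝔤 : Submodule ℂ (Matrix (Fin n) (Fin n) ℂ)) :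
    Submodule ℂ (Matrix (Ix r₀ n N) (Ix r₀ n N) ℂ) where
  carrier := {Y | ∃ X : Fin N → Matrix (Fin n) (Fin n) ℂ, (∀ j, X j ∈ 𝔤) ∧
    Y = fromBlocks 0 0 0 (blockDiagonal fun j => C * X j * C⁻¹)}
  zero_mem' := ⟨fun _ => 0, fun _ => 𝔤.zero_mem, by
    have h : (fun j : Fin N => C * (0 : Matrix (Fin n) (Fin n) ℂ) * C⁻¹) = 0 := by
      funext j
      rw [Matrix.mul_zero, Matrix.zero_mul]
      rfl
    rw [h, blockDiagonal_zero, fromBlocks_zero]⟩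
  add_mem' := by
    rintro _ _ ⟨X, hX, rfl⟩ ⟨Y, hY, rfl⟩
    refine ⟨fun j => X j + Y j, fun j => 𝔤.add_mem (hX j) (hY j), ?_⟩
    rw [fromBlocks_add, ← blockDiagonal_add]
    simp only [add_zero]
    congr 2
    funext j
    rw [Pi.add_apply, Matrix.mul_add, Matrix.add_mul]
  smul_mem' := by
    rintro c _ ⟨X, hX, rfl⟩
    refine ⟨fun j => c • X j, fun j => 𝔤.smul_mem c (hX j), ?_⟩
    rw [fromBlocks_smul, ← blockDiagonal_smul]
    simp only [smul_zero]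
    congr 2
    funext j
    rw [Pi.smul_apply, Matrix.mul_smul, Matrix.smul_mul]

/-- conjugation -/
noncomputable def cjE {F : Type} [Field F] {B : Type} [Fintype B] [DecidableEq B] {P : Matrix B B F} (hP : IsUnit P.det) :
    Matrix B B F ≃ₗ[F] Matrix B B F where
  toFun X := P * X * P⁻¹
  invFun X := P⁻¹ * X * P
  left_inv X := by
    calc P⁻¹ * (P * X * P⁻¹) * P = (P⁻¹ * P) * X * (P⁻¹ * P) := by simp only [Matrix.mul_assoc]
      _ = X := by rw [nonsing_inv_mul _ hP, Matrix.one_mul, Matrix.mul_one]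
  right_inv X := by
    calc P * (P⁻¹ * X * P) * P⁻¹ = (P * P⁻¹) * X * (P * P⁻¹) := by simp only [Matrix.mul_assoc]
      _ = X := by rw [mul_nonsing_inv _ hP, Matrix.one_mul, Matrix.mul_one]
  map_add' X Y := by rw [Matrix.mul_add, Matrix.add_mul]
  map_smul' c X := by rw [Matrix.mul_smul, Matrix.smul_mul, RingHom.id_apply]

theorem cjE_apply {F : Type} [Field F] {B : Type} [Fintype B] [DecidableEq B] {P : Matrix B B F} (hP : IsUnit P.det)
    (X : Matrix B B F) : cjE hP X = P * X * P⁻¹ := rfl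

theorem cj_dim {B : Type} [Fintype B] [DecidableEq B] {P : Matrix B B ℂ} (hP : IsUnit P.det)
    {𝔊 R : Submodule ℂ (Matrix B B ℂ)} {r : ℕ}
    (h : finrank ℂ 𝔊 ≤ finrank ℂ (𝔊 ⊓ R.comap (cjE hP).toLinearMap : Submodule ℂ (Matrix B B ℂ)) + r) :
    finrank ℂ (𝔊.map (cjE hP).toLinearMap) ≤
      finrank ℂ (𝔊.map (cjE hP).toLinearMap ⊓ R : Submodule ℂ (Matrix B B ℂ)) + r := by
  have h1 : (𝔊 ⊓ R.comap (cjE hP).toLinearMap).map (cjE hP).toLinearMap = 𝔊.map (cjE hP).toLinearMap ⊓ R := by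
    rw [Submodule.map_inf _ (cjE hP).injective, Submodule.map_comap_eq_of_surjective (cjE hP).surjective]
  rw [← h1]
  have h2 := LinearEquiv.finrank_map_eq (cjE hP) 𝔊
  have h3 := LinearEquiv.finrank_map_eq (cjE hP) (𝔊 ⊓ R.comap (cjE hP).toLinearMap)
  have e2 : finrank ℂ (𝔊.map (cjE hP).toLinearMap) = finrank ℂ 𝔊 := h2
  have e3 : finrank ℂ ((𝔊 ⊓ R.comap (cjE hP).toLinearMap).map (cjE hP).toLinearMap) =
    finrank ℂ (𝔊 ⊓ R.comap (cjE hP).toLinearMap : Submodule ℂ (Matrix B B ℂ)) := h3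
  rw [e2, e3]
  exact h

/-- **the dimension of the part of the monodromy Lie algebra which is in given spaces** -/
theorem dim_core (hn : 0 < n) {𝔤 : Submodule ℂ (Matrix (Fin n) (Fin n) ℂ)} {r : ℕ}
    {z : ℕ → Fin N → Matrix (Fin n) (Fin n) ℂ} (hz : ∀ k j, (z k j).det ≠ 0)
    (hder : ∀ i, ∀ A ∈ GU 𝔤, ∃ δ : Derivation (U ℚ) (U ℂ) (U ℂ), dm δ (gm fun k => z k i) = A * (gm fun k => z k i) ∧
      ∀ j, j ≠ i → dm δ (gm fun k => z k j) = 0)
    {C : ℕ → Matrix (Ix r₀ n N) (Ix r₀ n N) ℂ} (hC : ∀ k, IsUnit (C k).det)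
    (𝒩 : Submodule (U ℂ) (Matrix (Ix r₀ n N) (Ix r₀ n N) (U ℂ)))
    (hone : (1 : Matrix (Ix r₀ n N) (Ix r₀ n N) (U ℂ)) ∈ 𝒩)
    (hdim : finrank (U ℂ) 𝒩 ≤ r + 1) (h𝒩 : ∀ δ : Derivation (U ℚ) (U ℂ) (U ℂ), (gm C)⁻¹ * dm δ (gm C) ∈ 𝒩)
    {R : ℕ → Submodule ℂ (Matrix (Ix r₀ n N) (Ix r₀ n N) ℂ)} (h1 : ∀ k, 1 ∈ R k)
    (hR : ∀ δ : Derivation (U ℚ) (U ℂ) (U ℂ), dm δ (gm fun k => C k * Zm (z k)) * (gm fun k => C k * Zm (z k))⁻¹ ∈ Us R) :
    ∀ᶠ k in (hyperfilter ℕ : Filter ℕ), finrank ℂ (Gc r₀ N 1 𝔤) ≤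
      finrank ℂ (Gc r₀ N 1 𝔤 ⊓ (R k).comap (cjE (hC k)).toLinearMap : Submodule ℂ (Matrix (Ix r₀ n N) (Ix r₀ n N) ℂ)) + r := by
  classical
  by_cases hN : N = 0
  · subst hN
    refine Filter.Eventually.of_forall fun k => ?_
    have h2 : Gc r₀ 0 1 𝔤 = ⊥ := by
      rw [Submodule.eq_bot_iff]
      rintro _ ⟨X, -, rfl⟩
      have h3 : (fun j : Fin 0 => (1 : Matrix (Fin n) (Fin n) ℂ) * X j * 1⁻¹) = 0 := funext fun j => j.elim0
      rw [h3, blockDiagonal_zero, fromBlocks_zero]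
    rw [h2, finrank_bot]
    exact Nat.zero_le _
  have hne : Nonempty (Ix r₀ n N) := ⟨Sum.inr (⟨0, hn⟩, ⟨0, Nat.pos_of_ne_zero hN⟩)⟩
  set x : Fin N → Matrix (Fin n) (Fin n) (U ℂ) := fun j => gm fun k => z k j with hx
  set Cs := gm C with hCs
  have hxu : ∀ j, IsUnit (x j).det := fun j => gm_unit fun k => hz k j
  have hCu : IsUnit Cs.det := gm_unit fun k => (hC k).ne_zero
  have hxx : ∀ j, x j * (x j)⁻¹ = 1 := fun j => mul_nonsing_inv _ (hxu j)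
  have hCC : Cs * Cs⁻¹ = 1 := mul_nonsing_inv _ hCu
  have hCC' : Cs⁻¹ * Cs = 1 := nonsing_inv_mul _ hCu
  have hbx : Zm (r₀ := r₀) x * Zm (fun j => (x j)⁻¹) = 1 := by
    rw [Zm_mul]
    have : (fun j => x j * (x j)⁻¹) = fun _ => 1 := funext hxx
    rw [this, Zm_one]
  have hbi : (Zm (r₀ := r₀) x)⁻¹ = Zm (fun j => (x j)⁻¹) := inv_eq_right_inv hbx
  have hcx : gm (fun k => C k * Zm (z k)) = Cs * Zm x := by
    rw [gm_mul, gm_Zm]
  set 𝔊 := Gc r₀ N 1 𝔤 with h𝔊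
  let S : ℕ → Submodule ℂ (Matrix (Ix r₀ n N) (Ix r₀ n N) ℂ) := fun k => (R k).comap (cjE (hC k)).toLinearMap
  have hS1 : (1 : Matrix (Ix r₀ n N) (Ix r₀ n N) (U ℂ)) ∈ Us S := by
    rw [← gm_one]
    refine mem_Us_of fun k => ?_
    show C k * 1 * (C k)⁻¹ ∈ R k
    rw [Matrix.mul_one, mul_nonsing_inv _ (hC k)]
    exact h1 k
  have hSR : ∀ Y ∈ Us R, Cs⁻¹ * Y * Cs ∈ Us S := by
    rintro _ ⟨F, rfl, hF⟩
    have h2 : Cs⁻¹ * gm F * Cs = gm fun k => (C k)⁻¹ * F k * C k := by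
      rw [hCs, gm_inv fun k => (hC k).ne_zero, gm_mul, gm_mul]
    rw [h2]
    refine mem_Us_of fun k => ?_
    show C k * ((C k)⁻¹ * F k * C k) * (C k)⁻¹ ∈ R k
    have h3 : C k * ((C k)⁻¹ * F k * C k) * (C k)⁻¹ = F k := (cjE (hC k)).right_inv (F k)
    rw [h3]
    exact hF k
  have hib : ∀ i, ∀ A ∈ GU 𝔤, ib (r₀ := r₀) i A ∈ Us S ⊔ 𝒩 := by
    intro i A hA
    obtain ⟨δ, hδ1, hδ2⟩ := hder i A hA
    have h3 : dm δ (Zm (r₀ := r₀) x) = ib i A * Zm x := by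
      rw [dm_Zm, ib_apply]
      unfold Zm
      rw [fromBlocks_multiply, ← blockDiagonal_mul]
      simp only [Matrix.zero_mul, Matrix.mul_zero, add_zero, zero_add]
      congr 2
      funext j
      by_cases h : j = i
      · subst h
        rw [Pi.single_eq_same]
        exact hδ1
      · rw [Pi.single_eq_of_ne h, Matrix.zero_mul]
        exact hδ2 j h
    have hbu : Zm (r₀ := r₀) x * (Zm x)⁻¹ = 1 := by rw [hbi, hbx]
    have h4 := hSR _ (hR δ)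
    rw [hcx, dm_mul, h3, Matrix.mul_inv_rev] at h4
    have h5 : Cs⁻¹ * ((dm δ Cs * Zm x + Cs * (ib i A * Zm x)) * ((Zm x)⁻¹ * Cs⁻¹)) * Cs = Cs⁻¹ * dm δ Cs + ib i A := by
      calc Cs⁻¹ * ((dm δ Cs * Zm x + Cs * (ib i A * Zm x)) * ((Zm x)⁻¹ * Cs⁻¹)) * Cs =
          Cs⁻¹ * (dm δ Cs * (Zm x * (Zm x)⁻¹)) * (Cs⁻¹ * Cs) +
            (Cs⁻¹ * Cs) * (ib i A * (Zm x * (Zm x)⁻¹)) * (Cs⁻¹ * Cs) := by
            simp only [Matrix.add_mul, Matrix.mul_add, Matrix.mul_assoc]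
        _ = Cs⁻¹ * dm δ Cs + ib i A := by
          rw [hbu, hCC', Matrix.mul_one, Matrix.mul_one, Matrix.mul_one, Matrix.one_mul, Matrix.mul_one]
    rw [h5] at h4
    have h6 : ib (r₀ := r₀) i A = (Cs⁻¹ * dm δ Cs + ib i A) - Cs⁻¹ * dm δ Cs := by rw [add_sub_cancel_left]
    rw [h6]
    exact Submodule.sub_mem _ (Submodule.mem_sup_left h4) (Submodule.mem_sup_right (h𝒩 δ))
  have hle : (Us fun _ => 𝔊) ≤ Us S ⊔ 𝒩 := by
    rintro _ ⟨F, rfl, hF⟩
    choose X hX1 hX2 using hF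
    have h2 : gm F = ∑ i, ib i (gm fun k => X k i) := by
      have h3 : F = fun k => ∑ i, ib i (X k i) := by
        funext k
        rw [hX2 k, sum_ib]
        congr 2
        funext j
        rw [inv_one, Matrix.one_mul, Matrix.mul_one]
      have h4 : ∀ s : Finset (Fin N), gm (fun k => ∑ i ∈ s, ib (r₀ := r₀) i (X k i)) = ∑ i ∈ s, ib i (gm fun k => X k i) := by
        intro s
        induction s using Finset.induction_on with
        | empty =>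
          simp only [Finset.sum_empty]
          exact gm_zero
        | insert a s ha ih =>
          simp only [Finset.sum_insert ha]
          rw [gm_add, ih, gm_ib]
      rw [h3]
      exact h4 _
    rw [h2]
    exact Submodule.sum_mem _ fun i _ => hib i _ ⟨fun k => X k i, rfl, fun k => hX1 k i⟩
  have hcod := cod_sup hle (one_ne_zero (α := Matrix (Ix r₀ n N) (Ix r₀ n N) (U ℂ))) hS1 hone hdim
  have h2 : finrank ℂ 𝔊 ≤ finrank (U ℂ) (Us fun k => 𝔊 ⊓ S k) + r := by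
    have h3 := finrank_const (T := 𝔊)
    have h4 := Submodule.finrank_mono (Us_inf (S := fun _ => 𝔊) (S' := S))
    omega
  filter_upwards [finrank_le (S := fun k => 𝔊 ⊓ S k)] with k hk
  exact h2.trans (Nat.add_le_add_right hk r)

/-- The relation between period matrices and spaces of matrices is preserved in ultraproducts, and the spaces contain the
logarithmic derivatives. -/
def Compat (Rl : Matrix (Ix r₀ n N) (Ix r₀ n N) ℂ → Submodule ℂ (Matrix (Ix r₀ n N) (Ix r₀ n N) ℂ) → Prop) : Prop :=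
  (∀ P R, Rl P R → 1 ∈ R) ∧
  ∀ (P : ℕ → Matrix (Ix r₀ n N) (Ix r₀ n N) ℂ) (R : ℕ → Submodule ℂ (Matrix (Ix r₀ n N) (Ix r₀ n N) ℂ)),
    (∀ k, (P k).det ≠ 0) → (∀ k, Rl (P k) (R k)) →
    ∀ δ : Derivation (U ℚ) (U ℂ) (U ℂ), dm δ (gm P) * (gm P)⁻¹ ∈ Us R

theorem Gc_conj {𝔤 : Submodule ℂ (Matrix (Fin n) (Fin n) ℂ)} {M : Matrix (Fin n) (Fin n) ℚ} (hM : M ^ n = 0)
    (hM𝔤 : ∀ Y ∈ 𝔤, cm M * Y - Y * cm M ∈ 𝔤) (C₀ : Matrix (Fin r₀) (Fin r₀) ℂ) (C : Matrix (Fin n) (Fin n) ℂ) (s : ℂ)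
    (hu : IsUnit (Cb (N := N) C₀ C * Zm (fun _ : Fin N => Ex (cm M) (-s))).det) :
    (Gc r₀ N 1 𝔤).map (cjE hu).toLinearMap = Gc r₀ N C 𝔤 := by
  have hMc : (cm M) ^ n = 0 := by
    rw [← cm_pow, hM]
    exact map_zero _
  by_cases hN : N = 0
  · subst hN
    have h2 : ∀ C : Matrix (Fin n) (Fin n) ℂ, Gc r₀ 0 C 𝔤 = ⊥ := by
      intro C
      rw [Submodule.eq_bot_iff]
      rintro _ ⟨X, -, rfl⟩
      have h3 : (fun j : Fin 0 => C * X j * C⁻¹) = 0 := funext fun j => j.elim0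
      rw [h3, blockDiagonal_zero, fromBlocks_zero]
    rw [h2, h2, Submodule.map_bot]
  have hCu : IsUnit C.det := by
    rw [Matrix.det_mul] at hu
    have h1 := isUnit_of_mul_isUnit_left hu
    unfold Cb at h1
    rw [Matrix.det_fromBlocks_zero₂₁, Matrix.det_blockDiagonal] at h1
    have h2 := (isUnit_of_mul_isUnit_right h1).ne_zero
    rw [Finset.prod_ne_zero_iff] at h2
    exact isUnit_iff_ne_zero.2 (h2 ⟨0, Nat.pos_of_ne_zero hN⟩ (Finset.mem_univ _))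
  have hEE : Ex (cm M) (-s) * Ex (cm M) s = 1 := by
    have := Ex_mul_neg hMc (-s)
    rwa [neg_neg] at this
  have hEE' : Ex (cm M) s * Ex (cm M) (-s) = 1 := Ex_mul_neg hMc s
  have key : ∀ X : Fin N → Matrix (Fin n) (Fin n) ℂ, cjE hu (fromBlocks 0 0 0 (blockDiagonal X)) =
      fromBlocks 0 0 0 (blockDiagonal fun j => C * (Ex (cm M) (-s) * X j * Ex (cm M) s) * C⁻¹) := by
    intro X
    rw [cjE_apply]
    have h1 : (Cb (N := N) C₀ C * Zm (fun _ : Fin N => Ex (cm M) (-s))) * fromBlocks 0 0 0 (blockDiagonal X) =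
        fromBlocks 0 0 0 (blockDiagonal fun j => C * (Ex (cm M) (-s) * X j * Ex (cm M) s) * C⁻¹) *
          (Cb (N := N) C₀ C * Zm (fun _ : Fin N => Ex (cm M) (-s))) := by
      rw [Cb_Zm, fromBlocks_multiply, fromBlocks_multiply, ← blockDiagonal_mul, ← blockDiagonal_mul]
      simp only [Matrix.mul_zero, Matrix.zero_mul, add_zero, zero_add]
      congr 2
      funext j
      have h2 : C * (Ex (cm M) (-s) * X j * Ex (cm M) s) * C⁻¹ * (C * Ex (cm M) (-s)) =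
          C * Ex (cm M) (-s) * X j * (Ex (cm M) s * (C⁻¹ * C) * Ex (cm M) (-s)) := by simp only [Matrix.mul_assoc]
      rw [h2, nonsing_inv_mul _ hCu, Matrix.mul_one, hEE', Matrix.mul_one]
    rw [h1, Matrix.mul_nonsing_inv_cancel_right _ _ hu]
  ext Y
  constructor
  · rintro ⟨_, ⟨X, hX, rfl⟩, rfl⟩
    have h1 : (fun j : Fin N => (1 : Matrix (Fin n) (Fin n) ℂ) * X j * 1⁻¹) = X := by
      funext j
      rw [inv_one, Matrix.one_mul, Matrix.mul_one]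
    refine ⟨fun j => Ex (cm M) (-s) * X j * Ex (cm M) s, fun j => ?_, ?_⟩
    · have h2 := E_conj hMc hM𝔤 (hX j) (-s)
      rwa [neg_neg] at h2
    · rw [h1]
      exact key X
  · rintro ⟨X, hX, rfl⟩
    refine ⟨fromBlocks 0 0 0 (blockDiagonal fun j => Ex (cm M) s * X j * Ex (cm M) (-s)),
      ⟨fun j => Ex (cm M) s * X j * Ex (cm M) (-s), fun j => E_conj hMc hM𝔤 (hX j) s, ?_⟩, ?_⟩
    · congr 2
      funext j
      rw [inv_one, Matrix.one_mul, Matrix.mul_one]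
    · refine (key _).trans ?_
      congr 2
      funext j
      have h2 : Ex (cm M) (-s) * (Ex (cm M) s * X j * Ex (cm M) (-s)) * Ex (cm M) s =
          (Ex (cm M) (-s) * Ex (cm M) s) * X j * (Ex (cm M) (-s) * Ex (cm M) s) := by simp only [Matrix.mul_assoc]
      rw [h2, hEE, Matrix.one_mul, Matrix.mul_one]

end Pool.Agent.Helper880_ZP
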