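import Pool.Agent.Helper880_R3.ClCod

/-!
# Self-adjoint subalgebras of small codimension of the orthogonal Lie algebras
-/

set_option autoImplicit false
set_option linter.unusedSectionVars false
set_option linter.unusedVariables false

open Matrix Module

namespace Pool.Agent.Helper880_ZP

open Pool.Agent.Helper880_LF (spS mem_spS count om om_add_left om_add_right om_smul_left om_smul_right om_zero_left
  om_zero_right om_sub_left orth mem_orth orth_ge smul_mem_iff')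
open Pool.Agent.Helper880_R3 (wd)

variable {n : ℕ} {J : Matrix (Fin n) (Fin n) ℂ}

theorem om_neg_left (u v : Fin n → ℂ) : om J (-u) v = -om J u v := by
  have := om_smul_left (J := J) (-1) u v
  rwa [neg_one_smul, neg_one_mul] at this

theorem om_neg_right (u v : Fin n → ℂ) : om J u (-v) = -om J u v := by
  have := om_smul_right (J := J) (-1) u v
  rwa [neg_one_smul, neg_one_mul] at this

theorem wd_add_right (u v v' : Fin n → ℂ) : wd J u (v + v') = wd J u v + wd J u v' := by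
  unfold wd
  rw [add_vecMul, vecMulVec_add, add_vecMulVec]
  abel

theorem wd_smul_right (c : ℂ) (u v : Fin n → ℂ) : wd J u (c • v) = c • wd J u v := by
  unfold wd
  rw [smul_vecMul, vecMulVec_smul, smul_vecMulVec, smul_sub]

theorem wd_swap (u v : Fin n → ℂ) : wd J u v = -wd J v u := by
  unfold wd
  abel

theorem wd_add_left (u u' v : Fin n → ℂ) : wd J (u + u') v = wd J u v + wd J u' v := by
  rw [wd_swap, wd_add_right, neg_add, ← wd_swap, ← wd_swap]

theorem wd_smul_left (c : ℂ) (u v : Fin n → ℂ) : wd J (c • u) v = c • wd J u v := by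
  rw [wd_swap, wd_smul_right, ← smul_neg, ← wd_swap]

theorem wd_neg_left (u v : Fin n → ℂ) : wd J (-u) v = -wd J u v := by
  have := wd_smul_left (J := J) (-1) u v
  rwa [neg_one_smul, neg_one_smul] at this

theorem wd_neg_right (u v : Fin n → ℂ) : wd J u (-v) = -wd J u v := by
  have := wd_smul_right (J := J) (-1) u v
  rwa [neg_one_smul, neg_one_smul] at this

theorem wd_self (u : Fin n → ℂ) : wd J u u = 0 := by
  unfold wd
  rw [sub_self]

theorem wd_mulVec (u v w : Fin n → ℂ) : wd J u v *ᵥ w = om J v w • u - om J u w • v := by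
  have h : ∀ a b c : Fin n → ℂ, vecMulVec a b *ᵥ c = (b ⬝ᵥ c) • a := by
    intro a b c
    funext i
    simp only [mulVec, vecMulVec_apply, dotProduct, Pi.smul_apply, smul_eq_mul, Finset.sum_mul]
    exact Finset.sum_congr rfl fun j _ => by ring
  unfold wd om
  rw [sub_mulVec, h, h, dotProduct_mulVec, dotProduct_mulVec]

section symm
variable (hJt : Jᵀ = J)
include hJt

theorem om_symm (u v : Fin n → ℂ) : om J u v = om J v u := by
  unfold om
  rw [dotProduct_mulVec, ← mulVec_transpose, hJt, dotProduct_comm]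

theorem so_om {X : Matrix (Fin n) (Fin n) ℂ} (hX : X ∈ spS J) (u v : Fin n → ℂ) : om J (X *ᵥ u) v = -om J u (X *ᵥ v) := by
  have h4 : J * X = -(Xᵀ * J) := by
    rw [eq_neg_iff_add_eq_zero, add_comm]
    exact hX
  unfold om
  rw [mulVec_mulVec, h4, neg_mulVec, dotProduct_neg, neg_neg, dotProduct_mulVec u, ← vecMul_vecMul, vecMul_transpose,
    ← dotProduct_mulVec]

theorem so_om_self {X : Matrix (Fin n) (Fin n) ℂ} (hX : X ∈ spS J) (u : Fin n → ℂ) : om J u (X *ᵥ u) = 0 := by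
  have h1 := so_om hJt hX u u
  rw [om_symm hJt] at h1
  have h2 : (2 : ℂ) * om J u (X *ᵥ u) = 0 := by linear_combination h1
  exact (mul_eq_zero.1 h2).resolve_left two_ne_zero

theorem wd_mem' (u v : Fin n → ℂ) : wd J u v ∈ spS J := by
  rw [mem_spS]
  unfold wd
  have h1 : ∀ a b : Fin n → ℂ, (vecMulVec a (b ᵥ* J))ᵀ * J = J * vecMulVec b (a ᵥ* J) := by
    intro a b
    rw [transpose_vecMulVec, vecMulVec_mul, mul_vecMulVec, ← mulVec_transpose, hJt]
  rw [transpose_sub, Matrix.sub_mul, Matrix.mul_sub, h1, h1]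
  abel

theorem comm_wd {X : Matrix (Fin n) (Fin n) ℂ} (hX : X ∈ spS J) (u v : Fin n → ℂ) :
    X * wd J u v - wd J u v * X = wd J (X *ᵥ u) v + wd J u (X *ᵥ v) := by
  have h4 : J * X = -(Xᵀ * J) := by
    rw [eq_neg_iff_add_eq_zero, add_comm]
    exact hX
  have h2 : ∀ a b : Fin n → ℂ, vecMulVec a (b ᵥ* J) * X = -vecMulVec a ((X *ᵥ b) ᵥ* J) := by
    intro a b
    rw [vecMulVec_mul, vecMul_vecMul, h4, vecMul_neg, ← vecMul_vecMul, vecMul_transpose, vecMulVec_neg]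
  unfold wd
  rw [Matrix.mul_sub, Matrix.sub_mul, h2, h2, mul_vecMulVec, mul_vecMulVec]
  abel

end symm

/-- `v ↦ u ∧ v` -/
noncomputable def fw (J : Matrix (Fin n) (Fin n) ℂ) (u : Fin n → ℂ) : (Fin n → ℂ) →ₗ[ℂ] Matrix (Fin n) (Fin n) ℂ where
  toFun v := wd J u v
  map_add' v w := wd_add_right _ _ _
  map_smul' c v := wd_smul_right _ _ _

section main
variable {𝔫 : Submodule ℂ (Matrix (Fin n) (Fin n) ℂ)} {σ : (Fin n → ℂ) → (Fin n → ℂ)}

/-- the vectors `v` with `u ∧ v` in the algebra -/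
noncomputable def Dw (J : Matrix (Fin n) (Fin n) ℂ) (𝔫 : Submodule ℂ (Matrix (Fin n) (Fin n) ℂ)) (u : Fin n → ℂ) :
    Submodule ℂ (Fin n → ℂ) := 𝔫.comap (fw J u)

theorem mem_Dw {u v : Fin n → ℂ} : v ∈ Dw J 𝔫 u ↔ wd J u v ∈ 𝔫 := Iff.rfl

theorem Dw_sq (hJt : Jᵀ = J) (hL : ∀ x ∈ 𝔫, ∀ y ∈ 𝔫, x * y - y * x ∈ 𝔫) {e v w : Fin n → ℂ} (he : om J e e ≠ 0)
    (hv : v ∈ Dw J 𝔫 e) (hw : w ∈ Dw J 𝔫 e) : wd J v w ∈ 𝔫 := by
  rw [mem_Dw] at hv hw
  have h1 := hL _ hv _ hw
  rw [comm_wd hJt (wd_mem' hJt e v), wd_mulVec, wd_mulVec] at h1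
  have h2 : wd J (om J v e • e - om J e e • v) w + wd J e (om J v w • e - om J e w • v) =
      (om J v e • wd J e w - om J e w • wd J e v) - om J e e • wd J v w := by
    rw [sub_eq_add_neg, sub_eq_add_neg (om J v w • e), wd_add_left, wd_add_right, wd_neg_left, wd_neg_right, wd_smul_left,
      wd_smul_left, wd_smul_right, wd_smul_right, wd_self, smul_zero]
    abel
  rw [h2] at h1
  have h3 : om J e e • wd J v w ∈ 𝔫 := by
    have h4 := 𝔫.sub_mem (𝔫.sub_mem (𝔫.smul_mem (om J v e) hw) (𝔫.smul_mem (om J e w) hv)) h1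
    rwa [sub_sub_cancel] at h4
  exact smul_mem_iff' he h3

variable (hadd : ∀ u v, σ (u + v) = σ u + σ v) (hsmul : ∀ (c : ℂ) v, σ (c • v) = star c • σ v) (hinv : ∀ v, σ (σ v) = v)

include hadd hsmul hinv in
/-- fixed vectors -/
theorem fixed_of_ne {W : Submodule ℂ (Fin n → ℂ)} (hW : ∀ v ∈ W, σ v ∈ W) (h : W ≠ ⊥) : ∃ v ∈ W, v ≠ 0 ∧ σ v = v := by
  obtain ⟨v, hv, hv0⟩ := (Submodule.ne_bot_iff W).1 h
  have hneg : ∀ u, σ (-u) = -σ u := by
    intro u
    have := hsmul (-1) u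
    rwa [neg_one_smul, star_neg, star_one, neg_one_smul] at this
  by_cases h1 : v + σ v = 0
  · refine ⟨Complex.I • v, W.smul_mem _ hv, ?_, ?_⟩
    · exact smul_ne_zero Complex.I_ne_zero hv0
    · have h2 : σ v = -v := (eq_neg_of_add_eq_zero_right h1)
      rw [hsmul, h2]
      have h3 : star Complex.I = -Complex.I := Complex.conj_I
      rw [h3, neg_smul_neg]
  · refine ⟨v + σ v, W.add_mem hv (hW v hv), h1, ?_⟩
    rw [hadd, hinv, add_comm]

include hadd hsmul hinv in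
/-- all vectors are combinations of fixed vectors -/
theorem fixed_span {W W' : Submodule ℂ (Fin n → ℂ)} (hW : ∀ v ∈ W, σ v ∈ W) (h : ∀ v ∈ W, σ v = v → v ∈ W') : W ≤ W' := by
  intro v hv
  have hneg : ∀ u, σ (-u) = -σ u := by
    intro u
    have := hsmul (-1) u
    rwa [neg_one_smul, star_neg, star_one, neg_one_smul] at this
  have h1 := h (v + σ v) (W.add_mem hv (hW v hv)) (by rw [hadd, hinv, add_comm])
  have h2 := h (Complex.I • (v - σ v)) (W.smul_mem _ (W.sub_mem hv (hW v hv))) (by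
    have h3 : star Complex.I = -Complex.I := Complex.conj_I
    rw [hsmul, sub_eq_add_neg, hadd, hneg, hinv, h3, neg_smul, ← smul_neg]
    congr 1
    abel)
  have h3 : v = (1 / 2 : ℂ) • ((v + σ v) + (-Complex.I) • (Complex.I • (v - σ v))) := by
    rw [smul_smul, neg_mul, Complex.I_mul_I, neg_neg, one_smul]
    have h4 : v + σ v + (v - σ v) = (2 : ℂ) • v := by
      rw [two_smul]
      abel
    rw [h4, smul_smul]
    norm_num
  rw [h3]
  exact W'.smul_mem _ (W'.add_mem h1 (W'.smul_mem _ h2))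

/-- the linear form given by a vector -/
noncomputable def lf (J : Matrix (Fin n) (Fin n) ℂ) (e : Fin n → ℂ) : (Fin n → ℂ) →ₗ[ℂ] ℂ where
  toFun v := om J e v
  map_add' v w := om_add_right _ _ _
  map_smul' c v := om_smul_right _ _ _

theorem inf_ker (E : Submodule ℂ (Fin n → ℂ)) (e : Fin n → ℂ) :
    finrank ℂ E ≤ finrank ℂ (E ⊓ LinearMap.ker (lf J e) : Submodule ℂ (Fin n → ℂ)) + 1 := by
  have h1 := LinearMap.finrank_range_add_finrank_ker (lf J e)
  have h2 : finrank ℂ (LinearMap.range (lf J e)) ≤ 1 := (Submodule.finrank_le _).trans (by rw [finrank_self])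
  have h3 := Submodule.finrank_sup_add_finrank_inf_eq E (LinearMap.ker (lf J e))
  have h4 := Submodule.finrank_le (E ⊔ LinearMap.ker (lf J e))
  rw [finrank_fin_fun] at h1 h4
  omega

/-- `(x, y) ↦ x ∧ y₀ + e ∧ y` -/
noncomputable def f2w (J : Matrix (Fin n) (Fin n) ℂ) (E E' : Submodule ℂ (Fin n → ℂ)) (e y₀ : Fin n → ℂ) :
    (E × E') →ₗ[ℂ] Matrix (Fin n) (Fin n) ℂ where
  toFun w := wd J w.1.1 y₀ + wd J e w.2.1
  map_add' w w' := by
    rw [Prod.fst_add, Prod.snd_add, Submodule.coe_add, Submodule.coe_add, wd_add_left, wd_add_right]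
    abel
  map_smul' c w := by
    rw [Prod.smul_fst, Prod.smul_snd, Submodule.coe_smul, Submodule.coe_smul, wd_smul_left, wd_smul_right, smul_add]
    rfl

include hadd hsmul hinv in
/-- **self-adjoint subalgebras of small codimension** -/
theorem ort_full (hJt : Jᵀ = J) (h𝔫 : 𝔫 ≤ spS J) (hL : ∀ x ∈ 𝔫, ∀ y ∈ 𝔫, x * y - y * x ∈ 𝔫) {r : ℕ}
    (hcod : finrank ℂ (spS J) ≤ finrank ℂ 𝔫 + r) (hr : r + 3 ≤ n)
    (hσ : ∀ u v, wd J u v ∈ 𝔫 → wd J (σ u) (σ v) ∈ 𝔫) (hpos : ∀ v, v ≠ 0 → om J v (σ v) ≠ 0)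
    (hJσ : ∀ u v, om J (σ u) (σ v) = star (om J u v)) (u v : Fin n → ℂ) :
    wd J u v ∈ 𝔫 := by
  have hdim : ∀ u, n ≤ finrank ℂ (Dw J 𝔫 u) + r := by
    intro u
    have h2 := count (fw J u) h𝔫 fun v => wd_mem' hJt u v
    rw [finrank_fin_fun] at h2
    unfold Dw
    omega
  -- a fixed vector
  obtain ⟨e₀, -, he0, hσe₀⟩ := fixed_of_ne hadd hsmul hinv (W := (⊤ : Submodule ℂ (Fin n → ℂ))) (fun v _ => Submodule.mem_top) (by
    intro h
    have h1 := congrArg (fun W : Submodule ℂ (Fin n → ℂ) => finrank ℂ W) h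
    simp only [finrank_top, finrank_bot, finrank_fin_fun] at h1
    omega)
  have hq : ∀ e, e ≠ 0 → σ e = e → om J e e ≠ 0 := by
    intro e he hs
    have := hpos e he
    rwa [hs] at this
  let 𝒮 : Set (Submodule ℂ (Fin n → ℂ)) := {E | e₀ ∈ E ∧ (∀ v ∈ E, σ v ∈ E) ∧ ∀ a ∈ E, ∀ b ∈ E, wd J a b ∈ 𝔫}
  have hD : ∀ e, e ≠ 0 → σ e = e → e₀ ∈ Dw J 𝔫 e → Dw J 𝔫 e ∈ 𝒮 := by
    intro e he hs h0
    refine ⟨h0, fun v hv => ?_, fun a ha b hb => Dw_sq hJt hL (hq e he hs) ha hb⟩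
    have := hσ _ _ (mem_Dw.1 hv)
    rw [hs] at this
    exact this
  have hne : 𝒮.Nonempty := ⟨_, hD e₀ he0 hσe₀ (by rw [mem_Dw, wd_self]; exact 𝔫.zero_mem)⟩
  obtain ⟨E, hE, hmax⟩ : ∃ E ∈ 𝒮, ∀ E' ∈ 𝒮, ¬ E < E' :=
    WellFounded.has_min (wellFounded_gt (α := Submodule ℂ (Fin n → ℂ))) 𝒮 hne
  obtain ⟨he₀E, hσE, hwE⟩ := hE
  have hDE : ∀ e ∈ E, e ≠ 0 → σ e = e → Dw J 𝔫 e ≤ E := by
    intro e he h0 hs
    have h1 : E ≤ Dw J 𝔫 e := fun v hv => hwE e he v hv
    have h2 := hmax _ (hD e h0 hs (h1 he₀E))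
    by_contra h3
    exact h2 (lt_of_le_of_ne h1 fun h4 => h3 h4.ge)
  have hEdim : 3 ≤ finrank ℂ E := by
    have h1 := Submodule.finrank_mono (hDE e₀ he₀E he0 hσe₀)
    have h2 := hdim e₀
    omega
  have hσom : ∀ e, σ e = e → ∀ v, om J e v = 0 → om J e (σ v) = 0 := by
    intro e he v hv
    have := hJσ e v
    rwa [he, hv, star_zero] at this
  -- orthogonal triples
  have htriple : ∀ e ∈ E, σ e = e → ∃ f ∈ E, ∃ g ∈ E, (f ≠ 0 ∧ σ f = f) ∧ (g ≠ 0 ∧ σ g = g) ∧ om J e f = 0 ∧ om J e g = 0 ∧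
      om J f g = 0 := by
    intro e he hs
    have h1 := inf_ker (J := J) E e
    obtain ⟨f, hf, hf0, hσf⟩ := fixed_of_ne hadd hsmul hinv (W := E ⊓ LinearMap.ker (lf J e)) (fun v hv =>
      ⟨hσE v hv.1, hσom e hs v hv.2⟩) (by
        intro h
        rw [h, finrank_bot] at h1
        omega)
    have h2 := inf_ker (J := J) (E ⊓ LinearMap.ker (lf J e)) f
    obtain ⟨g, hg, hg0, hσg⟩ := fixed_of_ne hadd hsmul hinv (W := (E ⊓ LinearMap.ker (lf J e)) ⊓ LinearMap.ker (lf J f))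
      (fun v hv => ⟨⟨hσE v hv.1.1, hσom e hs v hv.1.2⟩, hσom f hσf v hv.2⟩) (by
        intro h
        rw [h, finrank_bot] at h2
        omega)
    exact ⟨f, hf.1, g, hg.1.1, ⟨hf0, hσf⟩, ⟨hg0, hσg⟩, hf.2, hg.1.2, hg.2⟩
  have hpair : ∀ X ∈ 𝔫, ∀ e ∈ E, ∀ f ∈ E, om J e f = 0 →
      om J f f • wd J (X *ᵥ e) e + om J e e • wd J (X *ᵥ f) f ∈ 𝔫 := by
    intro X hX e he f hf hef
    have hX' := h𝔫 hX
    have hY : wd J e f ∈ 𝔫 := hwE e he f hf
    have hZ := hL _ hX _ hY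
    rw [comm_wd hJt hX'] at hZ
    have hYZ := hL _ hY _ hZ
    have h1 : wd J e f * (wd J (X *ᵥ e) f + wd J e (X *ᵥ f)) - (wd J (X *ᵥ e) f + wd J e (X *ᵥ f)) * wd J e f =
        (wd J e f * wd J (X *ᵥ e) f - wd J (X *ᵥ e) f * wd J e f) +
          (wd J e f * wd J e (X *ᵥ f) - wd J e (X *ᵥ f) * wd J e f) := by
      rw [Matrix.mul_add, Matrix.add_mul]
      abel
    have hfe : om J f e = 0 := by rw [om_symm hJt, hef]
    rw [h1, comm_wd hJt (wd_mem' hJt e f), comm_wd hJt (wd_mem' hJt e f)] at hYZ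
    simp only [wd_mulVec, so_om_self hJt hX', hef, hfe, zero_smul, sub_zero, zero_sub, wd_smul_left, wd_smul_right,
      wd_neg_left, wd_neg_right] at hYZ
    have h2 : om J f f • wd J (X *ᵥ e) e + om J e e • wd J (X *ᵥ f) f =
        (om J f (X *ᵥ e) • wd J e f + om J f f • wd J (X *ᵥ e) e +
          (-(om J e e • wd J f (X *ᵥ f)) + -(om J e (X *ᵥ f) • wd J e f))) -
          (om J f (X *ᵥ e) - om J e (X *ᵥ f)) • wd J e f := by
      rw [wd_swap f (X *ᵥ f), smul_neg, neg_neg, sub_smul]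
      abel
    rw [h2]
    exact 𝔫.sub_mem hYZ (𝔫.smul_mem _ hY)
  have hstab : ∀ X ∈ 𝔫, ∀ v ∈ E, X *ᵥ v ∈ E := by
    intro X hX
    have h1 : E ≤ E.comap (Matrix.mulVecLin X) := by
      refine fixed_span hadd hsmul hinv hσE fun e he hs => ?_
      show X *ᵥ e ∈ E
      by_cases he0 : e = 0
      · rw [he0, mulVec_zero]
        exact E.zero_mem
      obtain ⟨f, hf, g, hg, ⟨hf0, hσf⟩, ⟨hg0, hσg⟩, hef, heg, hfg⟩ := htriple e he hs
      have k1 := hpair X hX e he f hf hef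
      have k2 := hpair X hX e he g hg heg
      have k3 := hpair X hX f hf g hg hfg
      have h2 : (2 * om J f f * om J g g) • wd J (X *ᵥ e) e =
          om J g g • (om J f f • wd J (X *ᵥ e) e + om J e e • wd J (X *ᵥ f) f) +
          om J f f • (om J g g • wd J (X *ᵥ e) e + om J e e • wd J (X *ᵥ g) g) -
          om J e e • (om J g g • wd J (X *ᵥ f) f + om J f f • wd J (X *ᵥ g) g) := by
        module
      have h3 : (2 * om J f f * om J g g) • wd J (X *ᵥ e) e ∈ 𝔫 := by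
        rw [h2]
        exact 𝔫.sub_mem (𝔫.add_mem (𝔫.smul_mem _ k1) (𝔫.smul_mem _ k2)) (𝔫.smul_mem _ k3)
      have h4 := smul_mem_iff' (mul_ne_zero (mul_ne_zero two_ne_zero (hq f hf0 hσf)) (hq g hg0 hσg)) h3
      refine hDE e he he0 hs ?_
      rw [mem_Dw, wd_swap]
      exact 𝔫.neg_mem h4
    exact fun v hv => h1 hv
  have hnd : ∀ v ∈ E, v ∈ orth J E → v = 0 := by
    intro v hv hv'
    by_contra h0
    have h1 := hv' _ (hσE v hv)
    rw [om_symm hJt] at h1
    exact hpos v h0 h1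
  have hEt : E = ⊤ := by
    by_contra hEt
    have hdo := orth_ge (J := J) E
    have hlt := Submodule.finrank_lt hEt
    rw [finrank_fin_fun] at hlt
    have horth : orth J E ≠ ⊥ := by
      intro h
      rw [h, finrank_bot] at hdo
      omega
    obtain ⟨y₀, hy₀, hy₀0⟩ := (Submodule.ne_bot_iff _).1 horth
    have h1 := count (f2w J E (orth J E) e₀ y₀) h𝔫 fun w => (spS J).add_mem (wd_mem' hJt _ _) (wd_mem' hJt _ _)
    have h2 : 𝔫.comap (f2w J E (orth J E) e₀ y₀) ≤ Submodule.span ℂ {((⟨-e₀, E.neg_mem he₀E⟩ : E), (⟨y₀, hy₀⟩ : orth J E))} := by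
      rintro ⟨⟨x, hx⟩, ⟨y, hy⟩⟩ hw
      have hw' : wd J x y₀ + wd J e₀ y ∈ 𝔫 := hw
      have h3 : ∀ z ∈ E, om J x z • y₀ + om J e₀ z • y = 0 := by
        intro z hz
        have h4 := hstab _ hw' z hz
        rw [add_mulVec, wd_mulVec, wd_mulVec, om_symm hJt y₀ z, hy₀ z hz, om_symm hJt y z, hy z hz, zero_smul, zero_smul,
          zero_sub, zero_sub, ← neg_add] at h4
        have h5 := E.neg_mem h4
        rw [neg_neg] at h5
        exact hnd _ h5 ((orth J E).add_mem ((orth J E).smul_mem _ hy₀) ((orth J E).smul_mem _ hy))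
      have hq0 := hq e₀ he0 hσe₀
      have h4 := h3 e₀ he₀E
      set lam := -(om J x e₀) / om J e₀ e₀ with hlam
      have hy' : y = lam • y₀ := by
        have h5 : om J e₀ e₀ • y = -(om J x e₀) • y₀ := by
          rw [neg_smul]
          exact eq_neg_of_add_eq_zero_right h4
        rw [hlam, div_eq_inv_mul, mul_smul, ← h5, smul_smul, inv_mul_cancel₀ hq0, one_smul]
      have hx' : x + lam • e₀ = 0 := by
        refine hnd _ (E.add_mem hx (E.smul_mem _ he₀E)) fun z hz => ?_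
        have h5 := h3 z hz
        rw [hy', smul_smul, ← add_smul] at h5
        have h6 := (smul_eq_zero.1 h5).resolve_right hy₀0
        rw [om_add_right, om_smul_right, om_symm hJt z x, om_symm hJt z e₀, mul_comm lam]
        exact h6
      refine Submodule.mem_span_singleton.2 ⟨lam, ?_⟩
      refine Prod.ext (Subtype.ext ?_) (Subtype.ext ?_)
      · show lam • (-e₀) = x
        rw [smul_neg]
        exact (eq_neg_of_add_eq_zero_left hx').symm
      · exact hy'.symm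
    have h3 := Submodule.finrank_mono h2
    have h4 : finrank ℂ (Submodule.span ℂ {((⟨-e₀, E.neg_mem he₀E⟩ : E), (⟨y₀, hy₀⟩ : orth J E))}) ≤ 1 :=
      (finrank_span_le_card _).trans (by simp)
    rw [finrank_prod] at h1
    omega
  exact hwE u (by rw [hEt]; exact Submodule.mem_top) v (by rw [hEt]; exact Submodule.mem_top)

end main

end Pool.Agent.Helper880_ZP
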