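import Pool.Agent.Helper880_ZP.Ort

/-!
# Ideals of the orthogonal Lie algebras
-/

set_option autoImplicit false
set_option linter.unusedSectionVars false
set_option linter.unusedVariables false

open Matrix Module

namespace Pool.Agent.Helper880_ZP

open Pool.Agent.Helper880_LF (spS mem_spS count om om_add_left om_add_right om_smul_left om_smul_right om_zero_left
  om_zero_right om_sub_left orth mem_orth orth_ge smul_mem_iff' om_nondeg)
open Pool.Agent.Helper880_R3 (wd iso_dim)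

variable {n : ℕ} {J : Matrix (Fin n) (Fin n) ℂ}

theorem exists_om' (hdet : IsUnit J.det) (f : (Fin n → ℂ) →ₗ[ℂ] ℂ) : ∃ y, ∀ w, f w = om J y w := by
  refine ⟨(J⁻¹)ᵀ *ᵥ (fun i => f (Pi.single i 1)), fun w => ?_⟩
  unfold om
  rw [mulVec_transpose, dotProduct_mulVec, vecMul_vecMul, nonsing_inv_mul _ hdet, vecMul_one]
  conv_lhs => rw [LinearMap.pi_apply_eq_sum_univ f w]
  simp only [dotProduct, smul_eq_mul]
  refine Finset.sum_congr rfl fun i _ => ?_
  rw [mul_comm]
  congr 2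
  funext j
  simp [Pi.single_apply, eq_comm]

theorem exists_dual (hdet : IsUnit J.det) {W : Submodule ℂ (Fin n → ℂ)} {u : Fin n → ℂ} (h : u ∉ W) :
    ∃ y, om J y u = 1 ∧ ∀ w ∈ W, om J y w = 0 := by
  obtain ⟨f, hf1, hf2⟩ := Submodule.exists_le_ker_of_notMem h
  obtain ⟨y, hy⟩ := exists_om' hdet f
  refine ⟨(f u)⁻¹ • y, ?_, fun w hw => ?_⟩
  · rw [om_smul_left, ← hy, inv_mul_cancel₀ hf1]
  · rw [om_smul_left, ← hy]
    have : f w = 0 := hf2 hw
    rw [this, mul_zero]

theorem exists_out (hn : 5 ≤ n) (a b : Fin n → ℂ) :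
    ∃ x, om J a x = 0 ∧ om J b x = 0 ∧ x ∉ Submodule.span ℂ {a, b} := by
  by_contra hcon
  push Not at hcon
  have h1 : orth J (Submodule.span ℂ {a, b}) ≤ Submodule.span ℂ {a, b} := by
    intro x hx
    exact hcon x (hx a (Submodule.subset_span (by simp))) (hx b (Submodule.subset_span (by simp)))
  have h2 := Submodule.finrank_mono h1
  have h3 := orth_ge (J := J) (Submodule.span ℂ {a, b})
  have h4 : finrank ℂ (Submodule.span ℂ {a, b}) ≤ 2 :=
    (finrank_span_le_card _).trans (by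
      rw [Set.toFinset_insert, Set.toFinset_singleton]
      exact Finset.card_le_two)
  omega

variable {𝔞 : Submodule ℂ (Matrix (Fin n) (Fin n) ℂ)}

theorem sim1 (hJt : Jᵀ = J) (hdet : IsUnit J.det) (hst : ∀ x ∈ spS J, ∀ y ∈ 𝔞, x * y - y * x ∈ 𝔞) {u v x : Fin n → ℂ}
    (huv : u ∉ Submodule.span ℂ {v}) (h : wd J u v ∈ 𝔞) (hxu : om J x u = 0) (hxv : om J x v = 0) : wd J x v ∈ 𝔞 := by
  obtain ⟨y, hy1, hy2⟩ := exists_dual hdet huv
  have hy3 := hy2 v (Submodule.mem_span_singleton_self v)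
  have h1 := hst _ (wd_mem' hJt x y) _ h
  rw [comm_wd hJt (wd_mem' hJt x y), wd_mulVec, wd_mulVec, hy1, hxu, hy3, hxv, one_smul, zero_smul, zero_smul,
    sub_zero, sub_zero, wd_swap u 0] at h1
  have h2 : wd J (0 : Fin n → ℂ) u = 0 := by
    have := wd_smul_left (J := J) 0 (0 : Fin n → ℂ) u
    rwa [zero_smul, zero_smul] at this
  rwa [h2, neg_zero, add_zero] at h1

theorem sim2 (hJt : Jᵀ = J) (hdet : IsUnit J.det) (hn : 5 ≤ n) (hst : ∀ x ∈ spS J, ∀ y ∈ 𝔞, x * y - y * x ∈ 𝔞)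
    {u v : Fin n → ℂ} (huv : u ∉ Submodule.span ℂ {v}) (h : wd J u v ∈ 𝔞) (w : Fin n → ℂ) (hw : om J w v = 0) :
    wd J w v ∈ 𝔞 := by
  obtain ⟨x, hx1, hx2, hx3⟩ := exists_out (J := J) hn u v
  have hxv := sim1 hJt hdet hst huv h (by rw [om_symm hJt]; exact hx1) (by rw [om_symm hJt]; exact hx2)
  have hxv' : x ∉ Submodule.span ℂ {v} := fun h => hx3 (Submodule.span_mono (by simp) h)
  have hu : u ∉ Submodule.span ℂ {x, v} := by
    intro hu
    rw [Submodule.mem_span_pair] at hu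
    obtain ⟨a, b, hab⟩ := hu
    by_cases ha : a = 0
    · rw [ha, zero_smul, zero_add] at hab
      exact huv (Submodule.mem_span_singleton.2 ⟨b, hab⟩)
    · apply hx3
      rw [Submodule.mem_span_pair]
      refine ⟨a⁻¹, -(a⁻¹ * b), ?_⟩
      rw [← hab, smul_add, smul_smul, inv_mul_cancel₀ ha, one_smul, smul_smul, neg_smul]
      abel
  obtain ⟨y, hy1, hy2⟩ := exists_dual hdet hu
  have hyx := hy2 x (Submodule.subset_span (by simp))
  have hyv := hy2 v (Submodule.subset_span (by simp))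
  have e1 : wd J (w - om J w u • y) v ∈ 𝔞 := by
    refine sim1 hJt hdet hst huv h ?_ ?_
    · rw [om_sub_left, om_smul_left, hy1, mul_one, sub_self]
    · rw [om_sub_left, om_smul_left, hw, hyv, mul_zero, sub_self]
  have e2 : wd J (om J w u • y) v ∈ 𝔞 := by
    refine sim1 hJt hdet hst hxv' hxv ?_ ?_
    · rw [om_smul_left, hyx, mul_zero]
    · rw [om_smul_left, hyv, mul_zero]
  have e3 := 𝔞.add_mem e1 e2
  rwa [← wd_add_left, sub_add_cancel] at e3

/-- **ideals of the orthogonal Lie algebras** -/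
theorem so_simple (hJt : Jᵀ = J) (hdet : IsUnit J.det) (hn : 5 ≤ n) (hst : ∀ x ∈ spS J, ∀ y ∈ 𝔞, x * y - y * x ∈ 𝔞)
    {u v : Fin n → ℂ} (huv : u ∉ Submodule.span ℂ {v}) (hv : v ≠ 0) (h : wd J u v ∈ 𝔞) (x y : Fin n → ℂ) : wd J x y ∈ 𝔞 := by
  have hP : ∀ w, ∀ w', om J w' w = 0 → wd J w' w ∈ 𝔞 := by
    intro w
    obtain ⟨x', hx1, hx2, hx3⟩ := exists_out (J := J) hn v w
    have hx'v : x' ∉ Submodule.span ℂ {v} := fun h => hx3 (Submodule.span_mono (by simp) h)
    have hx'w : x' ∉ Submodule.span ℂ {w} := fun h => hx3 (Submodule.span_mono (by simp) h)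
    have h1 : wd J x' v ∈ 𝔞 := sim2 hJt hdet hn hst huv h x' (by rw [om_symm hJt]; exact hx1)
    have hvx' : v ∉ Submodule.span ℂ {x'} := by
      intro h2
      obtain ⟨c, hc⟩ := Submodule.mem_span_singleton.1 h2
      have hc0 : c ≠ 0 := by
        rintro rfl
        rw [zero_smul] at hc
        exact hv hc.symm
      refine hx'v (Submodule.mem_span_singleton.2 ⟨c⁻¹, ?_⟩)
      rw [← hc, smul_smul, inv_mul_cancel₀ hc0, one_smul]
    have h2 : wd J v x' ∈ 𝔞 := by
      rw [wd_swap]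
      exact 𝔞.neg_mem h1
    have h3 : wd J w x' ∈ 𝔞 := sim2 hJt hdet hn hst hvx' h2 w hx2
    have h4 : wd J x' w ∈ 𝔞 := by
      rw [wd_swap]
      exact 𝔞.neg_mem h3
    exact fun w' hw' => sim2 hJt hdet hn hst hx'w h4 w' hw'
  -- an anisotropic vector orthogonal to `x` and `y`
  obtain ⟨z, hzx, hzy, hzz⟩ : ∃ z, om J x z = 0 ∧ om J y z = 0 ∧ om J z z ≠ 0 := by
    by_contra hcon
    push Not at hcon
    have h1 := iso_dim hdet hJt (W := orth J (Submodule.span ℂ {x, y})) fun z hz => by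
      have h2 := hcon z (hz x (Submodule.subset_span (by simp))) (hz y (Submodule.subset_span (by simp)))
      unfold om at h2
      rwa [dotProduct_mulVec] at h2
    have h3 := orth_ge (J := J) (Submodule.span ℂ {x, y})
    have h4 : finrank ℂ (Submodule.span ℂ {x, y}) ≤ 2 :=
      (finrank_span_le_card _).trans (by
        rw [Set.toFinset_insert, Set.toFinset_singleton]
        exact Finset.card_le_two)
    omega
  have h1 := hP z x hzx
  have h2 := hst _ (wd_mem' hJt z y) _ h1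
  rw [comm_wd hJt (wd_mem' hJt z y), wd_mulVec, wd_mulVec, om_symm hJt z x, hzx, hzy, zero_smul, sub_zero, zero_smul,
    zero_sub, wd_smul_left, wd_self, smul_zero, zero_add, wd_neg_right, wd_smul_right] at h2
  exact smul_mem_iff' hzz (by simpa using 𝔞.neg_mem h2)

end Pool.Agent.Helper880_ZP
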