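import Pool.Agent.Helper880_ZP.Two
import Pool.Agent.Helper880_ZP.Sim

/-!
# Polarised Hodge structures
-/

set_option autoImplicit false
set_option linter.unusedSectionVars false
set_option linter.unusedVariables false

open Matrix Module

namespace Pool.Agent.Helper880_ZP

open Pool.Agent.Helper880_LF (spS mem_spS count om om_add_left om_add_right om_smul_left om_smul_right om_zero_left
  om_zero_right om_sub_left orth mem_orth orth_ge smul_mem_iff' om_nondeg pr pr_mem comm_pr om_swap simple pr_smul_left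
  pr_smul_right pr_mulVec mem_of_pr)
open Pool.Agent.Helper880_R3 (wd lieB mem_lieB so_span)

variable {n : ℕ} {J φ R : Matrix (Fin n) (Fin n) ℂ} {lev : Fin n → ℤ} {w : ℤ}

/-- `φ` gives a Hodge structure of weight `w` which is polarised by the form `J` -/
structure Pol (w : ℤ) (J φ : Matrix (Fin n) (Fin n) ℂ) : Prop where
  /-- conjugation -/
  conj : mbar φ = (w : ℂ) • (1 : Matrix (Fin n) (Fin n) ℂ) - φ
  /-- compatibility -/
  skew : φᵀ * J + J * φ = (w : ℂ) • J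
  /-- the form is real -/
  real : mbar J = J
  /-- positivity -/
  pos : ∀ v, v ≠ 0 → ∀ a : ℤ, φ *ᵥ v = (a : ℂ) • v → 0 < (Complex.I ^ (2 * a - w) * om J v (star v)).re

theorem Pol.conj_eig (hp : Pol w J φ) {v : Fin n → ℂ} {a : ℤ} (hv : φ *ᵥ v = (a : ℂ) • v) :
    φ *ᵥ star v = ((w - a : ℤ) : ℂ) • star v := by
  have h1 := mbar_mulVec φ v
  rw [hv, hp.conj, sub_mulVec, smul_mulVec, one_mulVec, star_smul] at h1
  have h2 : star ((a : ℤ) : ℂ) = (a : ℂ) := map_intCast (starRingEnd ℂ) a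
  rw [h2] at h1
  push_cast
  rw [sub_smul, h1]
  abel

theorem Pol.om_eig (hp : Pol w J φ) {u v : Fin n → ℂ} {a b : ℤ} (hu : φ *ᵥ u = (a : ℂ) • u) (hv : φ *ᵥ v = (b : ℂ) • v)
    (hab : a + b ≠ w) : om J u v = 0 := by
  have h1 : om J (φ *ᵥ u) v + om J u (φ *ᵥ v) = (w : ℂ) * om J u v := by
    unfold om
    rw [← smul_eq_mul, ← dotProduct_smul, ← smul_mulVec, ← hp.skew, add_mulVec, dotProduct_add]
    congr 1
    · rw [← mulVec_mulVec, ← vecMul_transpose, ← dotProduct_mulVec]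
    · rw [mulVec_mulVec]
  rw [hu, hv, om_smul_left, om_smul_right] at h1
  have h2 : (((a + b - w : ℤ)) : ℂ) * om J u v = 0 := by
    push_cast
    linear_combination h1
  exact (mul_eq_zero.1 h2).resolve_left (Int.cast_ne_zero.2 (by omega))

/-- the Hodge operator of weight zero -/
noncomputable def Ph (w : ℤ) (φ : Matrix (Fin n) (Fin n) ℂ) : Matrix (Fin n) (Fin n) ℂ := φ - ((w : ℂ) / 2) • 1

theorem Ph_comm (X : Matrix (Fin n) (Fin n) ℂ) : Ph w φ * X - X * Ph w φ = φ * X - X * φ := by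
  unfold Ph
  rw [Matrix.sub_mul, Matrix.mul_sub, Matrix.smul_mul, Matrix.mul_smul, Matrix.one_mul, Matrix.mul_one]
  abel

theorem Ph_mulVec (v : Fin n → ℂ) : Ph w φ *ᵥ v = φ *ᵥ v - ((w : ℂ) / 2) • v := by
  unfold Ph
  rw [sub_mulVec, smul_mulVec, one_mulVec]

theorem Pol.Ph_mem (hp : Pol w J φ) : Ph w φ ∈ spS J := by
  rw [mem_spS]
  unfold Ph
  rw [transpose_sub, transpose_smul, transpose_one, Matrix.sub_mul, Matrix.mul_sub, Matrix.smul_mul, Matrix.mul_smul,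
    Matrix.one_mul, Matrix.mul_one]
  have h1 := hp.skew
  calc φᵀ * J - ((w : ℂ) / 2) • J + (J * φ - ((w : ℂ) / 2) • J) = (φᵀ * J + J * φ) - (w : ℂ) • J := by
        module
    _ = 0 := by rw [h1, sub_self]

theorem st_of_Ph {S : Submodule ℂ (Fin n → ℂ)} (h : ∀ v ∈ S, Ph w φ *ᵥ v ∈ S) : ∀ v ∈ S, φ *ᵥ v ∈ S := by
  intro v hv
  have h1 := S.add_mem (h v hv) (S.smul_mem ((w : ℂ) / 2) hv)
  rwa [Ph_mulVec, sub_add_cancel] at h1

theorem om_star_re (hp : Pol w J φ) {ε : ℝ} (hJ : Jᵀ = (ε : ℂ) • J) (v : Fin n → ℂ) :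
    star (om J v (star v)) = (ε : ℂ) * om J v (star v) := by
  have h1 := om_bar hp.real v (star v)
  rw [star_star] at h1
  rw [← h1]
  have h2 : om J (star v) v = om Jᵀ v (star v) := by
    unfold om
    rw [dotProduct_mulVec, ← mulVec_transpose, dotProduct_comm]
  rw [h2, hJ]
  unfold om
  rw [smul_mulVec, dotProduct_smul, smul_eq_mul]

/-- parity in the alternating case -/
theorem Pol.alt (hp : Pol w J φ) (hJ : Jᵀ = -J) {v : Fin n → ℂ} (hv0 : v ≠ 0) {a : ℤ} (hv : φ *ᵥ v = (a : ℂ) • v) :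
    2 * a ≠ w := by
  intro h
  have h1 := hp.pos v hv0 a hv
  have h2 := om_star_re hp (ε := -1) (by rw [hJ]; push_cast; rw [neg_one_smul]) v
  rw [h, sub_self, zpow_zero, one_mul] at h1
  have h3 := congrArg Complex.re h2
  have h4 : (star (om J v (star v))).re = (om J v (star v)).re := Complex.conj_re _
  rw [h4] at h3
  push_cast at h3
  rw [neg_one_mul, Complex.neg_re] at h3
  linarith

theorem Pol.aniso (hp : Pol w J φ) (he : Eig lev R φ) (S : Submodule ℂ (Fin n → ℂ)) (hS : ∀ v ∈ S, Ph w φ *ᵥ v ∈ S)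
    (hS' : ∀ v ∈ S, star v ∈ S) (hS0 : ∀ a ∈ S, ∀ b ∈ S, om J a b = 0) : S = ⊥ := by
  have h1 := vec_span he (st_of_Ph hS)
  rw [eq_bot_iff]
  refine h1.trans ?_
  rw [Submodule.span_le]
  rintro v ⟨hv, q, hq⟩
  by_contra h0
  have h2 := hp.pos v h0 q hq
  rw [hS0 v hv _ (hS' v hv), mul_zero, Complex.zero_re] at h2
  exact lt_irrefl _ h2

section alt
variable {𝔫 : Submodule ℂ (Matrix (Fin n) (Fin n) ℂ)}

theorem Pol.full1 (hp : Pol w J φ) (he : Eig lev R φ) (hJ : Jᵀ = -J) (hdet : IsUnit J.det) (h𝔫 : 𝔫 ≤ spS J)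
    (hbr : ∀ x ∈ 𝔫, ∀ y ∈ 𝔫, x * y - y * x ∈ 𝔫) (hbar : ∀ y ∈ 𝔫, mbar y ∈ 𝔫) (hφ : ∀ y ∈ 𝔫, φ * y - y * φ ∈ 𝔫) {r : ℕ}
    (hcod : finrank ℂ (spS J) ≤ finrank ℂ 𝔫 + r) (hr : r < n) : spS J ≤ 𝔫 :=
  sp_full1 hJ hdet h𝔫 hbr hp.real hbar hp.Ph_mem (fun y hy => by rw [Ph_comm]; exact hφ y hy) (hp.aniso he) hcod hr

/-- the sum of the eigenspaces for the eigenvalues smaller than `w / 2` -/
def Lm (w : ℤ) (φ : Matrix (Fin n) (Fin n) ℂ) : Submodule ℂ (Fin n → ℂ) :=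
  Submodule.span ℂ {v | ∃ q : ℤ, 2 * q < w ∧ φ *ᵥ v = (q : ℂ) • v}

/-- the sum of the eigenspaces for the eigenvalues larger than `w / 2` -/
def Lp (w : ℤ) (φ : Matrix (Fin n) (Fin n) ℂ) : Submodule ℂ (Fin n → ℂ) :=
  Submodule.span ℂ {v | ∃ q : ℤ, w < 2 * q ∧ φ *ᵥ v = (q : ℂ) • v}

theorem om_span {S T : Set (Fin n → ℂ)} (h : ∀ a ∈ S, ∀ b ∈ T, om J a b = 0) :
    ∀ a ∈ Submodule.span ℂ S, ∀ b ∈ Submodule.span ℂ T, om J a b = 0 := by
  intro a ha b hb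
  induction ha using Submodule.span_induction with
  | mem a ha =>
    induction hb using Submodule.span_induction with
    | mem b hb => exact h a ha b hb
    | zero => exact om_zero_right _
    | add b c _ _ hb hc => rw [om_add_right, hb, hc, add_zero]
    | smul c b _ hb => rw [om_smul_right, hb, mul_zero]
  | zero => exact om_zero_left _
  | add a c _ _ ha hc => rw [om_add_left, ha, hc, add_zero]
  | smul c a _ ha => rw [om_smul_left, ha, mul_zero]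

theorem Pol.full2 (hp : Pol w J φ) (he : Eig lev R φ) (hJ : Jᵀ = -J) (hdet : IsUnit J.det) (h𝔫 : 𝔫 ≤ spS J)
    (hbr : ∀ x ∈ 𝔫, ∀ y ∈ 𝔫, x * y - y * x ∈ 𝔫) (hbar : ∀ y ∈ 𝔫, mbar y ∈ 𝔫) (hφ : ∀ y ∈ 𝔫, φ * y - y * φ ∈ 𝔫) {r : ℕ}
    (hcod : finrank ℂ (sq J (Lm w φ)) ≤ finrank ℂ (sq J (Lm w φ) ⊓ 𝔫 : Submodule ℂ (Matrix (Fin n) (Fin n) ℂ)) + r)
    (hr : 2 * r + 4 ≤ n) : spS J ≤ 𝔫 := by
  refine sp_full2 hJ hdet h𝔫 hbr hp.real hbar hp.Ph_mem (fun y hy => by rw [Ph_comm]; exact hφ y hy) (hp.aniso he)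
    (L := Lm w φ) (L' := Lp w φ) ?_ ?_ ?_ hcod hr
  · refine om_span ?_
    rintro a ⟨q, hq, ha⟩ b ⟨q', hq', hb⟩
    exact hp.om_eig ha hb (by omega)
  · refine om_span ?_
    rintro a ⟨q, hq, ha⟩ b ⟨q', hq', hb⟩
    exact hp.om_eig ha hb (by omega)
  · intro S hS
    refine (vec_span he (st_of_Ph hS)).trans ?_
    rw [Submodule.span_le]
    rintro v ⟨hv, q, hq⟩
    by_cases hv0 : v = 0
    · rw [hv0]
      exact Submodule.zero_mem _
    have h1 := hp.alt hJ hv0 hq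
    rcases lt_or_gt_of_ne h1 with h2 | h2
    · exact Submodule.mem_sup_left ⟨hv, Submodule.subset_span ⟨q, h2, hq⟩⟩
    · exact Submodule.mem_sup_right ⟨hv, Submodule.subset_span ⟨q, h2, hq⟩⟩

theorem Pol.comm_pr (hp : Pol w J φ) (hJ : Jᵀ = -J) {u v : Fin n → ℂ} {a b : ℤ} (hu : φ *ᵥ u = (a : ℂ) • u)
    (hv : φ *ᵥ v = (b : ℂ) • v) : φ * pr J u v - pr J u v * φ = ((a + b - w : ℤ) : ℂ) • pr J u v := by
  rw [← Ph_comm (w := w), Pool.Agent.Helper880_LF.comm_pr hJ hp.Ph_mem, Ph_mulVec, Ph_mulVec, hu, hv, ← sub_smul,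
    ← sub_smul, pr_smul_left, pr_smul_right, ← add_smul]
  congr 1
  push_cast
  ring

/-- products of vectors of small degree are homogeneous of negative degree -/
theorem Pol.sq_neg (hp : Pol w J φ) (hJ : Jᵀ = -J) :
    sq J (Lm w φ) ≤ Submodule.span ℂ {X | X ∈ spS J ∧ ∃ c : ℤ, c < 0 ∧ φ * X - X * φ = (c : ℂ) • X} := by
  unfold sq
  rw [Submodule.span_le]
  rintro _ ⟨a, ha, b, hb, rfl⟩
  unfold Lm at ha hb
  induction ha using Submodule.span_induction with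
  | mem a ha =>
    induction hb using Submodule.span_induction with
    | mem b hb =>
      obtain ⟨q, hq, ha⟩ := ha
      obtain ⟨q', hq', hb⟩ := hb
      exact Submodule.subset_span ⟨pr_mem hJ a b, q + q' - w, by omega, hp.comm_pr hJ ha hb⟩
    | zero =>
      have h1 : pr J a 0 = 0 := by
        rw [Pool.Agent.Helper880_LF.pr_symm, Pool.Agent.Helper880_LF.pr_zero_left]
      rw [h1]
      exact Submodule.zero_mem _
    | add b c _ _ hb hc =>
      rw [Pool.Agent.Helper880_LF.pr_add_right]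
      exact Submodule.add_mem _ hb hc
    | smul c b _ hb =>
      rw [pr_smul_right]
      exact Submodule.smul_mem _ _ hb
  | zero =>
    rw [Pool.Agent.Helper880_LF.pr_zero_left]
    exact Submodule.zero_mem _
  | add a c _ _ ha hc =>
    rw [Pool.Agent.Helper880_LF.pr_add_left]
    exact Submodule.add_mem _ ha hc
  | smul c a _ ha =>
    rw [pr_smul_left]
    exact Submodule.smul_mem _ _ ha

/-- there is an eigenvector -/
theorem Eig.exists_vec (he : Eig lev R φ) (hn : 0 < n) : ∃ (v : Fin n → ℂ) (a : ℤ), v ≠ 0 ∧ φ *ᵥ v = (a : ℂ) • v := by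
  by_contra hcon
  push Not at hcon
  have h1 := vec_span he (S := ⊤) fun v _ => Submodule.mem_top
  have h2 : (⊤ : Submodule ℂ (Fin n → ℂ)) ≤ ⊥ := by
    refine h1.trans ?_
    rw [Submodule.span_le]
    rintro v ⟨-, q, hq⟩
    by_contra h0
    exact hcon v q h0 hq
  have h3 := Submodule.finrank_mono h2
  rw [finrank_top, finrank_bot, finrank_fin_fun] at h3
  omega

/-- ideals -/
theorem Pol.ideal (hp : Pol w J φ) (he : Eig lev R φ) (hn : 0 < n) (hJ : Jᵀ = -J) (hdet : IsUnit J.det)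
    {𝔞 : Submodule ℂ (Matrix (Fin n) (Fin n) ℂ)} (hst : ∀ x ∈ spS J, ∀ y ∈ 𝔞, x * y - y * x ∈ 𝔞)
    (hφ : ∀ x ∈ spS J, φ * x - x * φ ∈ 𝔞) : spS J ≤ 𝔞 := by
  obtain ⟨v, a, hv0, hv⟩ := he.exists_vec hn
  have h1 := hφ _ (pr_mem hJ v v)
  rw [hp.comm_pr hJ hv hv] at h1
  have h2 := hp.alt hJ hv0 hv
  have h3 : ((a + a - w : ℤ) : ℂ) ≠ 0 := Int.cast_ne_zero.2 (by omega)
  refine simple hJ hdet hst ((Submodule.smul_mem_iff 𝔞 h3).1 h1) (pr_mem hJ v v) ?_
  intro h0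
  obtain ⟨u, hu⟩ : ∃ u, om J u v ≠ 0 := by
    by_contra hcon
    push Not at hcon
    exact hv0 (om_nondeg hdet hcon)
  have h4 : pr J v v *ᵥ u = 0 := by rw [h0, zero_mulVec]
  rw [pr_mulVec, ← two_smul ℂ, smul_smul] at h4
  rcases smul_eq_zero.1 h4 with h5 | h5
  · rcases mul_eq_zero.1 h5 with h6 | h6
    · exact two_ne_zero h6
    · apply hu
      rw [om_swap hJ, h6, neg_zero]
  · exact hv0 h5

end alt

end Pool.Agent.Helper880_ZP
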