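import Pool.Agent.Helper880_ZP.Tra

/-!
# Two relations between period matrices and spaces of matrices
-/

set_option autoImplicit false
set_option linter.unusedSectionVars false
set_option linter.unusedVariables false
set_option maxHeartbeats 400000

open Matrix Module Filter

namespace Pool.Agent.Helper880_ZP

open Pool.Agent.Helper880_R3
open Pool.Agent.Helper880_LF.NB hiding alg_core nrm
open Pool.Agent.Y118.UL (mk mk_eq mk_eq_zero mk_ne_zero mk_surj ev_ge eval_mk rep qc qc_mk algebraMap_eq U)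

/-- the rational numbers in the field of complex numbers -/
noncomputable def K₀ : Subfield ℂ := (algebraMap ℚ ℂ).fieldRange

theorem mem_K₀ {x : ℂ} : x ∈ K₀ ↔ ∃ q : ℚ, x = q := by
  unfold K₀
  rw [RingHom.mem_fieldRange]
  constructor
  · rintro ⟨q, rfl⟩
    exact ⟨q, by simp⟩
  · rintro ⟨q, rfl⟩
    exact ⟨q, by simp⟩

theorem K₀_fin : FiniteDimensional ℚ K₀ ∧ finrank ℚ K₀ ≤ 1 := by
  let f : ℚ →ₗ[ℚ] K₀ :=
    { toFun := fun q => ⟨(q : ℂ), mem_K₀.2 ⟨q, rfl⟩⟩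
      map_add' := fun a b => Subtype.ext (by push_cast; rfl)
      map_smul' := fun a b => by
        apply Subtype.ext
        rw [smul_eq_mul, RingHom.id_apply]
        show (((a * b : ℚ)) : ℂ) = ((a • (⟨(b : ℂ), mem_K₀.2 ⟨b, rfl⟩⟩ : K₀) : K₀) : ℂ)
        rw [Rat.smul_def]
        push_cast
        rfl }
  have hf : Function.Surjective f := by
    rintro ⟨x, hx⟩
    obtain ⟨q, rfl⟩ := mem_K₀.1 hx
    exact ⟨q, rfl⟩
  refine ⟨Module.Finite.of_surjective f hf, ?_⟩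
  have h1 := LinearMap.finrank_le_finrank_of_surjective (f := f) hf
  rwa [Module.finrank_self] at h1

variable {B : Type} [Fintype B] [DecidableEq B]

theorem gm_Dg (lev : B → ℤ) : gm (fun _ : ℕ => Dg ℂ lev) = Dg (U ℂ) lev := by
  ext a b
  rw [gm_apply]
  unfold Dg
  by_cases h : a = b
  · subst h
    simp only [Matrix.diagonal_apply_eq]
    have h1 : (fun _ : ℕ => ((lev a : ℤ) : ℂ)) = ((lev a : ℤ) : ℕ → ℂ) := rfl
    rw [h1, map_intCast]
  · simp only [Matrix.diagonal_apply_ne _ h]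
    exact map_zero (mk ℂ)

theorem gm_up {lev : B → ℤ} {V : ℕ → Matrix B B ℂ} (h : ∀ k, V k ∈ upS ℂ lev) : gm V ∈ upS (U ℂ) lev := by
  intro a b hab
  rw [gm_apply]
  have h1 : (fun t => V t a b) = 0 := funext fun k => h k a b hab
  rw [h1, map_zero]

theorem Us_pp {lev : B → ℤ} {P : ℕ → Matrix B B ℂ} (hP : ∀ k, (P k).det ≠ 0) :
    cjS (gm P) (ppS (U ℂ) lev) ≤ Us fun k => cjS (P k) (ppS ℂ lev) := by
  intro X hX
  obtain ⟨F, rfl⟩ := gm_surj X
  rw [mem_cjS, gm_inv hP, ← gm_mul, ← gm_mul] at hX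
  rw [mem_Us]
  have h1 : ∀ᶠ k in (hyperfilter ℕ : Filter ℕ), ∀ a b, lev a < lev b → ((P k)⁻¹ * F k * P k) a b = 0 := by
    refine Filter.eventually_all.2 fun a => Filter.eventually_all.2 fun b => ?_
    by_cases hab : lev a < lev b
    · have h2 := hX a b hab
      rw [gm_apply] at h2
      filter_upwards [mk_eq_zero.1 h2] with k hk _
      exact hk
    · exact Filter.Eventually.of_forall fun k h => absurd h hab
  filter_upwards [h1] with k hk
  exact hk

variable {n N r₀ : ℕ}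

/-- the space is closed under commutators -/
def Lie' (𝔥 : Submodule ℂ (Matrix B B ℂ)) : Prop := ∀ X ∈ 𝔥, ∀ Y ∈ 𝔥, X * Y - Y * X ∈ 𝔥

/-- `R` is the sum of a rational Lie algebra which contains a splitting of the filtration and of the stabiliser of the
filtration. -/
def RelA (lev : Ix r₀ n N → ℤ) (P : Matrix (Ix r₀ n N) (Ix r₀ n N) ℂ) (R : Submodule ℂ (Matrix (Ix r₀ n N) (Ix r₀ n N) ℂ)) :
    Prop :=
  IsUnit P.det ∧ ∃ 𝔥, DefOver K₀ 𝔥 ∧ Lie' 𝔥 ∧ (∃ φ ∈ 𝔥, ∃ V ∈ upS ℂ lev, φ * (P * (1 + V)) = P * (1 + V) * Dg ℂ lev) ∧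
    R = 𝔥 ⊔ cjS P (ppS ℂ lev)

theorem compat_A (lev : Ix r₀ n N → ℤ) : Compat (RelA lev) := by
  refine ⟨?_, fun P R hP h δ => ?_⟩
  · rintro P R ⟨hP, 𝔥, -, -, -, rfl⟩
    refine Submodule.mem_sup_right ?_
    rw [mem_cjS, Matrix.mul_one, nonsing_inv_mul _ hP]
    exact one_pp
  · choose h0 𝔥 h1 h2 h3 h4 using h
    choose φ h5 V h6 h7 using h3
    have h8 : dm δ (gm P) * (gm P)⁻¹ ∈ Us 𝔥 ⊔ cjS (gm P) (ppS (U ℂ) lev) := by
      refine core_der δ (φ := gm φ) (V := gm V) ?_ ?_ (gm_unit hP) (mem_Us_of h5) (gm_up h6) ?_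
      · intro Y hY
        exact Us_der (K := fun _ => K₀) (D := 1) (fun _ => K₀_fin.1) (fun _ => K₀_fin.2) h1 δ hY
      · rintro _ ⟨F, rfl, hF⟩ _ ⟨F', rfl, hF'⟩
        rw [← gm_mul, ← gm_mul, ← gm_sub]
        exact mem_Us_of fun k => h2 k _ (hF k) _ (hF' k)
      · rw [← gm_Dg, ← gm_one, ← gm_add, ← gm_mul, ← gm_mul, ← gm_mul]
        congr 1
        funext k
        exact h7 k
    have h9 : Us 𝔥 ⊔ cjS (gm P) (ppS (U ℂ) lev) ≤ Us R := by
      refine sup_le (Us_mono fun k => ?_) ((Us_pp hP).trans (Us_mono fun k => ?_))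
      · rw [h4 k]
        exact le_sup_left
      · rw [h4 k]
        exact le_sup_right
    exact h9 h8

/-- the space in de Rham coordinates -/
def dR (P : Matrix B B ℂ) (W : Submodule ℂ (Matrix B B ℂ)) : Submodule ℂ (Matrix B B ℂ) where
  carrier := {X | P * X * P⁻¹ ∈ W}
  zero_mem' := by
    show P * 0 * P⁻¹ ∈ W
    rw [Matrix.mul_zero, Matrix.zero_mul]
    exact W.zero_mem
  add_mem' := by
    intro X Y hX hY
    show P * (X + Y) * P⁻¹ ∈ W
    rw [Matrix.mul_add, Matrix.add_mul]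
    exact W.add_mem hX hY
  smul_mem' := by
    intro c X hX
    show P * (c • X) * P⁻¹ ∈ W
    rw [Matrix.mul_smul, Matrix.smul_mul]
    exact W.smul_mem c hX

theorem mem_dR {P X : Matrix B B ℂ} {W : Submodule ℂ (Matrix B B ℂ)} : X ∈ dR P W ↔ P * X * P⁻¹ ∈ W := Iff.rfl

/-- `R` is the normaliser of a space which is rational in Betti coordinates and defined over a number field in de Rham
coordinates. -/
def RelN (D : ℕ) (P : Matrix (Ix r₀ n N) (Ix r₀ n N) ℂ) (R : Submodule ℂ (Matrix (Ix r₀ n N) (Ix r₀ n N) ℂ)) : Prop :=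
  ∃ 𝔥, DefOver K₀ 𝔥 ∧ (∃ K : Subfield ℂ, FiniteDimensional ℚ K ∧ finrank ℚ K ≤ D ∧ DefOver K (dR P 𝔥)) ∧ R = nrm 𝔥

theorem compat_N (D : ℕ) : Compat (RelN (n := n) (N := N) (r₀ := r₀) D) := by
  refine ⟨?_, fun P R hP h δ => ?_⟩
  · rintro P R ⟨𝔥, -, -, rfl⟩
    intro Y hY
    rw [Matrix.one_mul, Matrix.mul_one, sub_self]
    exact 𝔥.zero_mem
  · choose 𝔥 h1 h2 h3 using h
    choose K h4 h5 h6 using h2
    have hPu : ∀ k, IsUnit (P k).det := fun k => isUnit_iff_ne_zero.2 (hP k)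
    have h8 : dm δ (gm P) * (gm P)⁻¹ ∈ nrm (Us 𝔥) := by
      refine core_nrm δ (𝔮 := Us fun k => dR (P k) (𝔥 k)) ?_ ?_ (gm_unit hP) ?_ ?_
      · intro Y hY
        exact Us_der (K := fun _ => K₀) (D := 1) (fun _ => K₀_fin.1) (fun _ => K₀_fin.2) h1 δ hY
      · intro Y hY
        exact Us_der h4 h5 h6 δ hY
      · rintro _ ⟨F, rfl, hF⟩
        rw [gm_inv hP, ← gm_mul, ← gm_mul]
        refine mem_Us_of fun k => ?_
        rw [mem_dR]
        have h9 := (cjE (hPu k)).right_inv (F k)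
        have h10 : P k * ((P k)⁻¹ * F k * P k) * (P k)⁻¹ = F k := h9
        rw [h10]
        exact hF k
      · rintro _ ⟨F, rfl, hF⟩
        rw [gm_inv hP, ← gm_mul, ← gm_mul]
        exact mem_Us_of fun k => hF k
    obtain ⟨F, hF⟩ := gm_surj (dm δ (gm P) * (gm P)⁻¹)
    rw [← hF] at h8 ⊢
    rw [mem_Us]
    by_contra hcon
    rw [← Ultrafilter.eventually_not] at hcon
    have h9 : ∀ k, ∃ Y ∈ 𝔥 k, F k ∉ R k → F k * Y - Y * F k ∉ 𝔥 k := by
      intro k
      by_cases hk : F k ∈ R k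
      · exact ⟨0, (𝔥 k).zero_mem, fun h => absurd hk h⟩
      · have hk' := hk
        rw [h3 k, mem_nrm] at hk'
        push Not at hk'
        obtain ⟨Y, hY1, hY2⟩ := hk'
        exact ⟨Y, hY1, fun _ => hY2⟩
    choose Y hY1 hY2 using h9
    have h10 := h8 (gm Y) (mem_Us_of hY1)
    rw [← gm_mul, ← gm_mul, ← gm_sub, mem_Us] at h10
    obtain ⟨k, hk1, hk2⟩ := (h10.and hcon).exists
    exact hY2 k hk2 hk1

end Pool.Agent.Helper880_ZP
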