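import Pool.Agent.Helper880_ZP.Spl

/-!
# Self-adjoint subalgebras of the symplectic Lie algebras: conclusions
-/

set_option autoImplicit false
set_option linter.unusedSectionVars false
set_option linter.unusedVariables false

open Matrix Module

namespace Pool.Agent.Helper880_ZP

open Pool.Agent.Helper880_LF

variable {n : ℕ} {J : Matrix (Fin n) (Fin n) ℂ} {𝔫 : Submodule ℂ (Matrix (Fin n) (Fin n) ℂ)}

/-- complex conjugation of matrices -/
def mbar {B B' : Type} (X : Matrix B B' ℂ) : Matrix B B' ℂ := X.map star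

theorem mbar_mul {B : Type} [Fintype B] (X Y : Matrix B B ℂ) : mbar (X * Y) = mbar X * mbar Y :=
  Matrix.map_mul (f := starRingEnd ℂ)

theorem mbar_add {B : Type} (X Y : Matrix B B ℂ) : mbar (X + Y) = mbar X + mbar Y := by
  ext i j
  exact star_add _ _

theorem mbar_sub {B : Type} (X Y : Matrix B B ℂ) : mbar (X - Y) = mbar X - mbar Y := by
  ext i j
  exact star_sub _ _

theorem mbar_mbar {B : Type} (X : Matrix B B ℂ) : mbar (mbar X) = X := by
  ext i j
  exact star_star _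

theorem mbar_smul {B : Type} (c : ℂ) (X : Matrix B B ℂ) : mbar (c • X) = star c • mbar X := by
  ext i j
  exact star_mul' _ _

theorem mbar_mulVec {B : Type} [Fintype B] (X : Matrix B B ℂ) (v : B → ℂ) : star (X *ᵥ v) = mbar X *ᵥ star v := by
  funext i
  simp only [mulVec, dotProduct, Pi.star_apply, mbar, Matrix.map_apply]
  rw [star_sum]
  exact Finset.sum_congr rfl fun j _ => star_mul' _ _

theorem om_bar (hJr : mbar J = J) (u v : Fin n → ℂ) : om J (star u) (star v) = star (om J u v) := by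
  unfold om
  have h1 : J *ᵥ star v = star (J *ᵥ v) := by rw [mbar_mulVec, hJr]
  rw [h1]
  unfold dotProduct
  rw [star_sum]
  exact Finset.sum_congr rfl fun j _ => (star_mul' _ _).symm

theorem pr_bar (hJr : mbar J = J) (u v : Fin n → ℂ) : pr J (star u) (star v) = mbar (pr J u v) := by
  unfold pr
  rw [mbar_mul, hJr]
  congr 1
  ext i j
  simp [mbar, vecMulVec_apply, mul_comm]

theorem spS_bar (hJr : mbar J = J) {X : Matrix (Fin n) (Fin n) ℂ} (hX : X ∈ spS J) : mbar X ∈ spS J := by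
  rw [mem_spS] at hX ⊢
  have h1 := congrArg mbar hX
  rw [mbar_add, mbar_mul, mbar_mul, hJr] at h1
  have h2 : mbar (Xᵀ) = (mbar X)ᵀ := rfl
  have h3 : mbar (0 : Matrix (Fin n) (Fin n) ℂ) = 0 := by
    ext i j
    exact star_zero _
  rw [h2, h3] at h1
  exact h1

theorem nrm_bar (hbar : ∀ y ∈ 𝔫, mbar y ∈ 𝔫) {X : Matrix (Fin n) (Fin n) ℂ} (h : ∀ y ∈ 𝔫, X * y - y * X ∈ 𝔫) :
    ∀ y ∈ 𝔫, mbar X * y - y * mbar X ∈ 𝔫 := by
  intro y hy
  have h1 := hbar _ (h _ (hbar y hy))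
  rwa [mbar_sub, mbar_mul, mbar_mul, mbar_mbar] at h1

theorem orth_st {E : Submodule ℂ (Fin n → ℂ)} {X : Matrix (Fin n) (Fin n) ℂ} (hX : X ∈ spS J) (h : ∀ v ∈ E, X *ᵥ v ∈ E) :
    ∀ c ∈ orth J E, X *ᵥ c ∈ orth J E := by
  intro c hc s hs
  rw [sp_om hX, hc _ (h s hs), neg_zero]

/-- **a nondegenerate subspace whose symmetric square is in the algebra** -/
theorem exists_nd (hJ : Jᵀ = -J) (h𝔫 : 𝔫 ≤ spS J) (hbr : ∀ x ∈ 𝔫, ∀ y ∈ 𝔫, x * y - y * x ∈ 𝔫)
    (hJr : mbar J = J) (hbar : ∀ y ∈ 𝔫, mbar y ∈ 𝔫) {Φ : Matrix (Fin n) (Fin n) ℂ} (hΦ : Φ ∈ spS J)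
    (hΦn : ∀ y ∈ 𝔫, Φ * y - y * Φ ∈ 𝔫)
    (haniso : ∀ S : Submodule ℂ (Fin n → ℂ), (∀ v ∈ S, Φ *ᵥ v ∈ S) → (∀ v ∈ S, star v ∈ S) →
      (∀ a ∈ S, ∀ b ∈ S, om J a b = 0) → S = ⊥) {v : Fin n → ℂ} (hv0 : v ≠ 0) (hv : pr J v v ∈ 𝔫) :
    ∃ E : Submodule ℂ (Fin n → ℂ), E ≠ ⊥ ∧ (∀ a ∈ E, ∀ b ∈ E, pr J a b ∈ 𝔫) ∧
      (∀ X ∈ spS J, (∀ y ∈ 𝔫, X * y - y * X ∈ 𝔫) → ∀ v ∈ E, X *ᵥ v ∈ E) ∧ ∀ a ∈ E, a ∈ orth J E → a = 0 := by
  -- two non-orthogonal squares
  have hpair : ∃ v w : Fin n → ℂ, pr J v v ∈ 𝔫 ∧ pr J w w ∈ 𝔫 ∧ om J v w ≠ 0 := by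
    by_contra hcon
    push Not at hcon
    set S := Submodule.span ℂ {w : Fin n → ℂ | pr J w w ∈ 𝔫} with hS
    have h1 : S = ⊥ := by
      refine haniso S ?_ ?_ ?_
      · intro s hs
        induction hs using Submodule.span_induction with
        | mem s hs => exact span_stable' hJ hΦ hΦn hs
        | zero => rw [mulVec_zero]; exact S.zero_mem
        | add a b _ _ ha hb => rw [mulVec_add]; exact S.add_mem ha hb
        | smul c a _ ha => rw [mulVec_smul]; exact S.smul_mem c ha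
      · intro s hs
        induction hs using Submodule.span_induction with
        | mem s hs =>
          refine Submodule.subset_span ?_
          show pr J (star s) (star s) ∈ 𝔫
          rw [pr_bar hJr]
          exact hbar _ hs
        | zero => rw [star_zero]; exact S.zero_mem
        | add a b _ _ ha hb => rw [star_add]; exact S.add_mem ha hb
        | smul c a _ ha => rw [star_smul]; exact S.smul_mem _ ha
      · intro a ha b hb
        induction ha using Submodule.span_induction with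
        | mem a ha =>
          induction hb using Submodule.span_induction with
          | mem b hb => exact hcon a b ha hb
          | zero => exact om_zero_right _
          | add b c _ _ hb hc => rw [om_add_right, hb, hc, add_zero]
          | smul c b _ hb => rw [om_smul_right, hb, mul_zero]
        | zero => exact om_zero_left _
        | add a c _ _ ha hc => rw [om_add_left, ha, hc, add_zero]
        | smul c a _ ha => rw [om_smul_left, ha, mul_zero]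
    have h2 : v ∈ S := Submodule.subset_span hv
    rw [h1] at h2
    exact hv0 ((Submodule.mem_bot ℂ).1 h2)
  obtain ⟨v₀, w₀, hv₀, hw₀, hvw⟩ := hpair
  obtain ⟨E, hvE, hwE, hprE, hst⟩ := exists_E hJ h𝔫 hbr hv₀ hw₀ hvw
  refine ⟨E, ?_, hprE, hst, ?_⟩
  · rw [Submodule.ne_bot_iff]
    refine ⟨v₀, hvE, ?_⟩
    rintro rfl
    exact hvw (om_zero_left _)
  -- the conjugate subspace
  have hstE : ∀ X ∈ spS J, (∀ y ∈ 𝔫, X * y - y * X ∈ 𝔫) → ∀ v, star v ∈ E → star (X *ᵥ v) ∈ E := by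
    intro X hX hXn v hv
    rw [mbar_mulVec]
    exact hst _ (spS_bar hJr hX) (nrm_bar hbar hXn) _ hv
  have hprE' : ∀ y, star y ∈ E → pr J y y ∈ 𝔫 := by
    intro y hy
    have h1 := hbar _ (hprE _ hy _ hy)
    rwa [← pr_bar hJr, star_star] at h1
  by_cases hcase : ∃ y, star y ∈ E ∧ ∃ x ∈ E, om J y x ≠ 0
  · obtain ⟨y, hy, x, hx, hyx⟩ := hcase
    have h1 : ∀ y, star y ∈ E → (∃ x ∈ E, om J y x ≠ 0) → y ∈ E := by
      rintro y hy ⟨x, hx, hyx⟩
      have h2 := hst _ (h𝔫 (hprE' y hy)) (fun z hz => hbr _ (hprE' y hy) _ hz) x hx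
      rw [pr_mulVec, ← two_smul ℂ] at h2
      exact (Submodule.smul_mem_iff E hyx).1 ((Submodule.smul_mem_iff E (two_ne_zero (α := ℂ))).1 h2)
    have h2 : ∀ y', star y' ∈ E → y' ∈ E := by
      intro y' hy'
      by_cases h3 : ∃ x ∈ E, om J y' x ≠ 0
      · exact h1 y' hy' h3
      · push Not at h3
        have h4 := h1 (y + y') (by rw [star_add]; exact E.add_mem hy hy') ⟨x, hx, by
          rw [om_add_left, h3 x hx, add_zero]
          exact hyx⟩
        exact (Submodule.add_mem_iff_right E (h1 y hy ⟨x, hx, hyx⟩)).1 h4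
    have h3 : ∀ v ∈ E, star v ∈ E := fun v hv => h2 _ (by rw [star_star]; exact hv)
    have h4 : E ⊓ orth J E = ⊥ := by
      refine haniso _ ?_ ?_ ?_
      · rintro v ⟨hv1, hv2⟩
        exact ⟨hst _ hΦ hΦn v hv1, orth_st hΦ (hst _ hΦ hΦn) v hv2⟩
      · rintro v ⟨hv1, hv2⟩
        refine ⟨h3 v hv1, fun s hs => ?_⟩
        have h5 := om_bar hJr (star s) v
        rw [star_star, hv2 _ (h3 s hs), star_zero] at h5
        exact h5
      · rintro a ha b hb
        exact hb.2 a ha.1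
    intro a ha ha'
    have h5 : a ∈ E ⊓ orth J E := ⟨ha, ha'⟩
    rw [h4] at h5
    exact (Submodule.mem_bot ℂ).1 h5
  · push Not at hcase
    let E' : Submodule ℂ (Fin n → ℂ) :=
      { carrier := {v | star v ∈ E}
        zero_mem' := by
          show star (0 : Fin n → ℂ) ∈ E
          rw [star_zero]
          exact E.zero_mem
        add_mem' := by
          intro a b ha hb
          show star (a + b) ∈ E
          rw [star_add]
          exact E.add_mem ha hb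
        smul_mem' := by
          intro c a ha
          show star (c • a) ∈ E
          rw [star_smul]
          exact E.smul_mem _ ha }
    have hE' : ∀ v ∈ E ⊔ E', star v ∈ E ⊔ E' := by
      intro v hv
      obtain ⟨a, ha, b, hb, rfl⟩ := Submodule.mem_sup.1 hv
      rw [star_add, add_comm]
      refine Submodule.add_mem_sup hb ?_
      show star (star a) ∈ E
      rw [star_star]
      exact ha
    have hΦE : ∀ v ∈ E ⊔ E', Φ *ᵥ v ∈ E ⊔ E' := by
      intro v hv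
      obtain ⟨a, ha, b, hb, rfl⟩ := Submodule.mem_sup.1 hv
      rw [mulVec_add]
      exact Submodule.add_mem_sup (hst _ hΦ hΦn a ha) (hstE _ hΦ hΦn b hb)
    have h4 : (E ⊔ E') ⊓ orth J (E ⊔ E') = ⊥ := by
      refine haniso _ ?_ ?_ ?_
      · rintro v ⟨hv1, hv2⟩
        exact ⟨hΦE v hv1, orth_st hΦ hΦE v hv2⟩
      · rintro v ⟨hv1, hv2⟩
        refine ⟨hE' v hv1, fun s hs => ?_⟩
        have h5 := om_bar hJr (star s) v
        rw [star_star, hv2 _ (hE' s hs), star_zero] at h5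
        exact h5
      · rintro a ha b hb
        exact hb.2 a ha.1
    intro a ha ha'
    have h5 : a ∈ (E ⊔ E') ⊓ orth J (E ⊔ E') := by
      refine ⟨Submodule.mem_sup_left ha, fun s hs => ?_⟩
      obtain ⟨c, hc, b, hb, rfl⟩ := Submodule.mem_sup.1 hs
      rw [om_add_left, ha' c hc, hcase b hb a ha, add_zero]
    rw [h4] at h5
    exact (Submodule.mem_bot ℂ).1 h5

/-- **self-adjoint subalgebras of codimension at most `n - 1`** -/
theorem sp_full1 (hJ : Jᵀ = -J) (hdet : IsUnit J.det) (h𝔫 : 𝔫 ≤ spS J) (hbr : ∀ x ∈ 𝔫, ∀ y ∈ 𝔫, x * y - y * x ∈ 𝔫)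
    (hJr : mbar J = J) (hbar : ∀ y ∈ 𝔫, mbar y ∈ 𝔫) {Φ : Matrix (Fin n) (Fin n) ℂ} (hΦ : Φ ∈ spS J)
    (hΦn : ∀ y ∈ 𝔫, Φ * y - y * Φ ∈ 𝔫)
    (haniso : ∀ S : Submodule ℂ (Fin n → ℂ), (∀ v ∈ S, Φ *ᵥ v ∈ S) → (∀ v ∈ S, star v ∈ S) →
      (∀ a ∈ S, ∀ b ∈ S, om J a b = 0) → S = ⊥) {r : ℕ} (hcod : finrank ℂ (spS J) ≤ finrank ℂ 𝔫 + r) (hr : r < n) :
    spS J ≤ 𝔫 := by
  obtain ⟨v, -, hv0, hv⟩ := exists_sqL h𝔫 hcod (L := ⊤) (by rw [finrank_top, finrank_fin_fun]; exact hr)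
    (fun v _ => pr_mem hJ v v)
  obtain ⟨E, hE0, hprE, hst, hnd⟩ := exists_nd hJ h𝔫 hbr hJr hbar hΦ hΦn haniso hv0 hv
  by_cases hE' : orth J E = ⊥
  · have hEt : E = ⊤ := by
      apply Submodule.eq_top_of_finrank_eq
      rw [finrank_fin_fun]
      have h1 := orth_ge (J := J) E
      rw [hE', finrank_bot] at h1
      have h2 := orth_le hJ hdet E
      omega
    intro X hX
    refine mem_of_pr hJ hdet (fun u v => ?_) hX
    exact hprE u (by rw [hEt]; exact Submodule.mem_top) v (by rw [hEt]; exact Submodule.mem_top)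
  · exfalso
    have := nondeg_codim hJ hdet h𝔫 hE0 hE' (fun a ha h => hnd a ha h)
      (fun X hX => hst X (h𝔫 hX) fun y hy => hbr X hX y hy)
    omega

/-- products of vectors of a subspace -/
def sq (J : Matrix (Fin n) (Fin n) ℂ) (L : Submodule ℂ (Fin n → ℂ)) : Submodule ℂ (Matrix (Fin n) (Fin n) ℂ) :=
  Submodule.span ℂ {X | ∃ a ∈ L, ∃ b ∈ L, X = pr J a b}

/-- `(x, y) ↦ x y₀ + x₀ y` -/
noncomputable def f2p (J : Matrix (Fin n) (Fin n) ℂ) (E E' : Submodule ℂ (Fin n → ℂ)) (x₀ y₀ : Fin n → ℂ) :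
    (E × E') →ₗ[ℂ] Matrix (Fin n) (Fin n) ℂ where
  toFun w := pr J w.1.1 y₀ + pr J x₀ w.2.1
  map_add' w w' := by
    rw [Prod.fst_add, Prod.snd_add, Submodule.coe_add, Submodule.coe_add, pr_add_left, pr_add_right]
    abel
  map_smul' c w := by
    rw [Prod.smul_fst, Prod.smul_snd, Submodule.coe_smul, Submodule.coe_smul, pr_smul_left, pr_smul_right, smul_add]
    rfl

/-- isotropic parts of nondegenerate subspaces -/
theorem iso_part (hJ : Jᵀ = -J) (hdet : IsUnit J.det) {E F S : Submodule ℂ (Fin n → ℂ)} (hEF : ∀ a ∈ E, ∀ b ∈ F, om J a b = 0)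
    (hd : E ⊓ F = ⊥) (hSE : S ≤ E) (hS : ∀ a ∈ S, ∀ b ∈ S, om J a b = 0) :
    2 * finrank ℂ S + finrank ℂ F ≤ n := by
  have h1 : S ⊔ F ≤ orth J S := by
    refine sup_le (fun a ha s hs => hS s hs a ha) fun b hb s hs => hEF s (hSE hs) b hb
  have h2 := Submodule.finrank_mono h1
  have h3 := Submodule.finrank_sup_add_finrank_inf_eq S F
  have h4 : S ⊓ F = ⊥ := by
    rw [eq_bot_iff, ← hd]
    exact inf_le_inf_right F hSE
  rw [h4, finrank_bot] at h3
  have h5 := orth_le hJ hdet S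
  omega

/-- **subalgebras which contain most products of the vectors of a Lagrangian subspace** -/
theorem sp_full2 (hJ : Jᵀ = -J) (hdet : IsUnit J.det) (h𝔫 : 𝔫 ≤ spS J) (hbr : ∀ x ∈ 𝔫, ∀ y ∈ 𝔫, x * y - y * x ∈ 𝔫)
    (hJr : mbar J = J) (hbar : ∀ y ∈ 𝔫, mbar y ∈ 𝔫) {Φ : Matrix (Fin n) (Fin n) ℂ} (hΦ : Φ ∈ spS J)
    (hΦn : ∀ y ∈ 𝔫, Φ * y - y * Φ ∈ 𝔫)
    (haniso : ∀ S : Submodule ℂ (Fin n → ℂ), (∀ v ∈ S, Φ *ᵥ v ∈ S) → (∀ v ∈ S, star v ∈ S) →
      (∀ a ∈ S, ∀ b ∈ S, om J a b = 0) → S = ⊥) {L L' : Submodule ℂ (Fin n → ℂ)}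
    (hL : ∀ a ∈ L, ∀ b ∈ L, om J a b = 0) (hL' : ∀ a ∈ L', ∀ b ∈ L', om J a b = 0)
    (hgr : ∀ S : Submodule ℂ (Fin n → ℂ), (∀ v ∈ S, Φ *ᵥ v ∈ S) → S ≤ (S ⊓ L) ⊔ (S ⊓ L')) {r : ℕ}
    (hcod : finrank ℂ (sq J L) ≤ finrank ℂ (sq J L ⊓ 𝔫 : Submodule ℂ (Matrix (Fin n) (Fin n) ℂ)) + r)
    (hr : 2 * r + 4 ≤ n) : spS J ≤ 𝔫 := by
  have hsq : ∀ a ∈ L, ∀ b ∈ L, pr J a b ∈ sq J L := fun a ha b hb => Submodule.subset_span ⟨a, ha, b, hb, rfl⟩
  have hhalf : ∀ {E F : Submodule ℂ (Fin n → ℂ)}, (∀ a ∈ E, ∀ b ∈ F, om J a b = 0) → E ⊓ F = ⊥ →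
      n ≤ finrank ℂ E + finrank ℂ F → (∀ v ∈ E, Φ *ᵥ v ∈ E) → finrank ℂ E ≤ 2 * finrank ℂ (E ⊓ L : Submodule ℂ (Fin n → ℂ)) := by
    intro E F hEF hd hn hΦE
    have h1 := iso_part hJ hdet hEF hd (S := E ⊓ L) inf_le_left fun a ha b hb => hL a ha.2 b hb.2
    have h2 := iso_part hJ hdet hEF hd (S := E ⊓ L') inf_le_left fun a ha b hb => hL' a ha.2 b hb.2
    have h3 := Submodule.finrank_mono (hgr E hΦE)
    have h4 := Submodule.finrank_add_le_finrank_add_finrank (E ⊓ L) (E ⊓ L')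
    omega
  have hLdim : n ≤ 2 * finrank ℂ L := by
    have h1 := hhalf (E := ⊤) (F := ⊥) (fun a _ b hb => by
      rw [(Submodule.mem_bot ℂ).1 hb]
      exact om_zero_right _) (inf_bot_eq _) (by rw [finrank_top, finrank_fin_fun]; exact Nat.le_add_right _ _) (fun v _ => Submodule.mem_top)
    rwa [finrank_top, finrank_fin_fun, top_inf_eq] at h1
  obtain ⟨v, -, hv0, hv⟩ := exists_sqL (𝔰 := sq J L) (𝔫' := sq J L ⊓ 𝔫) inf_le_left hcod (L := L) (by omega)
    (fun v hv => hsq v hv v hv)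
  obtain ⟨E, hE0, hprE, hst, hnd⟩ := exists_nd hJ h𝔫 hbr hJr hbar hΦ hΦn haniso hv0 hv.2
  have hdis : E ⊓ orth J E = ⊥ := by
    rw [Submodule.eq_bot_iff]
    intro x hx
    exact hnd x hx.1 hx.2
  have hdo := orth_ge (J := J) E
  have hΦE := hst _ hΦ hΦn
  have hΦE' := orth_st hΦ hΦE
  by_cases hE' : orth J E = ⊥
  · have hEt : E = ⊤ := by
      apply Submodule.eq_top_of_finrank_eq
      rw [finrank_fin_fun]
      rw [hE', finrank_bot] at hdo
      have h2 := orth_le hJ hdet E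
      omega
    intro X hX
    refine mem_of_pr hJ hdet (fun u v => ?_) hX
    exact hprE u (by rw [hEt]; exact Submodule.mem_top) v (by rw [hEt]; exact Submodule.mem_top)
  · exfalso
    have ha := hhalf (E := E) (F := orth J E) (fun a ha b hb => hb a ha) hdis hdo hΦE
    have hb := hhalf (E := orth J E) (F := E) (fun a ha b hb => by rw [om_swap hJ, ha b hb, neg_zero])
      (by rw [inf_comm]; exact hdis) (by omega) hΦE'
    have hE0' : 0 < finrank ℂ E := Nat.pos_of_ne_zero fun h => hE0 (Submodule.finrank_eq_zero.1 h)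
    have hE1' : 0 < finrank ℂ (orth J E) := Nat.pos_of_ne_zero fun h => hE' (Submodule.finrank_eq_zero.1 h)
    obtain ⟨x₀, hx₀, hx₀0⟩ := (Submodule.ne_bot_iff (E ⊓ L)).1 (by
      intro h
      rw [h, finrank_bot] at ha
      omega)
    obtain ⟨y₀, hy₀, hy₀0⟩ := (Submodule.ne_bot_iff (orth J E ⊓ L)).1 (by
      intro h
      rw [h, finrank_bot] at hb
      omega)
    obtain ⟨z₀, hz₀, hxz⟩ : ∃ z ∈ E, om J x₀ z ≠ 0 := by
      by_contra hcon
      push Not at hcon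
      refine hx₀0 (hnd x₀ hx₀.1 fun s hs => ?_)
      rw [om_swap hJ, hcon s hs, neg_zero]
    have h1 := count (f2p J (E ⊓ L) (orth J E ⊓ L) x₀ y₀) (𝔰 := sq J L) (𝔫 := sq J L ⊓ 𝔫) inf_le_left fun w =>
      (sq J L).add_mem (hsq _ w.1.2.2 _ hy₀.2) (hsq _ hx₀.2 _ w.2.2.2)
    have h2 : (sq J L ⊓ 𝔫).comap (f2p J (E ⊓ L) (orth J E ⊓ L) x₀ y₀) ≤
        Submodule.span ℂ {((⟨-x₀, (E ⊓ L).neg_mem hx₀⟩ : (E ⊓ L : Submodule ℂ (Fin n → ℂ))),
          (⟨y₀, hy₀⟩ : (orth J E ⊓ L : Submodule ℂ (Fin n → ℂ))))} := by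
      rintro ⟨⟨x, hx⟩, ⟨y, hy⟩⟩ hw
      have hw' : pr J x y₀ + pr J x₀ y ∈ 𝔫 := hw.2
      have h3 : ∀ z ∈ E, om J x z • y₀ + om J x₀ z • y = 0 := by
        intro z hz
        have h4 := hst _ (h𝔫 hw') (fun q hq => hbr _ hw' q hq) z hz
        have e1 : om J y₀ z = 0 := by rw [om_swap hJ, hy₀.1 z hz, neg_zero]
        have e2 : om J y z = 0 := by rw [om_swap hJ, hy.1 z hz, neg_zero]
        rw [add_mulVec, pr_mulVec, pr_mulVec, e1, e2, zero_smul, zero_smul, zero_add, zero_add] at h4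
        exact hnd _ h4 ((orth J E).add_mem ((orth J E).smul_mem _ hy₀.1) ((orth J E).smul_mem _ hy.1))
      have h4 := h3 z₀ hz₀
      set lam := -(om J x z₀) / om J x₀ z₀ with hlam
      have hy' : y = lam • y₀ := by
        have h5 : om J x₀ z₀ • y = -(om J x z₀) • y₀ := by
          rw [neg_smul]
          exact eq_neg_of_add_eq_zero_right h4
        rw [hlam, div_eq_inv_mul, mul_smul, ← h5, smul_smul, inv_mul_cancel₀ hxz, one_smul]
      have hx' : x + lam • x₀ = 0 := by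
        refine hnd _ (E.add_mem hx.1 (E.smul_mem _ hx₀.1)) fun z hz => ?_
        have h5 := h3 z hz
        rw [hy', smul_smul, ← add_smul] at h5
        have h6 := (smul_eq_zero.1 h5).resolve_right hy₀0
        rw [om_add_right, om_smul_right, om_swap hJ z x, om_swap hJ z x₀]
        linear_combination -h6
      refine Submodule.mem_span_singleton.2 ⟨lam, ?_⟩
      refine Prod.ext (Subtype.ext ?_) (Subtype.ext ?_)
      · show lam • (-x₀) = x
        rw [smul_neg]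
        exact (eq_neg_of_add_eq_zero_left hx').symm
      · exact hy'.symm
    have h3 := Submodule.finrank_mono h2
    have h4 : finrank ℂ (Submodule.span ℂ {((⟨-x₀, (E ⊓ L).neg_mem hx₀⟩ : (E ⊓ L : Submodule ℂ (Fin n → ℂ))),
          (⟨y₀, hy₀⟩ : (orth J E ⊓ L : Submodule ℂ (Fin n → ℂ))))}) ≤ 1 :=
      (finrank_span_le_card _).trans (by simp)
    rw [finrank_prod] at h1
    omega

end Pool.Agent.Helper880_ZP
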