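import Pool.Agent.Helper880_ZP.Rls
import Pool.Agent.Helper880_ZP.Spf

/-!
# Splittings of filtrations
-/

set_option autoImplicit false
set_option linter.unusedSectionVars false
set_option linter.unusedVariables false

open Matrix Module

namespace Pool.Agent.Helper880_ZP

variable {B : Type} [Fintype B] [DecidableEq B] {lev : B → ℤ}

/-- the filtration which is given by the columns of `P` of level at least `p` -/
def hF (lev : B → ℤ) (P : Matrix B B ℂ) (p : ℤ) : Submodule ℂ (B → ℂ) :=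
  Submodule.span ℂ {v | ∃ b, p ≤ lev b ∧ v = fun i => P i b}

/-- `φ` splits the filtration -/
def SplF (lev : B → ℤ) (P φ : Matrix B B ℂ) : Prop :=
  ∀ p, hF lev P p = Submodule.span ℂ {v | ∃ q : ℤ, p ≤ q ∧ φ *ᵥ v = (q : ℂ) • v}

theorem mulVec_single_col (P : Matrix B B ℂ) (b : B) : P *ᵥ Pi.single b 1 = fun i => P i b := by
  funext i
  simp [mulVec, dotProduct, Pi.single_apply]

theorem hF_coord {P : Matrix B B ℂ} {p : ℤ} {u : B → ℂ} (hu : u ∈ hF lev P p) :
    ∃ x : B → ℂ, (∀ c, lev c < p → x c = 0) ∧ P *ᵥ x = u := by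
  unfold hF at hu
  induction hu using Submodule.span_induction with
  | mem u hu =>
    obtain ⟨b, hb, rfl⟩ := hu
    refine ⟨Pi.single b 1, fun c hc => ?_, mulVec_single_col P b⟩
    rw [Pi.single_apply, if_neg]
    rintro rfl
    exact absurd hb (not_le.2 hc)
  | zero => exact ⟨0, fun c _ => rfl, mulVec_zero _⟩
  | add u v _ _ hu hv =>
    obtain ⟨x, hx, rfl⟩ := hu
    obtain ⟨y, hy, rfl⟩ := hv
    exact ⟨x + y, fun c hc => by rw [Pi.add_apply, hx c hc, hy c hc, add_zero], mulVec_add _ _ _⟩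
  | smul a u _ hu =>
    obtain ⟨x, hx, rfl⟩ := hu
    exact ⟨a • x, fun c hc => by rw [Pi.smul_apply, hx c hc, smul_zero], mulVec_smul _ _ _⟩

/-- splittings in terms of matrices -/
theorem spl_mat {P φ : Matrix B B ℂ} (h : SplF lev P φ) :
    ∃ V ∈ upS ℂ lev, φ * (P * (1 + V)) = P * (1 + V) * Dg ℂ lev := by
  have h1 : ∀ b, ∃ x : B → ℂ, (∀ c, lev c ≤ lev b → x c = 0) ∧
      φ *ᵥ (P *ᵥ (Pi.single b 1 + x)) = (lev b : ℂ) • (P *ᵥ (Pi.single b 1 + x)) := by
    intro b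
    have h2 : P *ᵥ Pi.single b 1 ∈ hF lev P (lev b) :=
      Submodule.subset_span ⟨b, le_rfl, mulVec_single_col P b⟩
    rw [h] at h2
    have h3 : ∀ u ∈ Submodule.span ℂ {v : B → ℂ | ∃ q : ℤ, lev b ≤ q ∧ φ *ᵥ v = (q : ℂ) • v}, ∃ v w : B → ℂ,
        φ *ᵥ v = (lev b : ℂ) • v ∧ w ∈ Submodule.span ℂ {v : B → ℂ | ∃ q : ℤ, lev b + 1 ≤ q ∧ φ *ᵥ v = (q : ℂ) • v} ∧
        u = v + w := by
      intro u hu
      induction hu using Submodule.span_induction with
      | mem u hu =>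
        obtain ⟨q, hq, hu⟩ := hu
        rcases hq.eq_or_lt with h4 | h4
        · exact ⟨u, 0, by rw [hu, h4], Submodule.zero_mem _, (add_zero u).symm⟩
        · exact ⟨0, u, by rw [mulVec_zero, smul_zero], Submodule.subset_span ⟨q, h4, hu⟩, (zero_add u).symm⟩
      | zero => exact ⟨0, 0, by rw [mulVec_zero, smul_zero], Submodule.zero_mem _, (zero_add 0).symm⟩
      | add u u' _ _ hu hu' =>
        obtain ⟨v, w, hv, hw, rfl⟩ := hu
        obtain ⟨v', w', hv', hw', rfl⟩ := hu'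
        exact ⟨v + v', w + w', by rw [mulVec_add, hv, hv', smul_add], Submodule.add_mem _ hw hw', by abel⟩
      | smul a u _ hu =>
        obtain ⟨v, w, hv, hw, rfl⟩ := hu
        exact ⟨a • v, a • w, by rw [mulVec_smul, hv, smul_comm], Submodule.smul_mem _ a hw, smul_add _ _ _⟩
    obtain ⟨v, w, hv, hw, huw⟩ := h3 _ h2
    rw [← h] at hw
    obtain ⟨x, hx, hxw⟩ := hF_coord hw
    have h4 : P *ᵥ (Pi.single b 1 + -x) = v := by
      rw [mulVec_add, mulVec_neg, huw, hxw]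
      abel
    refine ⟨-x, fun c hc => ?_, ?_⟩
    · rw [Pi.neg_apply, hx c (by omega), neg_zero]
    · rw [h4]
      exact hv
  choose x hx1 hx2 using h1
  refine ⟨Matrix.of fun c b => x b c, fun a b hab => hx1 b a hab, ?_⟩
  have h2 : ∀ (M : Matrix B B ℂ) (b i : B), (M * (P * (1 + Matrix.of fun c b => x b c))) i b =
      (M *ᵥ (P *ᵥ (Pi.single b 1 + x b))) i := by
    intro M b i
    rw [mulVec_mulVec, ← Matrix.mul_assoc, Matrix.mul_apply]
    refine Finset.sum_congr rfl fun c _ => ?_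
    congr 1
    rw [Matrix.add_apply, Matrix.one_apply, Matrix.of_apply, Pi.add_apply, Pi.single_apply]
  ext i b
  rw [h2, hx2]
  unfold Dg
  rw [Matrix.mul_diagonal]
  have h3 := h2 1 b i
  rw [Matrix.one_mul, one_mulVec] at h3
  rw [h3, Pi.smul_apply, smul_eq_mul, mul_comm]

/-- `Q` is a basis of eigenvectors of `φ` -/
structure Eig (lev : B → ℤ) (Q φ : Matrix B B ℂ) : Prop where
  /-- invertible -/
  unit : IsUnit Q.det
  /-- eigenvectors -/
  eig : φ * Q = Q * Dg ℂ lev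

theorem Eig.mk' {P φ V : Matrix B B ℂ} (hP : IsUnit P.det) (hV : V ∈ upS ℂ lev)
    (h : φ * (P * (1 + V)) = P * (1 + V) * Dg ℂ lev) :
    Eig lev (P * (1 + V)) φ ∧ cjS (P * (1 + V)) (ppS ℂ lev) = cjS P (ppS ℂ lev) := by
  obtain ⟨V', hV', h1, h2⟩ := one_add_inv hV
  have hVu : IsUnit (1 + V).det := (Matrix.isUnit_iff_isUnit_det _).1 ⟨⟨1 + V, V', h1, h2⟩, rfl⟩
  have hu : IsUnit (P * (1 + V)).det := by
    rw [Matrix.det_mul]
    exact hP.mul hVu
  have h1V : (1 + V) ∈ ppS ℂ lev := Submodule.add_mem _ one_pp (up_le_pp hV)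
  have hinv : (P * (1 + V))⁻¹ = V' * P⁻¹ := by
    rw [Matrix.mul_inv_rev]
    congr 1
    exact Matrix.inv_eq_right_inv h1
  refine ⟨⟨hu, h⟩, ?_⟩
  ext X
  rw [mem_cjS, mem_cjS, hinv]
  have h3 : V' * P⁻¹ * X * (P * (1 + V)) = V' * (P⁻¹ * X * P) * (1 + V) := by simp only [Matrix.mul_assoc]
  rw [h3]
  constructor
  · intro h4
    have h5 : P⁻¹ * X * P = (1 + V) * (V' * (P⁻¹ * X * P) * (1 + V)) * V' := by
      calc P⁻¹ * X * P = ((1 + V) * V') * (P⁻¹ * X * P) * ((1 + V) * V') := by rw [h1, Matrix.one_mul, Matrix.mul_one]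
        _ = _ := by simp only [Matrix.mul_assoc]
    rw [h5]
    exact pp_mul (pp_mul h1V h4) hV'
  · intro h4
    exact pp_mul (pp_mul hV' h4) h1V

variable {Q φ : Matrix B B ℂ}

/-- functions of `φ` -/
noncomputable def spec (lev : B → ℤ) (Q : Matrix B B ℂ) (g : ℤ → ℂ) : Matrix B B ℂ :=
  Q * Matrix.diagonal (fun b => g (lev b)) * Q⁻¹

theorem spec_eig (h : Eig lev Q φ) (g : ℤ → ℂ) {v : B → ℂ} {q : ℤ} (hv : φ *ᵥ v = (q : ℂ) • v) :
    spec lev Q g *ᵥ v = g q • v := by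
  obtain ⟨x, rfl⟩ : ∃ x, v = Q *ᵥ x :=
    ⟨Q⁻¹ *ᵥ v, by rw [mulVec_mulVec, mul_nonsing_inv _ h.unit, one_mulVec]⟩
  have hQ : ∀ y : B → ℂ, Q⁻¹ *ᵥ (Q *ᵥ y) = y := fun y => by
    rw [mulVec_mulVec, nonsing_inv_mul _ h.unit, one_mulVec]
  have h1 : Dg ℂ lev *ᵥ x = (q : ℂ) • x := by
    rw [mulVec_mulVec, h.eig, ← mulVec_mulVec, ← mulVec_smul] at hv
    have h2 := congrArg (fun y => Q⁻¹ *ᵥ y) hv
    simp only [hQ] at h2
    exact h2
  have h2 : Matrix.diagonal (fun b => g (lev b)) *ᵥ x = g q • x := by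
    funext b
    have h3 := congrFun h1 b
    unfold Dg at h3
    rw [mulVec_diagonal, Pi.smul_apply, smul_eq_mul] at h3
    rw [mulVec_diagonal, Pi.smul_apply, smul_eq_mul]
    by_cases hx : x b = 0
    · rw [hx, mul_zero, mul_zero]
    · have h4 := mul_right_cancel₀ hx h3
      rw [Int.cast_injective (α := ℂ) h4]
  unfold spec
  rw [← mulVec_mulVec, ← mulVec_mulVec, hQ, h2, mulVec_smul]

theorem spec_add (g g' : ℤ → ℂ) : spec lev Q (fun c => g c + g' c) = spec lev Q g + spec lev Q g' := by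
  unfold spec
  rw [← Matrix.add_mul, ← Matrix.mul_add, Matrix.diagonal_add]

theorem mul_spec (h : Eig lev Q φ) (g : ℤ → ℂ) : φ * spec lev Q g = spec lev Q fun c => (c : ℂ) * g c := by
  unfold spec
  rw [← Matrix.mul_assoc, ← Matrix.mul_assoc, h.eig, Matrix.mul_assoc Q]
  unfold Dg
  rw [Matrix.diagonal_mul_diagonal]

theorem spec_const (h : Eig lev Q φ) (a : ℂ) : spec lev Q (fun _ => a) = a • (1 : Matrix B B ℂ) := by
  unfold spec
  have h1 : (Matrix.diagonal fun _ : B => a) = a • (1 : Matrix B B ℂ) := by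
    rw [← Matrix.diagonal_one, ← Matrix.diagonal_smul]
    congr 1
    funext b
    simp
  rw [h1, Matrix.mul_smul, Matrix.smul_mul, Matrix.mul_one, mul_nonsing_inv _ h.unit]

theorem spec_mem (h : Eig lev Q φ) {S : Submodule ℂ (B → ℂ)} (hS : ∀ v ∈ S, φ *ᵥ v ∈ S) (g : ℤ → ℂ) {v : B → ℂ}
    (hv : v ∈ S) : spec lev Q g *ᵥ v ∈ S := by
  have h1 : ∀ p : Polynomial ℂ, spec lev Q (fun c => p.eval (c : ℂ)) *ᵥ v ∈ S := by
    intro p
    induction p using Polynomial.induction_on with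
    | C a =>
      simp only [Polynomial.eval_C]
      rw [spec_const h, smul_mulVec, one_mulVec]
      exact S.smul_mem a hv
    | add p q hp hq =>
      simp only [Polynomial.eval_add]
      rw [spec_add, add_mulVec]
      exact S.add_mem hp hq
    | monomial n a hn =>
      have h2 : spec lev Q (fun c => (Polynomial.C a * Polynomial.X ^ (n + 1)).eval (c : ℂ)) =
          φ * spec lev Q fun c => (Polynomial.C a * Polynomial.X ^ n).eval (c : ℂ) := by
        rw [mul_spec h]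
        congr 1
        funext c
        simp only [Polynomial.eval_mul, Polynomial.eval_C, Polynomial.eval_pow, Polynomial.eval_X]
        ring
      rw [h2, ← mulVec_mulVec]
      exact hS _ hn
  have hinj : Set.InjOn (fun c : ℤ => (c : ℂ)) (Finset.univ.image lev) := fun a _ b _ h => Int.cast_injective (α := ℂ) h
  have h2 := h1 (Lagrange.interpolate (Finset.univ.image lev) (fun c : ℤ => (c : ℂ)) g)
  have h3 : spec lev Q (fun c => (Lagrange.interpolate (Finset.univ.image lev) (fun c : ℤ => (c : ℂ)) g).eval (c : ℂ)) =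
      spec lev Q g := by
    unfold spec
    congr 3
    funext b
    exact Lagrange.eval_interpolate_at_node g hinj (Finset.mem_image.2 ⟨b, Finset.mem_univ _, rfl⟩)
  rwa [h3] at h2

/-- the parts of a vector -/
noncomputable def ep (lev : B → ℤ) (Q : Matrix B B ℂ) (q : ℤ) (v : B → ℂ) : B → ℂ :=
  spec lev Q (fun c => if c = q then 1 else 0) *ᵥ v

theorem ep_eig (h : Eig lev Q φ) (q : ℤ) (v : B → ℂ) : φ *ᵥ ep lev Q q v = (q : ℂ) • ep lev Q q v := by
  unfold ep
  rw [mulVec_mulVec, mul_spec h, ← smul_mulVec]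
  congr 1
  unfold spec
  rw [← Matrix.smul_mul, ← Matrix.mul_smul, ← Matrix.diagonal_smul]
  congr 3
  funext b
  by_cases hb : lev b = q
  · simp [hb]
  · simp [hb]

theorem sum_ep (h : Eig lev Q φ) (v : B → ℂ) : ∑ q ∈ Finset.univ.image lev, ep lev Q q v = v := by
  unfold ep
  have h1 : ∀ s : Finset ℤ, ∑ q ∈ s, spec lev Q (fun c => if c = q then 1 else 0) *ᵥ v =
      spec lev Q (fun c => if c ∈ s then 1 else 0) *ᵥ v := by
    intro s
    induction s using Finset.induction_on with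
    | empty =>
      rw [Finset.sum_empty]
      simp only [Finset.notMem_empty, if_false]
      rw [spec_const h, zero_smul, zero_mulVec]
    | insert a s ha ih =>
      rw [Finset.sum_insert ha, ih, ← add_mulVec, ← spec_add]
      congr 3
      funext c
      by_cases h1 : c = a
      · subst h1
        simp [ha]
      · simp [h1]
  rw [h1]
  have h2 : spec lev Q (fun c => if c ∈ Finset.univ.image lev then (1 : ℂ) else 0) = spec lev Q fun _ => 1 := by
    unfold spec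
    congr 3
    funext b
    exact if_pos (Finset.mem_image.2 ⟨b, Finset.mem_univ _, rfl⟩)
  rw [h2, spec_const h, one_smul, one_mulVec]

/-- stable subspaces are spanned by eigenvectors -/
theorem vec_span (h : Eig lev Q φ) {S : Submodule ℂ (B → ℂ)} (hS : ∀ v ∈ S, φ *ᵥ v ∈ S) :
    S ≤ Submodule.span ℂ {v | v ∈ S ∧ ∃ q : ℤ, φ *ᵥ v = (q : ℂ) • v} := by
  intro v hv
  rw [← sum_ep h v]
  exact Submodule.sum_mem _ fun q _ => Submodule.subset_span ⟨spec_mem h hS _ hv, q, ep_eig h q v⟩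

/-- functions of `ad φ` -/
noncomputable def pt (lev : B → ℤ) (Q : Matrix B B ℂ) (g : ℤ → ℂ) : Matrix B B ℂ →ₗ[ℂ] Matrix B B ℂ where
  toFun X := Q * part lev g (Q⁻¹ * X * Q) * Q⁻¹
  map_add' X Y := by
    rw [← Matrix.add_mul, ← Matrix.mul_add]
    congr 2
    ext a b
    simp only [part, Matrix.of_apply, Matrix.add_apply, Matrix.mul_add, Matrix.add_mul]
    ring
  map_smul' c X := by
    rw [RingHom.id_apply, ← Matrix.smul_mul, ← Matrix.mul_smul]
    congr 2
    ext a b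
    simp only [part, Matrix.of_apply, Matrix.smul_apply, Matrix.mul_smul, Matrix.smul_mul, smul_eq_mul]
    ring

theorem pt_apply (g : ℤ → ℂ) (X : Matrix B B ℂ) : pt lev Q g X = Q * part lev g (Q⁻¹ * X * Q) * Q⁻¹ := rfl

theorem ad_eig (h : Eig lev Q φ) (Y : Matrix B B ℂ) :
    Q * (Dg ℂ lev * Y - Y * Dg ℂ lev) * Q⁻¹ = φ * (Q * Y * Q⁻¹) - (Q * Y * Q⁻¹) * φ := by
  have hφ : φ = Q * Dg ℂ lev * Q⁻¹ := by
    rw [← h.eig, Matrix.mul_assoc, mul_nonsing_inv _ h.unit, Matrix.mul_one]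
  conv_rhs => rw [hφ]
  calc Q * (Dg ℂ lev * Y - Y * Dg ℂ lev) * Q⁻¹ = Q * Dg ℂ lev * 1 * Y * Q⁻¹ - Q * Y * 1 * Dg ℂ lev * Q⁻¹ := by
        simp only [Matrix.mul_sub, Matrix.sub_mul, Matrix.mul_assoc, Matrix.one_mul]
    _ = _ := by
      rw [← nonsing_inv_mul _ h.unit]
      simp only [Matrix.mul_assoc]

theorem pt_mem (h : Eig lev Q φ) {W : Submodule ℂ (Matrix B B ℂ)} (hW : ∀ Y ∈ W, φ * Y - Y * φ ∈ W) (g : ℤ → ℂ)
    {X : Matrix B B ℂ} (hX : X ∈ W) : pt lev Q g X ∈ W := by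
  have h1 : ∀ Y ∈ dR Q W, Dg ℂ lev * Y - Y * Dg ℂ lev ∈ dR Q W := by
    intro Y hY
    rw [mem_dR, ad_eig h]
    exact hW _ hY
  have h2 : Q⁻¹ * X * Q ∈ dR Q W := by
    rw [mem_dR, conj_conj' h.unit]
    exact hX
  exact part_mem h1 g h2

theorem part_eig {Y : Matrix B B ℂ} {c : ℤ} (hY : Dg ℂ lev * Y - Y * Dg ℂ lev = (c : ℂ) • Y) {a b : B} (hab : Y a b ≠ 0) :
    lev a - lev b = c := by
  have h1 := congrFun (congrFun hY a) b
  rw [comm_Dg, Matrix.smul_apply, smul_eq_mul] at h1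
  exact Int.cast_injective (α := ℂ) (mul_right_cancel₀ hab h1)

theorem ad_eig' (h : Eig lev Q φ) {X : Matrix B B ℂ} {c : ℤ} (hX : φ * X - X * φ = (c : ℂ) • X) :
    Dg ℂ lev * (Q⁻¹ * X * Q) - (Q⁻¹ * X * Q) * Dg ℂ lev = (c : ℂ) • (Q⁻¹ * X * Q) := by
  have h1 := ad_eig h (Q⁻¹ * X * Q)
  rw [conj_conj' h.unit, hX] at h1
  have h2 : Q⁻¹ * (Q * (Dg ℂ lev * (Q⁻¹ * X * Q) - (Q⁻¹ * X * Q) * Dg ℂ lev) * Q⁻¹) * Q = Q⁻¹ * ((c : ℂ) • X) * Q := by
    rw [h1]
  rw [conj_conj h.unit] at h2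
  rw [h2, Matrix.mul_smul, Matrix.smul_mul]

theorem pt_eig (h : Eig lev Q φ) (g : ℤ → ℂ) {X : Matrix B B ℂ} {c : ℤ} (hX : φ * X - X * φ = (c : ℂ) • X) :
    pt lev Q g X = g c • X := by
  have h1 := ad_eig' h hX
  rw [pt_apply]
  have h2 : part lev g (Q⁻¹ * X * Q) = g c • (Q⁻¹ * X * Q) := by
    ext a b
    simp only [part, Matrix.of_apply, Matrix.smul_apply, smul_eq_mul]
    by_cases hab : (Q⁻¹ * X * Q) a b = 0
    · rw [hab, mul_zero, mul_zero]
    · rw [part_eig h1 hab]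
  rw [h2, Matrix.mul_smul, Matrix.smul_mul, conj_conj' h.unit]

/-- stable spaces of matrices are spanned by homogeneous matrices -/
theorem mat_span (h : Eig lev Q φ) {W : Submodule ℂ (Matrix B B ℂ)} (hW : ∀ Y ∈ W, φ * Y - Y * φ ∈ W) :
    W ≤ Submodule.span ℂ {X | X ∈ W ∧ ∃ c : ℤ, φ * X - X * φ = (c : ℂ) • X} := by
  intro X hX
  set s : Finset ℤ := Finset.univ.image fun p : B × B => lev p.1 - lev p.2 with hs
  have h1 : X = ∑ c ∈ s, pt lev Q (fun c' => if c' = c then 1 else 0) X := by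
    simp only [pt_apply]
    rw [← Finset.sum_mul, ← Finset.mul_sum]
    have h2 : ∑ c ∈ s, part lev (fun c' => if c' = c then 1 else 0) (Q⁻¹ * X * Q) = Q⁻¹ * X * Q := by
      ext a b
      rw [Matrix.sum_apply]
      simp only [part, Matrix.of_apply]
      rw [← Finset.sum_mul, Finset.sum_ite_eq, if_pos (Finset.mem_image.2 ⟨(a, b), Finset.mem_univ _, rfl⟩), one_mul]
    rw [h2, conj_conj' h.unit]
  rw [h1]
  refine Submodule.sum_mem _ fun c _ => Submodule.subset_span ⟨pt_mem h hW _ hX, c, ?_⟩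
  rw [pt_apply, ← ad_eig h, ← Matrix.smul_mul, ← Matrix.mul_smul]
  congr 2
  ext a b
  rw [comm_Dg, Matrix.smul_apply]
  simp only [part, Matrix.of_apply, smul_eq_mul]
  by_cases hab : lev a - lev b = c
  · rw [hab]
  · simp [hab]

theorem pos_mem (h : Eig lev Q φ) {X : Matrix B B ℂ} {c : ℤ} (hX : φ * X - X * φ = (c : ℂ) • X) (hc : 0 ≤ c) :
    X ∈ cjS Q (ppS ℂ lev) := by
  rw [mem_cjS]
  intro a b hab
  by_contra h1
  have h2 := part_eig (ad_eig' h hX) h1
  omega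

theorem neg_part (h : Eig lev Q φ) {𝔥 : Submodule ℂ (Matrix B B ℂ)} (h𝔥 : ∀ Y ∈ 𝔥, φ * Y - Y * φ ∈ 𝔥)
    {Y : Matrix B B ℂ} (hY : Y ∈ Submodule.span ℂ {X : Matrix B B ℂ | ∃ c : ℤ, c < 0 ∧ φ * X - X * φ = (c : ℂ) • X})
    (hY' : Y ∈ 𝔥 ⊔ cjS Q (ppS ℂ lev)) : Y ∈ 𝔥 := by
  set g : ℤ → ℂ := fun c => if c < 0 then 1 else 0 with hg
  have h1 : pt lev Q g Y = Y := by
    clear hY'
    induction hY using Submodule.span_induction with
    | mem Y hY =>
      obtain ⟨c, hc, hY⟩ := hY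
      rw [pt_eig h g hY, hg]
      simp [hc]
    | zero => exact map_zero _
    | add X Y _ _ hX hY => rw [map_add, hX, hY]
    | smul a X _ hX => rw [map_smul, hX]
  obtain ⟨H, hH, Z, hZ, rfl⟩ := Submodule.mem_sup.1 hY'
  have h2 : pt lev Q g Z = 0 := by
    rw [pt_apply]
    have h3 : part lev g (Q⁻¹ * Z * Q) = 0 := by
      ext a b
      simp only [part, Matrix.of_apply, hg, Matrix.zero_apply]
      by_cases hab : lev a < lev b
      · rw [hZ a b hab, mul_zero]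
      · rw [if_neg (by omega), zero_mul]
    rw [h3, Matrix.mul_zero, Matrix.zero_mul]
  rw [map_add, h2, add_zero] at h1
  rw [← h1]
  exact pt_mem h h𝔥 g hH

/-- the stabiliser of the filtration -/
theorem cjS_stab {P : Matrix B B ℂ} (hP : IsUnit P.det) {X : Matrix B B ℂ} (hX : X ∈ cjS P (ppS ℂ lev)) (p : ℤ) :
    ∀ v ∈ hF lev P p, X *ᵥ v ∈ hF lev P p := by
  intro v hv
  unfold hF at hv
  induction hv using Submodule.span_induction with
  | mem v hv =>
    obtain ⟨b, hb, rfl⟩ := hv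
    have h1 : X *ᵥ (fun i => P i b) = ∑ a, (P⁻¹ * X * P) a b • (fun i => P i a) := by
      have h2 : X * P = P * (P⁻¹ * X * P) := by
        calc X * P = (P * P⁻¹) * (X * P) := by rw [mul_nonsing_inv _ hP, Matrix.one_mul]
          _ = _ := by simp only [Matrix.mul_assoc]
      funext i
      have h3 := congrFun (congrFun h2 i) b
      rw [Finset.sum_apply]
      have h4 : (X *ᵥ fun i => P i b) i = (X * P) i b := rfl
      rw [h4, h3, Matrix.mul_apply]
      exact Finset.sum_congr rfl fun a _ => by rw [Pi.smul_apply, smul_eq_mul, mul_comm]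
    rw [h1]
    refine Submodule.sum_mem _ fun a _ => ?_
    by_cases hab : lev a < lev b
    · rw [hX a b hab, zero_smul]
      exact Submodule.zero_mem _
    · exact Submodule.smul_mem _ _ (Submodule.subset_span ⟨a, by omega, rfl⟩)
  | zero => rw [mulVec_zero]; exact Submodule.zero_mem _
  | add u v _ _ hu hv => rw [mulVec_add]; exact Submodule.add_mem _ hu hv
  | smul c v _ hv => rw [mulVec_smul]; exact Submodule.smul_mem _ _ hv

end Pool.Agent.Helper880_ZP
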