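import Pool.Agent.Helper880_LF.LL

/-!
# Self-adjoint subalgebras of the symplectic Lie algebras
-/

set_option autoImplicit false
set_option linter.unusedSectionVars false
set_option linter.unusedVariables false

open Matrix Module

namespace Pool.Agent.Helper880_ZP

open Pool.Agent.Helper880_LF

variable {n : ℕ} {J : Matrix (Fin n) (Fin n) ℂ} {𝔫 : Submodule ℂ (Matrix (Fin n) (Fin n) ℂ)}

/-- squares in subspaces of small codimension -/
theorem exists_sqL {𝔰 𝔫' : Submodule ℂ (Matrix (Fin n) (Fin n) ℂ)} (h𝔫 : 𝔫' ≤ 𝔰) {r : ℕ}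
    (hcod : finrank ℂ 𝔰 ≤ finrank ℂ 𝔫' + r) {L : Submodule ℂ (Fin n → ℂ)} (hr : r < finrank ℂ L)
    (hL : ∀ v ∈ L, pr J v v ∈ 𝔰) : ∃ v ∈ L, v ≠ 0 ∧ pr J v v ∈ 𝔫' := by
  obtain ⟨W, hW⟩ := Submodule.exists_isCompl 𝔰
  have hinf : 𝔫' ⊓ W = ⊥ := by
    rw [eq_bot_iff]
    refine (inf_le_inf_right W h𝔫).trans ?_
    exact hW.disjoint.le_bot
  have hQd : finrank ℂ ((Matrix (Fin n) (Fin n) ℂ) ⧸ (𝔫' ⊔ W)) < finrank ℂ L := by
    have h1 := Submodule.finrank_quotient_add_finrank (𝔫' ⊔ W)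
    have h2 := Submodule.finrank_sup_add_finrank_inf_eq 𝔫' W
    rw [hinf, finrank_bot, add_zero] at h2
    have h3 := Submodule.finrank_add_eq_of_isCompl hW
    omega
  let b := finBasis ℂ ((Matrix (Fin n) (Fin n) ℂ) ⧸ (𝔫' ⊔ W))
  let c := finBasis ℂ L
  let ψ : Fin (finrank ℂ ((Matrix (Fin n) (Fin n) ℂ) ⧸ (𝔫' ⊔ W))) → Matrix (Fin n) (Fin n) ℂ →ₗ[ℂ] ℂ :=
    fun i => (b.coord i) ∘ₗ (𝔫' ⊔ W).mkQ
  let q : Fin (finrank ℂ ((Matrix (Fin n) (Fin n) ℂ) ⧸ (𝔫' ⊔ W))) → MvPolynomial (Fin (finrank ℂ L)) ℂ := fun i =>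
    ∑ k, ∑ l, MvPolynomial.C (ψ i (pr J (c k : Fin n → ℂ) (c l : Fin n → ℂ))) * (MvPolynomial.X k * MvPolynomial.X l)
  have hl : ∀ (s : Finset (Fin (finrank ℂ L))) (f : Fin (finrank ℂ L) → Fin n → ℂ) (v : Fin n → ℂ),
      pr J (∑ i ∈ s, f i) v = ∑ i ∈ s, pr J (f i) v := by
    intro s f v
    induction s using Finset.cons_induction with
    | empty => simp [pr_zero_left]
    | cons a s ha ih => rw [Finset.sum_cons, Finset.sum_cons, pr_add_left, ih]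
  have hq : ∀ i x, MvPolynomial.eval x (q i) = ψ i (pr J (∑ k, x k • (c k : Fin n → ℂ)) (∑ k, x k • (c k : Fin n → ℂ))) := by
    intro i x
    have h1 : pr J (∑ k, x k • (c k : Fin n → ℂ)) (∑ k, x k • (c k : Fin n → ℂ)) =
        ∑ k, ∑ l, (x k * x l) • pr J (c k : Fin n → ℂ) (c l : Fin n → ℂ) := by
      rw [hl]
      refine Finset.sum_congr rfl fun k _ => ?_
      rw [pr_symm, hl]
      refine Finset.sum_congr rfl fun l _ => ?_
      rw [pr_smul_left, pr_smul_right, pr_symm, smul_smul, mul_comm]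
    rw [h1]
    show MvPolynomial.eval x (∑ k, ∑ l, MvPolynomial.C (ψ i (pr J (c k : Fin n → ℂ) (c l : Fin n → ℂ))) *
      (MvPolynomial.X k * MvPolynomial.X l)) = _
    rw [map_sum, map_sum]
    refine Finset.sum_congr rfl fun k _ => ?_
    rw [map_sum, map_sum]
    refine Finset.sum_congr rfl fun l _ => ?_
    rw [map_smul, smul_eq_mul]
    simp only [map_mul, MvPolynomial.eval_C, MvPolynomial.eval_X]
    ring
  obtain ⟨x, hx0, hx⟩ := Pool.Agent.H552R3.Tsen.exists_common_zero (k := ℂ) q (fun i => by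
    rw [hq]
    simp [pr_zero_left]) (by rw [Fintype.card_fin, Fintype.card_fin]; exact hQd)
  set v : Fin n → ℂ := ∑ k, x k • (c k : Fin n → ℂ) with hv
  have hvL : v ∈ L := Submodule.sum_mem _ fun k _ => L.smul_mem _ (c k).2
  refine ⟨v, hvL, ?_, ?_⟩
  · intro hv0
    apply hx0
    have h1 : ∑ k, x k • c k = 0 := by
      apply Subtype.ext
      rw [Submodule.coe_sum]
      exact hv0
    funext k
    exact Fintype.linearIndependent_iff.1 c.linearIndependent x h1 k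
  · have h1 : (𝔫' ⊔ W).mkQ (pr J v v) = 0 := by
      apply b.ext_elem
      intro i
      have h2 := hx i
      rw [hq] at h2
      rw [map_zero]
      exact h2
    rw [Submodule.mkQ_apply, Submodule.Quotient.mk_eq_zero] at h1
    obtain ⟨a, ha, w, hw, haw⟩ := Submodule.mem_sup.1 h1
    have h3 : w ∈ 𝔰 := by
      have h4 : w = pr J v v - a := by rw [← haw]; abel
      rw [h4]
      exact Submodule.sub_mem _ (hL v hvL) (h𝔫 ha)
    have h5 : w = 0 := by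
      have h6 : w ∈ 𝔰 ⊓ W := ⟨h3, hw⟩
      rw [hW.disjoint.eq_bot] at h6
      exact (Submodule.mem_bot ℂ).1 h6
    rw [h5, add_zero] at haw
    rw [← haw]
    exact ha

/-- the span of the squares is stable under the normaliser -/
theorem span_stable' (hJ : Jᵀ = -J) {x : Matrix (Fin n) (Fin n) ℂ} (hx : x ∈ spS J)
    (hbr : ∀ y ∈ 𝔫, x * y - y * x ∈ 𝔫) {v : Fin n → ℂ} (hv : pr J v v ∈ 𝔫) :
    x *ᵥ v ∈ Submodule.span ℂ {w : Fin n → ℂ | pr J w w ∈ 𝔫} := by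
  by_contra hcon
  obtain ⟨φ, hφ1, hφ2⟩ := Submodule.exists_le_ker_of_notMem hcon
  -- the linear form
  set ℓ : MvPolynomial (Fin n) ℂ := ∑ i, MvPolynomial.C (φ (Pi.single i 1)) * MvPolynomial.X i with hℓ
  have hφs : ∀ w, φ w = ∑ i, φ (Pi.single i 1) * w i := by
    intro w
    conv_lhs => rw [LinearMap.pi_apply_eq_sum_univ φ w]
    refine Finset.sum_congr rfl fun i _ => ?_
    rw [smul_eq_mul, mul_comm]
    congr 2
    funext j
    simp [Pi.single_apply, eq_comm]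
  have hℓe : ∀ w, MvPolynomial.eval w ℓ = φ w := by
    intro w
    rw [hφs, hℓ]
    simp
  set I : Ideal (MvPolynomial (Fin n) ℂ) :=
    Ideal.span {q | ∃ ψ : Matrix (Fin n) (Fin n) ℂ →ₗ[ℂ] ℂ, (∀ y ∈ 𝔫, ψ y = 0) ∧ q = qf J ψ} with hI
  have hδI : ∀ a ∈ I, dl x a ∈ I := by
    intro a ha
    induction ha using Submodule.span_induction with
    | mem q hq =>
      obtain ⟨ψ, hψ, rfl⟩ := hq
      let ψ' : Matrix (Fin n) (Fin n) ℂ →ₗ[ℂ] ℂ :=
        { toFun := fun y => ψ (x * y - y * x)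
          map_add' := fun a b => by
            rw [← map_add, Matrix.mul_add, Matrix.add_mul]
            congr 1
            abel
          map_smul' := fun c a => by
            rw [Matrix.mul_smul, Matrix.smul_mul, ← smul_sub, map_smul]
            rfl }
      rw [dl_qf hJ hx ψ ψ' (fun y => rfl)]
      exact Ideal.subset_span ⟨ψ', fun y hy => hψ _ (hbr y hy), rfl⟩
    | zero => rw [map_zero]; exact I.zero_mem
    | add a b _ _ ha hb => rw [map_add]; exact I.add_mem ha hb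
    | smul c a ha' ha =>
      rw [smul_eq_mul, Derivation.leibniz, smul_eq_mul, smul_eq_mul]
      exact I.add_mem (I.mul_mem_left _ ha) (I.mul_mem_right _ ha')
  have hrad : ℓ ∈ I.radical := by
    rw [← MvPolynomial.vanishingIdeal_zeroLocus_eq_radical (K := ℂ)]
    rw [MvPolynomial.mem_vanishingIdeal_iff]
    intro w hw
    have h1 : pr J w w ∈ 𝔫 := by
      by_contra hcon2
      obtain ⟨ψ, hψ1, hψ2⟩ := Submodule.exists_le_ker_of_notMem hcon2
      have h2 := hw (qf J ψ) (Ideal.subset_span ⟨ψ, fun y hy => hψ2 hy, rfl⟩)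
      rw [MvPolynomial.aeval_eq_eval, qf_eval] at h2
      exact hψ1 h2
    rw [MvPolynomial.aeval_eq_eval, hℓe]
    exact hφ2 (Submodule.subset_span h1)
  obtain ⟨r, hr⟩ := hrad
  have h3 := seid (fun a => dl x a) (fun a b => map_add _ _ _) (fun a b => by
    rw [Derivation.leibniz, smul_eq_mul, smul_eq_mul]) hδI hr
  -- evaluate at `v`
  have h4 : ∀ a ∈ I, MvPolynomial.eval v a = 0 := by
    intro a ha
    induction ha using Submodule.span_induction with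
    | mem q hq =>
      obtain ⟨ψ, hψ, rfl⟩ := hq
      rw [qf_eval]
      exact hψ _ hv
    | zero => rw [map_zero]
    | add a b _ _ ha hb => rw [map_add, ha, hb, add_zero]
    | smul c a _ ha => rw [smul_eq_mul, map_mul, ha, mul_zero]
  have h5 := h4 _ h3
  rw [map_pow] at h5
  have h7 : MvPolynomial.eval v (dl x ℓ) = 0 := by
    by_contra h8
    exact (pow_ne_zero _ h8) h5
  apply hφ1
  rw [hφs, ← h7, hℓ, map_sum, map_sum]
  refine Finset.sum_congr rfl fun i _ => ?_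
  rw [Derivation.leibniz]
  have h1 : dl x (MvPolynomial.C (φ (Pi.single i 1))) = 0 := Derivation.map_algebraMap _ _
  rw [h1, smul_zero, add_zero, smul_eq_mul, map_mul, MvPolynomial.eval_C, dl_X]

theorem sp_om {X : Matrix (Fin n) (Fin n) ℂ} (hX : X ∈ spS J) (s c : Fin n → ℂ) : om J s (X *ᵥ c) = -om J (X *ᵥ s) c := by
  rw [mem_spS] at hX
  have h4 : J * X = -(Xᵀ * J) := by rw [eq_neg_iff_add_eq_zero, add_comm]; exact hX
  unfold om
  rw [mulVec_mulVec, h4, neg_mulVec, dotProduct_neg, dotProduct_mulVec, ← vecMul_vecMul, vecMul_transpose,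
    ← dotProduct_mulVec]

/-- a maximal subspace whose symmetric square is in the algebra -/
theorem exists_E (hJ : Jᵀ = -J) (h𝔫 : 𝔫 ≤ spS J) (hbr : ∀ x ∈ 𝔫, ∀ y ∈ 𝔫, x * y - y * x ∈ 𝔫) {v₀ w₀ : Fin n → ℂ}
    (hv₀ : pr J v₀ v₀ ∈ 𝔫) (hw₀ : pr J w₀ w₀ ∈ 𝔫) (hvw : om J v₀ w₀ ≠ 0) :
    ∃ E : Submodule ℂ (Fin n → ℂ), v₀ ∈ E ∧ w₀ ∈ E ∧ (∀ a ∈ E, ∀ b ∈ E, pr J a b ∈ 𝔫) ∧
      ∀ X ∈ spS J, (∀ y ∈ 𝔫, X * y - y * X ∈ 𝔫) → ∀ v ∈ E, X *ᵥ v ∈ E := by
  have hvw' : pr J v₀ w₀ ∈ 𝔫 := by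
    have h1 := hbr _ hv₀ _ hw₀
    rw [comm_pr hJ (pr_mem hJ v₀ v₀), pr_mulVec, ← two_smul ℂ, pr_smul_left, pr_smul_left, pr_smul_right,
      pr_smul_right, pr_symm w₀ v₀, ← two_smul ℂ, smul_smul, smul_smul] at h1
    exact smul_mem_iff' (mul_ne_zero (mul_ne_zero two_ne_zero two_ne_zero) hvw) h1
  let 𝒮 : Set (Submodule ℂ (Fin n → ℂ)) := {E | v₀ ∈ E ∧ w₀ ∈ E ∧ ∀ a ∈ E, ∀ b ∈ E, pr J a b ∈ 𝔫}
  have hne : 𝒮.Nonempty := by
    refine ⟨Submodule.span ℂ {v₀, w₀}, Submodule.subset_span (by simp), Submodule.subset_span (by simp), ?_⟩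
    intro a ha b hb
    rw [Submodule.mem_span_pair] at ha hb
    obtain ⟨a1, a2, rfl⟩ := ha
    obtain ⟨b1, b2, rfl⟩ := hb
    simp only [pr_add_left, pr_add_right, pr_smul_left, pr_smul_right]
    have hwv' : pr J w₀ v₀ ∈ 𝔫 := by rw [pr_symm]; exact hvw'
    exact 𝔫.add_mem (𝔫.smul_mem _ (𝔫.add_mem (𝔫.smul_mem _ hv₀) (𝔫.smul_mem _ hwv')))
      (𝔫.smul_mem _ (𝔫.add_mem (𝔫.smul_mem _ hvw') (𝔫.smul_mem _ hw₀)))
  obtain ⟨E, hE, hmax⟩ : ∃ E ∈ 𝒮, ∀ E' ∈ 𝒮, ¬ E < E' :=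
    WellFounded.has_min (wellFounded_gt (α := Submodule ℂ (Fin n → ℂ))) 𝒮 hne
  obtain ⟨hvE, hwE, hprE⟩ := hE
  have hstab : ∀ X ∈ spS J, (∀ y ∈ 𝔫, X * y - y * X ∈ 𝔫) → ∀ v ∈ E, (∃ u ∈ E, om J u v ≠ 0) → X *ᵥ v ∈ E := by
    rintro X hX hXn v hv ⟨u, hu, huv⟩
    set w := X *ᵥ v with hw
    have h1 : pr J v w ∈ 𝔫 := by
      have h2 := hXn _ (hprE v hv v hv)
      rw [comm_pr hJ hX, ← hw, pr_symm w v, ← two_smul ℂ] at h2
      exact smul_mem_iff' (two_ne_zero (α := ℂ)) h2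
    have h2 : ∀ e ∈ E, om J e v ≠ 0 → pr J e w ∈ 𝔫 := by
      intro e he hev
      have h3 := hbr _ (hprE e he e he) _ h1
      rw [comm_pr hJ (pr_mem hJ e e), pr_mulVec, pr_mulVec, ← two_smul ℂ, ← two_smul ℂ, pr_smul_left, pr_smul_left,
        pr_smul_right, pr_smul_right] at h3
      have h4 := (Submodule.add_mem_iff_left 𝔫 (𝔫.smul_mem _ (𝔫.smul_mem _ (hprE v hv e he)))).1 h3
      exact smul_mem_iff' hev (smul_mem_iff' (two_ne_zero (α := ℂ)) h4)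
    have h3 : ∀ e ∈ E, pr J e w ∈ 𝔫 := by
      intro e he
      by_cases hev : om J e v = 0
      · have h4 := h2 (e + u) (E.add_mem he hu) (by rw [om_add_left, hev, zero_add]; exact huv)
        rw [pr_add_left] at h4
        exact (Submodule.add_mem_iff_left 𝔫 (h2 u hu huv)).1 h4
      · exact h2 e he hev
    have h4 : pr J w w ∈ 𝔫 := by
      have h5 := hbr _ (h3 u hu) _ h1
      rw [comm_pr hJ (pr_mem hJ u w), pr_mulVec, pr_mulVec, om_self hJ, zero_smul, zero_add, pr_add_left, pr_smul_left,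
        pr_smul_left, pr_smul_right] at h5
      have h6 := (Submodule.add_mem_iff_left 𝔫 (𝔫.smul_mem _ h1)).1 h5
      have h7 := (Submodule.add_mem_iff_right 𝔫 (𝔫.smul_mem _ (h3 u hu))).1 h6
      exact smul_mem_iff' huv h7
    by_contra hwE'
    refine hmax (E ⊔ Submodule.span ℂ {w}) ⟨Submodule.mem_sup_left hvE, Submodule.mem_sup_left hwE, ?_⟩ ?_
    · intro a ha b hb
      obtain ⟨a1, ha1, a2, ha2, rfl⟩ := Submodule.mem_sup.1 ha
      obtain ⟨b1, hb1, b2, hb2, rfl⟩ := Submodule.mem_sup.1 hb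
      obtain ⟨c, rfl⟩ := Submodule.mem_span_singleton.1 ha2
      obtain ⟨d, rfl⟩ := Submodule.mem_span_singleton.1 hb2
      simp only [pr_add_left, pr_add_right, pr_smul_left, pr_smul_right]
      have hwb : pr J w b1 ∈ 𝔫 := by rw [pr_symm]; exact h3 b1 hb1
      exact 𝔫.add_mem (𝔫.add_mem (hprE a1 ha1 b1 hb1) (𝔫.smul_mem _ hwb))
        (𝔫.smul_mem _ (𝔫.add_mem (h3 a1 ha1) (𝔫.smul_mem _ h4)))
    · refine lt_of_le_of_ne le_sup_left fun heq => hwE' ?_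
      rw [heq]
      exact Submodule.mem_sup_right (Submodule.mem_span_singleton_self w)
  have hwv : om J w₀ v₀ ≠ 0 := by
    rw [om_swap hJ]
    exact neg_ne_zero.2 hvw
  refine ⟨E, hvE, hwE, hprE, fun X hX hXn v hv => ?_⟩
  by_cases h : ∃ u ∈ E, om J u v ≠ 0
  · exact hstab X hX hXn v hv h
  · push Not at h
    have h1 := hstab X hX hXn (v + v₀) (E.add_mem hv hvE) ⟨w₀, hwE, by
      rw [om_add_right, h w₀ hwE, zero_add]
      exact hwv⟩
    have h2 := hstab X hX hXn v₀ hvE ⟨w₀, hwE, hwv⟩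
    rw [mulVec_add] at h1
    exact (Submodule.add_mem_iff_left E h2).1 h1

end Pool.Agent.Helper880_ZP
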