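import Pool.Agent.Helper880_ZP.Spc

/-!
# Codimensions of special subvarieties
-/

set_option autoImplicit false
set_option linter.unusedSectionVars false
set_option linter.unusedVariables false

open Matrix Module

namespace Pool.Agent.Helper880_ZP

open Pool.Agent.Helper880_LF (count)

/-- codimensions of inverse images -/
theorem cod_sub {V M : Type} [AddCommGroup V] [Module ℂ V] [FiniteDimensional ℂ V] [AddCommGroup M] [Module ℂ M]
    [FiniteDimensional ℂ M] (f : V →ₗ[ℂ] M) {V' : Submodule ℂ V} {𝔊 R : Submodule ℂ M} (hf : ∀ X ∈ V', f X ∈ 𝔊) {r : ℕ}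
    (h : finrank ℂ 𝔊 ≤ finrank ℂ (𝔊 ⊓ R : Submodule ℂ M) + r) :
    finrank ℂ V' ≤ finrank ℂ (V' ⊓ R.comap f : Submodule ℂ V) + r := by
  have h1 := count (f ∘ₗ V'.subtype) (𝔰 := 𝔊) (𝔫 := 𝔊 ⊓ R) inf_le_left fun v => hf _ v.2
  have h2 : ((𝔊 ⊓ R).comap (f ∘ₗ V'.subtype)).map V'.subtype ≤ V' ⊓ R.comap f := by
    rintro _ ⟨v, hv, rfl⟩
    exact ⟨v.2, hv.2⟩
  have h3 := Submodule.finrank_mono h2
  have h4 : finrank ℂ (((𝔊 ⊓ R).comap (f ∘ₗ V'.subtype)).map V'.subtype) =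
      finrank ℂ ((𝔊 ⊓ R).comap (f ∘ₗ V'.subtype)) :=
    (Submodule.equivMapOfInjective V'.subtype V'.injective_subtype _).finrank_eq.symm
  omega

variable {B : Type} [Fintype B] [DecidableEq B] {lev : B → ℤ} {Q φ : Matrix B B ℂ}

/-- the complex conjugates of the elements of a space -/
def cS (W : Submodule ℂ (Matrix B B ℂ)) : Submodule ℂ (Matrix B B ℂ) where
  carrier := {X | mbar X ∈ W}
  zero_mem' := by
    show mbar (0 : Matrix B B ℂ) ∈ W
    have h : mbar (0 : Matrix B B ℂ) = 0 := by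
      ext i j
      exact star_zero _
    rw [h]
    exact W.zero_mem
  add_mem' := by
    intro X Y hX hY
    show mbar (X + Y) ∈ W
    rw [mbar_add]
    exact W.add_mem hX hY
  smul_mem' := by
    intro c X hX
    show mbar (c • X) ∈ W
    rw [mbar_smul]
    exact W.smul_mem _ hX

theorem mem_cS {W : Submodule ℂ (Matrix B B ℂ)} {X : Matrix B B ℂ} : X ∈ cS W ↔ mbar X ∈ W := Iff.rfl

theorem cS_le (W : Submodule ℂ (Matrix B B ℂ)) : finrank ℂ W ≤ finrank ℂ (cS W) := by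
  let b := finBasis ℂ W
  have h1 : LinearIndependent ℂ (fun i => (⟨mbar (b i : Matrix B B ℂ), by
      rw [mem_cS, mbar_mbar]
      exact (b i).2⟩ : cS W)) := by
    rw [Fintype.linearIndependent_iff]
    intro g hg i
    have h2 : ∑ i, g i • mbar (b i : Matrix B B ℂ) = 0 := by
      have h3 := congrArg Subtype.val hg
      rw [Submodule.coe_sum] at h3
      exact h3
    have h3 : ∑ i, star (g i) • (b i : Matrix B B ℂ) = 0 := by
      have h4 := congrArg mbar h2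
      have h5 : mbar (0 : Matrix B B ℂ) = 0 := by
        ext i j
        exact star_zero _
      rw [h5] at h4
      rw [← h4]
      have h6 : ∀ s : Finset (Fin (finrank ℂ W)), mbar (∑ i ∈ s, g i • mbar (b i : Matrix B B ℂ)) =
          ∑ i ∈ s, star (g i) • (b i : Matrix B B ℂ) := by
        intro s
        induction s using Finset.induction_on with
        | empty => rw [Finset.sum_empty, Finset.sum_empty, h5]
        | insert a s ha ih => rw [Finset.sum_insert ha, Finset.sum_insert ha, mbar_add, ih, mbar_smul, mbar_mbar]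
      exact (h6 _).symm
    have h4 : ∑ i, star (g i) • b i = 0 := by
      apply Subtype.ext
      rw [Submodule.coe_sum]
      exact h3
    have h5 := Fintype.linearIndependent_iff.1 b.linearIndependent _ h4 i
    exact star_eq_zero.1 h5
  have h2 := h1.fintype_card_le_finrank
  rwa [Fintype.card_fin] at h2

theorem cS_eq (W : Submodule ℂ (Matrix B B ℂ)) : finrank ℂ (cS W) = finrank ℂ W := by
  refine le_antisymm ?_ (cS_le W)
  have h1 := cS_le (cS W)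
  have h2 : cS (cS W) = W := by
    ext X
    rw [mem_cS, mem_cS, mbar_mbar]
  rwa [h2] at h1

/-- the normaliser is a Lie algebra -/
theorem nrm_lie {𝔥 : Submodule ℂ (Matrix B B ℂ)} : Lie' (nrm 𝔥) := by
  intro X hX Y hY Z hZ
  have h1 := 𝔥.sub_mem (hX _ (hY Z hZ)) (hY _ (hX Z hZ))
  have h2 : (X * Y - Y * X) * Z - Z * (X * Y - Y * X) =
      (X * (Y * Z - Z * Y) - (Y * Z - Z * Y) * X) - (Y * (X * Z - Z * X) - (X * Z - Z * X) * Y) := by
    simp only [Matrix.mul_sub, Matrix.sub_mul, Matrix.mul_assoc]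
    abel
  rw [h2]
  exact h1

theorem nrm_bar' {𝔥 : Submodule ℂ (Matrix B B ℂ)} (hbar : ∀ y ∈ 𝔥, mbar y ∈ 𝔥) {X : Matrix B B ℂ} (h : X ∈ nrm 𝔥) :
    mbar X ∈ nrm 𝔥 := by
  intro y hy
  have h1 := hbar _ (h _ (hbar y hy))
  rwa [mbar_sub, mbar_mul, mbar_mul, mbar_mbar] at h1

/-- **the codimension is at most half of the codimension of the normaliser** -/
theorem two_cod (h : Eig lev Q φ) {𝔥 𝔊 : Submodule ℂ (Matrix B B ℂ)} (h𝔥 : Lie' 𝔥) (hφ : φ ∈ 𝔥)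
    (hbar : ∀ X ∈ 𝔥, mbar X ∈ 𝔥) (h𝔊 : ∀ X ∈ 𝔊, φ * X - X * φ ∈ 𝔊) (hbar𝔊 : ∀ X ∈ 𝔊, mbar X ∈ 𝔊)
    (hw : ∀ X ∈ 𝔊, mbar φ * X - X * mbar φ = -(φ * X - X * φ)) {r : ℕ}
    (hcod : finrank ℂ 𝔊 ≤ finrank ℂ (𝔊 ⊓ nrm 𝔥 : Submodule ℂ (Matrix B B ℂ)) + r) :
    2 * finrank ℂ 𝔊 ≤ 2 * finrank ℂ (𝔊 ⊓ (𝔥 ⊔ cjS Q (ppS ℂ lev)) : Submodule ℂ (Matrix B B ℂ)) + r := by
  set W := 𝔊 ⊓ (𝔥 ⊔ cjS Q (ppS ℂ lev)) with hW
  have h1 : 𝔊 ≤ W ⊔ cS W := by
    refine (mat_span h h𝔊).trans ?_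
    rw [Submodule.span_le]
    rintro X ⟨hX, c, hc⟩
    by_cases h0 : 0 ≤ c
    · exact Submodule.mem_sup_left ⟨hX, Submodule.mem_sup_right (pos_mem h hc h0)⟩
    · refine Submodule.mem_sup_right ?_
      refine ⟨hbar𝔊 _ hX, Submodule.mem_sup_right (pos_mem h (c := -c) ?_ (by omega))⟩
      have h2 := hw _ (hbar𝔊 _ hX)
      have h3 : mbar φ * mbar X - mbar X * mbar φ = (c : ℂ) • mbar X := by
        rw [← mbar_mul, ← mbar_mul, ← mbar_sub, hc, mbar_smul]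
        congr 1
        exact map_intCast (starRingEnd ℂ) c
      rw [h3] at h2
      push_cast
      rw [neg_smul, h2, neg_neg]
  have h𝔪 : ∀ X ∈ 𝔊 ⊓ nrm 𝔥, φ * X - X * φ ∈ 𝔊 ⊓ nrm 𝔥 := by
    intro X hX
    refine ⟨h𝔊 X hX.1, nrm_lie _ ?_ _ hX.2⟩
    intro Y hY
    exact h𝔥 _ hφ _ hY
  have h2 : 𝔊 ⊓ nrm 𝔥 ≤ W := by
    refine (mat_span h h𝔪).trans ?_
    rw [Submodule.span_le]
    rintro X ⟨hX, c, hc⟩
    refine ⟨hX.1, ?_⟩
    by_cases h0 : c = 0
    · exact Submodule.mem_sup_right (pos_mem h hc h0.ge)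
    · refine Submodule.mem_sup_left ?_
      have h3 := 𝔥.neg_mem (hX.2 φ hφ)
      rw [neg_sub, hc] at h3
      exact (Submodule.smul_mem_iff 𝔥 (Int.cast_ne_zero.2 h0)).1 h3
  have h3 : 𝔊 ⊓ nrm 𝔥 ≤ cS W := by
    intro X hX
    refine h2 ⟨hbar𝔊 X hX.1, ?_⟩
    exact nrm_bar' hbar hX.2
  have h4 : W ⊔ cS W ≤ 𝔊 := by
    refine sup_le inf_le_left fun X hX => ?_
    have h5 := hbar𝔊 _ (inf_le_left (b := 𝔥 ⊔ cjS Q (ppS ℂ lev)) hX)
    rwa [mbar_mbar] at h5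
  have h5 := Submodule.finrank_sup_add_finrank_inf_eq W (cS W)
  have h6 := Submodule.finrank_mono (le_inf h2 h3)
  have h7 := Submodule.finrank_mono h1
  rw [cS_eq] at h5
  omega

end Pool.Agent.Helper880_ZP
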