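import Pool.Agent.Helper880_R3.Ult

/-!
# Ultraproducts of spaces of matrices
-/

set_option autoImplicit false
set_option linter.unusedSectionVars false
set_option linter.unusedVariables false

open Matrix Module Filter

namespace Pool.Agent.Helper880_ZP

open Pool.Agent.Helper880_LF (der_alg alg_mk)
open Pool.Agent.Helper880_LF.NB (gm gm_mul gm_add gm_sub gm_smul gm_zero gm_ev gm_eq gm_surj gm_neg gm_apply gm_one gm_unit
  dm dm_mul dm_smul)
open Pool.Agent.Y118.UL (mk mk_eq mk_eq_zero mk_ne_zero mk_surj ev_ge U)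

variable {B : Type} [Fintype B] [DecidableEq B]

/-- the ultraproduct of subspaces -/
def Us (S : ℕ → Submodule ℂ (Matrix B B ℂ)) : Submodule (U ℂ) (Matrix B B (U ℂ)) where
  carrier := {Y | ∃ F : ℕ → Matrix B B ℂ, gm F = Y ∧ ∀ k, F k ∈ S k}
  zero_mem' := ⟨fun _ => 0, gm_zero, fun k => (S k).zero_mem⟩
  add_mem' := by
    rintro _ _ ⟨F, rfl, hF⟩ ⟨G, rfl, hG⟩
    exact ⟨fun t => F t + G t, gm_add F G, fun k => (S k).add_mem (hF k) (hG k)⟩
  smul_mem' := by
    rintro z _ ⟨F, rfl, hF⟩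
    obtain ⟨c, rfl⟩ := mk_surj z
    exact ⟨fun t => c t • F t, gm_smul c F, fun k => (S k).smul_mem _ (hF k)⟩

variable {S S' : ℕ → Submodule ℂ (Matrix B B ℂ)}

theorem mem_Us {F : ℕ → Matrix B B ℂ} : gm F ∈ Us S ↔ ∀ᶠ k in (hyperfilter ℕ : Filter ℕ), F k ∈ S k := by
  classical
  constructor
  · rintro ⟨G, hG, hGL⟩
    filter_upwards [gm_ev.1 hG] with k hk
    rw [← hk]
    exact hGL k
  · intro h
    refine ⟨fun k => if F k ∈ S k then F k else 0, gm_ev.2 ?_, fun k => ?_⟩
    · filter_upwards [h] with k hk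
      rw [if_pos hk]
    · by_cases hk : F k ∈ S k
      · simp only [if_pos hk]
        exact hk
      · simp only [if_neg hk]
        exact (S k).zero_mem

theorem mem_Us_of {F : ℕ → Matrix B B ℂ} (h : ∀ k, F k ∈ S k) : gm F ∈ Us S := ⟨F, rfl, h⟩

theorem Us_mono (h : ∀ k, S k ≤ S' k) : Us S ≤ Us S' := by
  rintro _ ⟨F, rfl, hF⟩
  exact ⟨F, rfl, fun k => h k (hF k)⟩

theorem Us_inf : Us S ⊓ Us S' ≤ Us fun k => S k ⊓ S' k := by
  rintro Y ⟨h1, h2⟩
  obtain ⟨F, rfl⟩ := gm_surj Y
  rw [mem_Us]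
  filter_upwards [mem_Us.1 h1, mem_Us.1 h2] with k hk1 hk2
  exact ⟨hk1, hk2⟩

theorem gm_lin {ι : Type} [Fintype ι] [DecidableEq ι] (c : ι → ℕ → ℂ) (F : ι → ℕ → Matrix B B ℂ) :
    gm (fun k => ∑ i, c i k • F i k) = ∑ i, mk ℂ (c i) • gm (F i) := by
  have h : ∀ s : Finset ι, gm (fun k => ∑ i ∈ s, c i k • F i k) = ∑ i ∈ s, mk ℂ (c i) • gm (F i) := by
    intro s
    induction s using Finset.induction_on with
    | empty =>
      simp only [Finset.sum_empty]
      exact gm_zero
    | insert a s ha ih =>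
      simp only [Finset.sum_insert ha]
      rw [gm_add, gm_smul, ih]
  exact h Finset.univ

variable {m : ℕ}

/-- linear independence -/
theorem li_iff {F : Fin m → ℕ → Matrix B B ℂ} :
    LinearIndependent (U ℂ) (fun i => gm (F i)) ↔
      ∀ᶠ k in (hyperfilter ℕ : Filter ℕ), LinearIndependent ℂ (fun i => F i k) := by
  classical
  constructor
  · intro h
    by_contra hcon
    rw [← Ultrafilter.eventually_not] at hcon
    have h1 : ∀ k, ∃ c : Fin m → ℂ, ∑ i, c i • F i k = 0 ∧ (¬ LinearIndependent ℂ (fun i => F i k) → ∃ i, c i ≠ 0) := by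
      intro k
      by_cases hk : LinearIndependent ℂ (fun i => F i k)
      · exact ⟨0, by simp, fun h => absurd hk h⟩
      · obtain ⟨c, hc1, hc2⟩ := Fintype.not_linearIndependent_iff.1 hk
        exact ⟨c, hc1, fun _ => hc2⟩
    choose c hc1 hc2 using h1
    have h2 : ∑ i, mk ℂ (fun k => c k i) • gm (F i) = 0 := by
      rw [← gm_lin (fun i k => c k i) F, ← gm_zero]
      congr 1
      funext k
      exact hc1 k
    have h3 := Fintype.linearIndependent_iff.1 h _ h2
    have h4 : ∀ᶠ k in (hyperfilter ℕ : Filter ℕ), ∀ i, c k i = 0 :=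
      Filter.eventually_all.2 fun i => mk_eq_zero.1 (h3 i)
    obtain ⟨k, hk1, hk2⟩ := (h4.and hcon).exists
    obtain ⟨i, hi⟩ := hc2 k hk2
    exact hi (hk1 i)
  · intro h
    rw [Fintype.linearIndependent_iff]
    intro g hg
    choose c hc using fun i => mk_surj (g i)
    have h2 : gm (fun k => ∑ i, c i k • F i k) = gm (fun _ => 0) := by
      rw [gm_lin, gm_zero, ← hg]
      exact Finset.sum_congr rfl fun i _ => by rw [hc]
    have h3 := gm_eq h2
    intro i
    rw [← hc i, mk_eq_zero]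
    filter_upwards [h, h3] with k hk1 hk2
    exact Fintype.linearIndependent_iff.1 hk1 _ hk2 i

/-- dimensions of ultraproducts -/
theorem finrank_le : ∀ᶠ k in (hyperfilter ℕ : Filter ℕ), finrank (U ℂ) (Us S) ≤ finrank ℂ (S k) := by
  classical
  let b := finBasis (U ℂ) (Us S)
  choose F hF using fun i => gm_surj (b i : Matrix B B (U ℂ))
  have h1 : LinearIndependent (U ℂ) (fun i => gm (F i)) := by
    have h2 : LinearIndependent (U ℂ) (fun i => (b i : Matrix B B (U ℂ))) :=
      b.linearIndependent.map' (Us S).subtype (Submodule.ker_subtype _)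
    have h3 : (fun i => gm (F i)) = fun i => (b i : Matrix B B (U ℂ)) := funext hF
    rw [h3]
    exact h2
  have h2 : ∀ᶠ k in (hyperfilter ℕ : Filter ℕ), ∀ i, F i k ∈ S k := Filter.eventually_all.2 fun i =>
    mem_Us.1 (by rw [hF i]; exact (b i).2)
  filter_upwards [li_iff.1 h1, h2] with k hk1 hk2
  have h3 : LinearIndependent ℂ (fun i => (⟨F i k, hk2 i⟩ : S k)) := by
    have h4 : LinearIndependent ℂ ((S k).subtype ∘ fun i => (⟨F i k, hk2 i⟩ : S k)) := hk1
    exact LinearIndependent.of_comp _ h4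
  have h4 := h3.fintype_card_le_finrank
  rwa [Fintype.card_fin] at h4

theorem finrank_const {T : Submodule ℂ (Matrix B B ℂ)} : finrank ℂ T ≤ finrank (U ℂ) (Us fun _ => T) := by
  let b := finBasis ℂ T
  have h1 : LinearIndependent ℂ (fun i => (b i : Matrix B B ℂ)) :=
    b.linearIndependent.map' T.subtype (Submodule.ker_subtype _)
  have h2 : LinearIndependent (U ℂ) (fun i => gm fun _ : ℕ => (b i : Matrix B B ℂ)) :=
    li_iff.2 (Filter.Eventually.of_forall fun k => h1)
  have h3 : LinearIndependent (U ℂ) (fun i => (⟨gm fun _ : ℕ => (b i : Matrix B B ℂ), mem_Us_of fun _ => (b i).2⟩ :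
      (Us fun _ => T : Submodule (U ℂ) (Matrix B B (U ℂ))))) := by
    have h4 : LinearIndependent (U ℂ) ((Us fun _ => T).subtype ∘ fun i => (⟨gm fun _ : ℕ => (b i : Matrix B B ℂ),
      mem_Us_of fun _ => (b i).2⟩ : (Us fun _ => T : Submodule (U ℂ) (Matrix B B (U ℂ))))) := h2
    exact LinearIndependent.of_comp _ h4
  have h4 := h3.fintype_card_le_finrank
  rwa [Fintype.card_fin] at h4

theorem gm_inv {F : ℕ → Matrix B B ℂ} (h : ∀ k, (F k).det ≠ 0) : (gm F)⁻¹ = gm fun k => (F k)⁻¹ := by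
  refine Matrix.inv_eq_right_inv ?_
  rw [← gm_mul, ← gm_one]
  congr 1
  funext k
  exact mul_nonsing_inv _ (isUnit_iff_ne_zero.2 (h k))

/-! ### subspaces which are defined over number fields -/

/-- the space is spanned by matrices with entries in `K` -/
def DefOver (K : Subfield ℂ) (W : Submodule ℂ (Matrix B B ℂ)) : Prop :=
  W = Submodule.span ℂ {X | X ∈ W ∧ ∀ a b, X a b ∈ K}

theorem DefOver.gens {K : Subfield ℂ} {W : Submodule ℂ (Matrix B B ℂ)} (h : DefOver K W) :
    ∃ b : B × B → Matrix B B ℂ, (∀ i, b i ∈ W ∧ ∀ x y, b i x y ∈ K) ∧ Submodule.span ℂ (Set.range b) = W := by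
  classical
  obtain ⟨s, hs1, hs2, hs3⟩ := exists_linearIndependent ℂ {X | X ∈ W ∧ ∀ a b, X a b ∈ K}
  have hfin : s.Finite := hs3.setFinite
  have : Fintype s := hfin.fintype
  have hcard : Fintype.card s ≤ Fintype.card (B × B) := by
    have h1 := hs3.fintype_card_le_finrank
    rw [Module.finrank_matrix, Module.finrank_self, mul_one, ← Fintype.card_prod] at h1
    exact h1
  obtain ⟨e⟩ := Function.Embedding.nonempty_of_card_le hcard
  refine ⟨Function.extend e (fun x => (x : Matrix B B ℂ)) 0, fun i => ?_, ?_⟩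
  · by_cases hi : ∃ x, e x = i
    · obtain ⟨x, rfl⟩ := hi
      rw [e.injective.extend_apply]
      exact hs1 x.2
    · rw [Function.extend_apply' _ _ _ hi]
      exact ⟨W.zero_mem, fun x y => K.zero_mem⟩
  · have h1 : Submodule.span ℂ s = W := by rw [hs2]; exact h.symm
    refine le_antisymm ?_ ?_
    · rw [Submodule.span_le]
      rintro _ ⟨i, rfl⟩
      by_cases hi : ∃ x, e x = i
      · obtain ⟨x, rfl⟩ := hi
        rw [e.injective.extend_apply]
        exact (hs1 x.2).1
      · rw [Function.extend_apply' _ _ _ hi]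
        exact W.zero_mem
    · rw [← h1, Submodule.span_le]
      intro x hx
      refine Submodule.subset_span ⟨e ⟨x, hx⟩, ?_⟩
      rw [e.injective.extend_apply]

/-- the ultraproduct is stable under derivations -/
theorem Us_der {K : ℕ → Subfield ℂ} {D : ℕ} (hK : ∀ k, FiniteDimensional ℚ (K k)) (hD : ∀ k, finrank ℚ (K k) ≤ D)
    (h : ∀ k, DefOver (K k) (S k)) (δ : Derivation (U ℚ) (U ℂ) (U ℂ)) {Y : Matrix B B (U ℂ)} (hY : Y ∈ Us S) :
    dm δ Y ∈ Us S := by
  classical
  choose b hb1 hb2 using fun k => (h k).gens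
  obtain ⟨F, rfl, hF⟩ := hY
  have h1 : ∀ k, ∃ c : B × B → ℂ, ∑ i, c i • b k i = F k := by
    intro k
    have h2 := hF k
    rw [← hb2 k] at h2
    exact (Submodule.mem_span_range_iff_exists_fun ℂ).1 h2
  choose c hc using h1
  have h2 : gm F = ∑ i, mk ℂ (fun k => c k i) • gm (fun k => b k i) := by
    rw [← gm_lin (fun i k => c k i) fun i k => b k i]
    congr 1
    funext k
    exact (hc k).symm
  have h3 : ∀ i, dm δ (gm fun k => b k i) = 0 := by
    intro i
    ext x y
    show δ (mk ℂ fun k => b k i x y) = 0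
    exact der_alg δ (alg_mk hK hD fun k => (hb1 k i).2 x y)
  have h4 : ∀ (s : Finset (B × B)) (G : B × B → Matrix B B (U ℂ)), dm δ (∑ i ∈ s, G i) = ∑ i ∈ s, dm δ (G i) := by
    intro s G
    induction s using Finset.induction_on with
    | empty =>
      rw [Finset.sum_empty, Finset.sum_empty]
      ext x y
      exact map_zero δ
    | insert a s ha ih =>
      rw [Finset.sum_insert ha, Finset.sum_insert ha, ← ih]
      ext x y
      exact map_add δ _ _
  rw [h2, h4]
  refine Submodule.sum_mem _ fun i _ => ?_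
  rw [dm_smul, h3, smul_zero, add_zero]
  exact Submodule.smul_mem _ _ (mem_Us_of fun k => (hb1 k i).1)

end Pool.Agent.Helper880_ZP
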